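import Pool.Agent.U157.SLK.ExchMin

set_option autoImplicit false
set_option linter.unusedSectionVars false

/-!
# Abelian extensions of an imaginary quadratic field
-/

namespace Pool.Agent.U157.SLK

open NumberField TensorProduct Pool.Agent.W289.SL Pool.Agent.W332.SL6
open Pool.Agent.W254.PA (exists_theta)

/-- common eigenvectors of commuting operators -/
theorem common_eigen {k V G : Type*} [Field k] [IsAlgClosed k] [AddCommGroup V] [Module k V]
    [FiniteDimensional k V] (f : G → Module.End k V) (hf : ∀ a b, f a * f b = f b * f a)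
    (s : Finset G) : ∀ W : Submodule k V, W ≠ ⊥ → (∀ a, ∀ x ∈ W, f a x ∈ W) →
      ∃ W' ≤ W, W' ≠ ⊥ ∧ (∀ a, ∀ x ∈ W', f a x ∈ W') ∧
        ∀ a ∈ s, ∃ μ : k, ∀ x ∈ W', f a x = μ • x := by
  classical
  induction s using Finset.induction_on with
  | empty =>
    intro W hW hs
    exact ⟨W, le_rfl, hW, hs, fun a ha => absurd ha (Finset.notMem_empty a)⟩
  | insert a s _ ih =>
    intro W hW hs
    obtain ⟨W', hle, hne, hst, heig⟩ := ih W hW hs
    have hnt : Nontrivial W' := Submodule.nontrivial_iff_ne_bot.2 hne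
    obtain ⟨μ, hμ⟩ := Module.End.exists_eigenvalue ((f a).restrict (hst a))
    obtain ⟨v, hv⟩ := hμ.exists_hasEigenvector
    have hv1 : f a v = μ • (v : V) := congrArg Subtype.val hv.apply_eq_smul
    have hk : ∀ x : V, x ∈ LinearMap.ker (f a - algebraMap k (Module.End k V) μ) ↔
        f a x = μ • x := by
      intro x
      rw [LinearMap.mem_ker, LinearMap.sub_apply, Module.algebraMap_end_apply, sub_eq_zero]
    refine ⟨W' ⊓ LinearMap.ker (f a - algebraMap k (Module.End k V) μ), inf_le_left.trans hle,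
      ?_, ?_, ?_⟩
    · intro h
      have h1 : (v : V) ∈ W' ⊓ LinearMap.ker (f a - algebraMap k (Module.End k V) μ) :=
        ⟨v.2, (hk v).2 hv1⟩
      rw [h] at h1
      exact hv.2 (Subtype.ext h1)
    · rintro b x ⟨hx1, hx2⟩
      refine ⟨hst b x hx1, (hk _).2 ?_⟩
      have h1 : f a (f b x) = f b (f a x) := LinearMap.congr_fun (hf a b) x
      rw [h1, (hk x).1 hx2, map_smul]
    · intro b hb
      rcases Finset.mem_insert.1 hb with rfl | hb
      · exact ⟨μ, fun x hx => (hk x).1 hx.2⟩
      · obtain ⟨ν, hν⟩ := heig b hb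
        exact ⟨ν, fun x hx => hν x hx.1⟩

variable {p : ℕ} [Fact p.Prime]

/-- **Brumer's theorem** for the types induced from an imaginary quadratic field -/
theorem induced_good {k K N : Type} [Field k] [NumberField k] [Field K] [NumberField K] [Field N]
    [NumberField N] [Algebra k K] [Algebra k N] [Algebra K N] [IsScalarTower k K N]
    [FiniteDimensional k N] [FiniteDimensional K N] [IsGalois k N]
    (hpl : ∀ w w' : InfinitePlace k, w = w') (hab : ∀ a b : N ≃ₐ[k] N, a * b = b * a)
    (χ : (N ≃ₐ[K] N) →* ℂ_[p]ˣ) (σ0 : N →+* ℂ_[p]) :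
    kerS χ {τ : K →+* ℂ_[p] | τ.comp (algebraMap k K) = σ0.comp (algebraMap k N)} = ⊥ := by
  classical
  obtain ⟨L, hL⟩ := exists_iwasawaLog p
  rw [eq_bot_iff]
  intro x hx
  by_contra hx0
  let X : Submodule ℂ_[p] (UM p N) :=
    { carrier := {y | ∀ g : N ≃ₐ[k] N, logLin hL σ0 (push (g : N →+* N) y) = 0}
      add_mem' := fun {y z} hy hz g => by rw [map_add, map_add, hy g, hz g, add_zero]
      zero_mem' := fun g => by rw [map_zero, map_zero]
      smul_mem' := fun c y hy g => by rw [map_smul, map_smul, hy g, smul_zero] }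
  have hxX : x ∈ X := by
    intro g
    rw [logLin_push]
    apply hx.2 L hL
    change ((σ0.comp (g : N →+* N)).comp (algebraMap K N)).comp (algebraMap k K) = _
    ext y
    change σ0 (g (algebraMap K N (algebraMap k K y))) = σ0 (algebraMap k N y)
    rw [← IsScalarTower.algebraMap_apply, AlgEquiv.commutes]
  have hXne : X ≠ ⊥ := fun h => hx0 (by rw [h] at hxX; exact hxX)
  let f : (N ≃ₐ[k] N) → Module.End ℂ_[p] (UM p N) := fun g => push (g : N →+* N)
  have hmul : ∀ a b : N ≃ₐ[k] N, f (a * b) = f a * f b := by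
    intro a b
    refine LinearMap.ext fun y => ?_
    change push ((a * b : N ≃ₐ[k] N) : N →+* N) y = push (a : N →+* N) (push (b : N →+* N) y)
    rw [push_push]
    rfl
  have hone : f 1 = 1 := by
    refine LinearMap.ext fun y => ?_
    change push ((1 : N ≃ₐ[k] N) : N →+* N) y = y
    have h1 : ((1 : N ≃ₐ[k] N) : N →+* N) = RingHom.id N := RingHom.ext fun _ => rfl
    rw [h1]
    induction y using TensorProduct.induction_on with
    | zero => rw [map_zero]
    | tmul c u => rfl
    | add y z hy hz => rw [map_add, hy, hz]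
  obtain ⟨W, hWX, hWne, -, hW⟩ := common_eigen f (fun a b => by rw [← hmul, hab, hmul])
    (Finset.univ : Finset (N ≃ₐ[k] N)) X hXne (fun a y hy g => by
      change logLin hL σ0 (push (g : N →+* N) (push (a : N →+* N) y)) = 0
      rw [push_push]
      exact hy (g * a))
  obtain ⟨w, hwW, hw0⟩ := Submodule.exists_mem_ne_zero_of_ne_bot hWne
  choose μ hμ using fun a => hW a (Finset.mem_univ a)
  have hcancel : ∀ a b : ℂ_[p], a • w = b • w → a = b := by
    intro a b h
    have h1 : (a - b) • w = 0 := by rw [sub_smul, h, sub_self]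
    exact sub_eq_zero.1 ((smul_eq_zero.1 h1).resolve_right hw0)
  let ψ0 : (N ≃ₐ[k] N) →* ℂ_[p] :=
    { toFun := μ
      map_one' := by
        apply hcancel
        rw [← hμ 1 w hwW, hone, one_smul]
        rfl
      map_mul' := fun a b => by
        apply hcancel
        rw [← hμ (a * b) w hwW, hmul, Module.End.mul_apply, hμ b w hwW, map_smul, hμ a w hwW,
          smul_smul, mul_comm] }
  have hchi : InChi ψ0.toHomUnits w := by
    intro g
    exact hμ g w hwW
  refine hw0 (eq_zero_of_log_chi hpl hL σ0 hchi ?_)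
  have h1 := hWX hwW 1
  have h2 : push ((1 : N ≃ₐ[k] N) : N →+* N) w = w := LinearMap.congr_fun hone w
  rw [h2] at h1
  exact h1

end Pool.Agent.U157.SLK
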