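import Pool.Agent.U157.SLK.Count

set_option autoImplicit false
set_option linter.unusedSectionVars false

/-!
# Extensions of degree three of an imaginary quadratic field: the part without `ψ`-component
-/

namespace Pool.Agent.U157.SLK

open NumberField TensorProduct Pool.Agent.W289.SL Pool.Agent.W332.SL6
open Pool.Agent.W254.PA (exists_theta)

variable {p : ℕ} [Fact p.Prime]

section pr

variable {k N : Type} [Field k] [NumberField k] [Field N] [NumberField N] [Algebra k N]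
  [FiniteDimensional k N]

lemma pr_mem (ψ : (N ≃ₐ[k] N) →* ℂ_[p]ˣ) (x : UM p N) : InChi ψ (pr ψ x) := by
  intro τ
  induction x using TensorProduct.induction_on with
  | zero => rw [map_zero, map_zero, smul_zero]
  | tmul c u => rw [pr_tmul]; exact (xu_inChi ψ u).smul c τ
  | add x y hx hy => rw [map_add, map_add, hx, hy, smul_add]

lemma pr_mem_AU (ψ : (N ≃ₐ[k] N) →* ℂ_[p]ˣ) {x : UM p N} (hx : x ∈ AU p N) :
    pr ψ x ∈ AU p N := by
  rw [pr_apply]
  exact Submodule.sum_mem _ fun g _ => smul_mem_AU (push_mem_AU _ hx) (chi_alg ψ g⁻¹)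

lemma log_pr (ψ : (N ≃ₐ[k] N) →* ℂ_[p]ˣ) {L : ℂ_[p] → ℂ_[p]} (hL : IsIwasawaLog p L)
    (σ : N →+* ℂ_[p]) (x : UM p N) : logLin hL σ (pr ψ x) =
      ∑ g : N ≃ₐ[k] N, ((ψ g⁻¹ : ℂ_[p]ˣ) : ℂ_[p]) * logLin hL (σ.comp (g : N →+* N)) x := by
  rw [pr_apply, map_sum]
  refine Finset.sum_congr rfl fun g _ => ?_
  rw [map_smul, logLin_push, smul_eq_mul]

lemma lam_pr (ψ : (N ≃ₐ[k] N) →* ℂ_[p]ˣ) (θ : ℂ_[p] ≃+* ℂ)
    (s : N →+* ℂ) (x : UM p N) : lam θ s (pr ψ x) =
      ∑ g : N ≃ₐ[k] N, ((ψ g⁻¹ : ℂ_[p]ˣ) : ℂ_[p]) * lam θ (s.comp (g : N →+* N)) x := by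
  rw [pr_apply, map_sum]
  refine Finset.sum_congr rfl fun g _ => ?_
  rw [map_smul, lam_push, smul_eq_mul]

end pr

section base

variable {k K N : Type} [Field k] [NumberField k] [Field K] [NumberField K] [Field N]
  [NumberField N] [Algebra k K] [Algebra k N] [Algebra K N] [IsScalarTower k K N]
  [FiniteDimensional k N] [FiniteDimensional K N] [IsGalois k N] [IsGalois K N]

variable (K) in
/-- the restriction of `ψ` to `Gal(N/K)` -/
noncomputable def rst (ψ : (N ≃ₐ[k] N) →* ℂ_[p]ˣ) : (N ≃ₐ[K] N) →* ℂ_[p]ˣ :=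
  ψ.comp (AlgEquiv.restrictScalarsHom k)

lemma rst_apply (ψ : (N ≃ₐ[k] N) →* ℂ_[p]ˣ) (g : N ≃ₐ[K] N) :
    rst K ψ g = ψ (g.restrictScalars k) := rfl

lemma inChi_rst {ψ : (N ≃ₐ[k] N) →* ℂ_[p]ˣ} {y : UM p N} (hy : InChi ψ y) :
    InChi (rst K ψ) y := fun τ => hy (τ.restrictScalars k)

/-- automorphisms which agree on `K` -/
lemma exists_of_agree {h g : N ≃ₐ[k] N}
    (hgh : ∀ y : K, h (algebraMap K N y) = g (algebraMap K N y)) :
    ∃ u : N ≃ₐ[K] N, h = g * u.restrictScalars k := by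
  obtain ⟨u, hu⟩ : ∃ u : N ≃ₐ[K] N, u.restrictScalars k = g⁻¹ * h := by
    refine ⟨{ (g⁻¹ * h) with commutes' := fun y => ?_ }, ?_⟩
    · change (g⁻¹ * h) (algebraMap K N y) = algebraMap K N y
      rw [AlgEquiv.mul_apply, hgh, ← AlgEquiv.mul_apply, inv_mul_cancel, AlgEquiv.one_apply]
    · ext y
      rfl
  exact ⟨u, by rw [hu, mul_inv_cancel_left]⟩

lemma log_agree (ψ : (N ≃ₐ[k] N) →* ℂ_[p]ˣ) {L : ℂ_[p] → ℂ_[p]} (hL : IsIwasawaLog p L)
    (σ : N →+* ℂ_[p]) {y : UM p N} (hy : InChi (rst K ψ) y) {h g : N ≃ₐ[k] N}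
    (hgh : ∀ y : K, h (algebraMap K N y) = g (algebraMap K N y)) :
    ((ψ h⁻¹ : ℂ_[p]ˣ) : ℂ_[p]) * logLin hL (σ.comp (h : N →+* N)) y =
      ((ψ g⁻¹ : ℂ_[p]ˣ) : ℂ_[p]) * logLin hL (σ.comp (g : N →+* N)) y := by
  obtain ⟨u, rfl⟩ := exists_of_agree hgh
  have h1 : σ.comp ((g * u.restrictScalars k : N ≃ₐ[k] N) : N →+* N) =
      (σ.comp (g : N →+* N)).comp (u : N →+* N) := rfl
  rw [h1, logLin_inChi hL hy, rst_apply, ← mul_assoc, ← Units.val_mul]
  congr 2
  rw [mul_inv_rev, map_mul, map_inv, map_inv, mul_comm, mul_inv_cancel_left]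

lemma lam_agree (ψ : (N ≃ₐ[k] N) →* ℂ_[p]ˣ) (θ : ℂ_[p] ≃+* ℂ)
    (s : N →+* ℂ) {y : UM p N} (hy : InChi (rst K ψ) y) {h g : N ≃ₐ[k] N}
    (hgh : ∀ y : K, h (algebraMap K N y) = g (algebraMap K N y)) :
    ((ψ h⁻¹ : ℂ_[p]ˣ) : ℂ_[p]) * lam θ (s.comp (h : N →+* N)) y =
      ((ψ g⁻¹ : ℂ_[p]ˣ) : ℂ_[p]) * lam θ (s.comp (g : N →+* N)) y := by
  obtain ⟨u, rfl⟩ := exists_of_agree hgh
  have h1 : s.comp ((g * u.restrictScalars k : N ≃ₐ[k] N) : N →+* N) =
      (s.comp (g : N →+* N)).comp (u : N →+* N) := rfl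
  rw [h1, lam_inChi θ hy, rst_apply, ← mul_assoc, ← Units.val_mul]
  congr 2
  rw [mul_inv_rev, map_mul, map_inv, map_inv, mul_comm, mul_inv_cancel_left]

variable (K) in
/-- representatives of the embeddings of `K` over `k` -/
structure Reps (g : Fin 3 → (N ≃ₐ[k] N)) : Prop where
  cover : ∀ h : N ≃ₐ[k] N, ∃ i, ∀ y : K, h (algebraMap K N y) = g i (algebraMap K N y)
  inj : ∀ i j, (∀ y : K, g i (algebraMap K N y) = g j (algebraMap K N y)) → i = j

lemma sum_reps {g : Fin 3 → (N ≃ₐ[k] N)} (hg : Reps K g) : ∃ n : Fin 3 → ℕ, (∀ i, n i ≠ 0) ∧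
    ∀ f : (N ≃ₐ[k] N) → ℂ_[p], (∀ h h' : N ≃ₐ[k] N,
      (∀ y : K, h (algebraMap K N y) = h' (algebraMap K N y)) → f h = f h') →
      ∑ h, f h = ∑ i, (n i : ℂ_[p]) * f (g i) := by
  classical
  choose idx hidx using hg.cover
  refine ⟨fun i => (Finset.univ.filter fun h => idx h = i).card, fun i => ?_, fun f hf => ?_⟩
  · have h1 : g i ∈ Finset.univ.filter fun h => idx h = i := by
      rw [Finset.mem_filter]
      exact ⟨Finset.mem_univ _, (hg.inj i _ (hidx (g i))).symm⟩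
    exact (Finset.card_pos.2 ⟨_, h1⟩).ne'
  · rw [← Finset.sum_fiberwise Finset.univ idx f]
    refine Finset.sum_congr rfl fun i _ => ?_
    rw [Finset.sum_congr rfl (fun h hh => hf h (g i) (by
      rw [Finset.mem_filter] at hh
      have h2 := hidx h
      rw [hh.2] at h2
      exact h2)), Finset.sum_const, nsmul_eq_mul]

/-- embeddings of `k` -/
lemma k_not_real [IsTotallyComplex k] (e : k →+* ℂ) : (starRingEnd ℂ).comp e ≠ e := by
  intro h
  refine IsTotallyComplex.complexEmbedding_not_isReal e ?_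
  rw [ComplexEmbedding.isReal_iff]
  exact h

lemma places_inj [IsTotallyComplex k] {g : Fin 3 → (N ≃ₐ[k] N)} (hg : Reps K g) (s : N →+* ℂ) :
    Function.Injective fun i =>
      InfinitePlace.mk ((s.comp (g i : N →+* N)).comp (algebraMap K N)) := by
  intro i j hij
  rcases InfinitePlace.mk_eq_iff.1 hij with h | h
  · apply hg.inj
    intro y
    exact s.injective (RingHom.congr_fun h y)
  · exfalso
    apply k_not_real (s.comp (algebraMap k N))
    ext x
    have h1 := RingHom.congr_fun h (algebraMap k K x)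
    change star (s (g i (algebraMap K N (algebraMap k K x)))) =
      s (g j (algebraMap K N (algebraMap k K x))) at h1
    rw [← IsScalarTower.algebraMap_apply, AlgEquiv.commutes, AlgEquiv.commutes] at h1
    exact h1

lemma emb_cases (hpk : ∀ w w' : InfinitePlace k, w = w') (s t : N →+* ℂ) :
    ∃ h : N ≃ₐ[k] N, t = s.comp (h : N →+* N) ∨
      (starRingEnd ℂ).comp t = s.comp (h : N →+* N) := by
  rcases InfinitePlace.mk_eq_iff.1 (hpk (InfinitePlace.mk (t.comp (algebraMap k N)))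
    (InfinitePlace.mk (s.comp (algebraMap k N)))) with h | h
  · obtain ⟨g, hg⟩ := exists_aut t s h
    exact ⟨g, Or.inl hg⟩
  · obtain ⟨g, hg⟩ := exists_aut ((starRingEnd ℂ).comp t) s h
    exact ⟨g, Or.inr hg⟩

lemma places_cover (hpk : ∀ w w' : InfinitePlace k, w = w') {g : Fin 3 → (N ≃ₐ[k] N)}
    (hg : Reps K g) (s : N →+* ℂ) (w : InfinitePlace K) :
    ∃ i, w = InfinitePlace.mk ((s.comp (g i : N →+* N)).comp (algebraMap K N)) := by
  obtain ⟨t, ht⟩ : ∃ t : N →+* ℂ, t.comp (algebraMap K N) = w.embedding := by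
    let := w.embedding.toAlgebra
    have : Algebra.IsAlgebraic K N := Algebra.IsAlgebraic.tower_top (K := ℚ) K
    let φ : N →ₐ[K] ℂ := IsAlgClosed.lift
    exact ⟨φ, φ.comp_algebraMap⟩
  have hw : w = InfinitePlace.mk (t.comp (algebraMap K N)) := by
    rw [ht, InfinitePlace.mk_embedding]
  obtain ⟨h, hh⟩ := emb_cases hpk s t
  obtain ⟨i, hi⟩ := hg.cover h
  refine ⟨i, ?_⟩
  have h1 : (s.comp (h : N →+* N)).comp (algebraMap K N) =
      (s.comp (g i : N →+* N)).comp (algebraMap K N) := by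
    ext y
    exact congrArg s (hi y)
  rw [hw, ← h1]
  rcases hh with hh | hh
  · rw [hh]
  · rw [← hh, RingHom.comp_assoc]
    exact (InfinitePlace.mk_conjugate_eq _).symm

/-- representatives exist -/
theorem exists_reps [IsTotallyComplex k] (hpk : ∀ w w' : InfinitePlace k, w = w')
    (s : Fin 3 → (N →+* ℂ))
    (hs : Function.Injective fun i => InfinitePlace.mk ((s i).comp (algebraMap K N)))
    (hpl : ∀ w : InfinitePlace K, ∃ i, w = InfinitePlace.mk ((s i).comp (algebraMap K N))) :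
    ∃ g : Fin 3 → (N ≃ₐ[k] N), Reps K g := by
  choose g hg using fun i => emb_cases hpk (s 0) (s i)
  have hmk : ∀ i, InfinitePlace.mk ((s i).comp (algebraMap K N)) =
      InfinitePlace.mk (((s 0).comp (g i : N →+* N)).comp (algebraMap K N)) := by
    intro i
    rcases hg i with h | h
    · rw [← h]
    · rw [← h, RingHom.comp_assoc]
      exact (InfinitePlace.mk_conjugate_eq _).symm
  refine ⟨g, ⟨fun h => ?_, fun i j hij => ?_⟩⟩
  · obtain ⟨i, hi⟩ := hpl (InfinitePlace.mk (((s 0).comp (h : N →+* N)).comp (algebraMap K N)))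
    refine ⟨i, ?_⟩
    rw [hmk] at hi
    rcases InfinitePlace.mk_eq_iff.1 hi with h1 | h1
    · intro y
      exact (s 0).injective (RingHom.congr_fun h1 y)
    · exfalso
      apply k_not_real ((s 0).comp (algebraMap k N))
      ext x
      have h2 := RingHom.congr_fun h1 (algebraMap k K x)
      change star (s 0 (h (algebraMap K N (algebraMap k K x)))) =
        s 0 (g i (algebraMap K N (algebraMap k K x))) at h2
      rw [← IsScalarTower.algebraMap_apply, AlgEquiv.commutes, AlgEquiv.commutes] at h2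
      exact h2
  · apply hs
    change InfinitePlace.mk ((s i).comp (algebraMap K N)) =
      InfinitePlace.mk ((s j).comp (algebraMap K N))
    rw [hmk, hmk]
    congr 1
    ext y
    exact congrArg (s 0) (hij y)

end base

end Pool.Agent.U157.SLK
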