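import Pool.Agent.W332.SL6.Main

set_option autoImplicit false
set_option linter.unusedSectionVars false

/-!
# Characters of a base field with one infinite place: the ratio of the logarithms
-/

namespace Pool.Agent.U157.SLK

open NumberField TensorProduct Pool.Agent.W289.SL Pool.Agent.W332.SL6
open Pool.Agent.W254.PA (exists_theta LgP Hyp LtE)

variable {p : ℕ} [Fact p.Prime]

/-- complex conjugation, transported to `ℂ_p` -/
noncomputable def kap (θ : ℂ_[p] ≃+* ℂ) : ℂ_[p] →+* ℂ_[p] :=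
  (θ.symm : ℂ →+* ℂ_[p]).comp ((starRingEnd ℂ).comp (θ : ℂ_[p] →+* ℂ))

lemma theta_kap_apply (θ : ℂ_[p] ≃+* ℂ) (x : ℂ_[p]) : θ (kap θ x) = (starRingEnd ℂ) (θ x) := by
  change θ (θ.symm _) = _
  rw [θ.apply_symm_apply]
  rfl

lemma kap_kap_apply (θ : ℂ_[p] ≃+* ℂ) (x : ℂ_[p]) : kap θ (kap θ x) = x := by
  apply θ.injective
  rw [theta_kap_apply, theta_kap_apply, Complex.conj_conj]

lemma theta_kap {N : Type} [Field N] (θ : ℂ_[p] ≃+* ℂ) (σ : N →+* ℂ_[p]) :
    (θ : ℂ_[p] →+* ℂ).comp ((kap θ).comp σ) =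
      (starRingEnd ℂ).comp ((θ : ℂ_[p] →+* ℂ).comp σ) :=
  RingHom.ext fun x => theta_kap_apply θ (σ x)

lemma lam_kap {N : Type} [Field N] [NumberField N] (θ : ℂ_[p] ≃+* ℂ) (σ : N →+* ℂ_[p])
    (x : UM p N) : lam θ ((θ : ℂ_[p] →+* ℂ).comp ((kap θ).comp σ)) x =
      lam θ ((θ : ℂ_[p] →+* ℂ).comp σ) x := by
  rw [theta_kap, lam_conj]

lemma push_injective {H N : Type} [Field H] [NumberField H] [Field N] [NumberField N]
    (f : H →+* N) {x : UM p H} (h : push f x = 0) : x = 0 := by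
  obtain ⟨θ⟩ := exists_theta p
  apply eq_zero_of_lam θ
  intro s
  obtain ⟨t, ht⟩ : ∃ t : N →+* ℂ, t.comp f = s := by
    let := f.toAlgebra
    let := s.toAlgebra
    have : Algebra.IsAlgebraic H N := Algebra.IsAlgebraic.tower_top (K := ℚ) H
    let φ : N →ₐ[H] ℂ := IsAlgClosed.lift
    exact ⟨φ, φ.comp_algebraMap⟩
  rw [← ht, ← lam_push, h, map_zero]

section chi

variable {k N : Type} [Field k] [NumberField k] [Field N] [NumberField N] [Algebra k N]
  [FiniteDimensional k N]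

/-- the projection to the `χ`-part, up to a constant -/
noncomputable def pr (χ : (N ≃ₐ[k] N) →* ℂ_[p]ˣ) : UM p N →ₗ[ℂ_[p]] UM p N :=
  ∑ g : N ≃ₐ[k] N, ((χ g⁻¹ : ℂ_[p]ˣ) : ℂ_[p]) • push (g : N →+* N)

lemma pr_apply (χ : (N ≃ₐ[k] N) →* ℂ_[p]ˣ) (x : UM p N) :
    pr χ x = ∑ g : N ≃ₐ[k] N, ((χ g⁻¹ : ℂ_[p]ˣ) : ℂ_[p]) • push (g : N →+* N) x := by
  unfold pr
  rw [LinearMap.sum_apply]
  rfl

lemma pr_tmul (χ : (N ≃ₐ[k] N) →* ℂ_[p]ˣ) (c : ℂ_[p]) (u : Additive (𝓞 N)ˣ) :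
    pr χ (c ⊗ₜ u) = c • xu χ u := by
  rw [pr_apply, xu, Finset.smul_sum]
  refine Finset.sum_congr rfl fun g _ => ?_
  rw [push_tmul, smul_comm c, TensorProduct.smul_tmul', TensorProduct.smul_tmul',
    TensorProduct.smul_tmul', smul_eq_mul, smul_eq_mul, smul_eq_mul, mul_one]

lemma pr_inChi (χ χ' : (N ≃ₐ[k] N) →* ℂ_[p]ˣ) {x : UM p N} (hx : InChi χ' x) :
    pr χ x = (∑ g : N ≃ₐ[k] N, (((χ' / χ) g : ℂ_[p]ˣ) : ℂ_[p])) • x := by
  rw [pr_apply, Finset.sum_smul]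
  refine Finset.sum_congr rfl fun g _ => ?_
  rw [← actLin_eq, hx g, smul_smul]
  congr 1
  rw [← Units.val_mul]
  congr 1
  rw [MonoidHom.div_apply, map_inv, div_eq_mul_inv, mul_comm]

lemma pr_self (χ : (N ≃ₐ[k] N) →* ℂ_[p]ˣ) {x : UM p N} (hx : InChi χ x) :
    pr χ x = (Fintype.card (N ≃ₐ[k] N) : ℂ_[p]) • x := by
  rw [pr_inChi χ χ hx]
  congr 1
  simp

lemma pr_ne {χ χ' : (N ≃ₐ[k] N) →* ℂ_[p]ˣ} (h : χ' ≠ χ) {x : UM p N} (hx : InChi χ' x) :
    pr χ x = 0 := by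
  rw [pr_inChi χ χ' hx]
  have h1 : ∑ g : N ≃ₐ[k] N, (((χ' / χ) g : ℂ_[p]ˣ) : ℂ_[p]) = 0 := by
    have h2 := sum_hom_units_eq_zero ((Units.coeHom ℂ_[p]).comp (χ' / χ)) (by
      intro h3
      apply h
      ext g
      have h4 := DFunLike.congr_fun h3 g
      simp only [MonoidHom.coe_comp, Function.comp_apply, MonoidHom.div_apply, MonoidHom.one_apply,
        Units.coeHom_apply, Units.val_eq_one] at h4
      rw [div_eq_one.1 h4])
    exact h2
  rw [h1, zero_smul]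

lemma card_ne : (Fintype.card (N ≃ₐ[k] N) : ℂ_[p]) ≠ 0 := by
  have := (Fintype.card_pos (α := N ≃ₐ[k] N)).ne'
  exact_mod_cast this

/-- eigenvectors for different characters are independent -/
lemma indep_chi {ι : Type} [Fintype ι] [DecidableEq ι] (χ : ι → ((N ≃ₐ[k] N) →* ℂ_[p]ˣ))
    (hχ : Function.Injective χ) (w : ι → UM p N) (hw : ∀ i, InChi (χ i) (w i))
    (h0 : ∀ i, w i ≠ 0) (c : ι → ℂ_[p]) (h : ∑ i, c i • w i = 0) (i : ι) : c i = 0 := by
  have h1 := congrArg (pr (χ i)) h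
  rw [map_zero, map_sum, Finset.sum_eq_single i (fun j _ hj => by
    rw [map_smul, pr_ne (fun h => hj (hχ h)) (hw j), smul_zero])
    (fun hh => absurd (Finset.mem_univ _) hh), map_smul, pr_self _ (hw i), smul_smul] at h1
  exact (mul_eq_zero.1 ((smul_eq_zero.1 h1).resolve_right (h0 i))).resolve_right card_ne

/-- a `χ`-part which is not zero contains a vector with algebraic coordinates -/
lemma exists_alg {χ : (N ≃ₐ[k] N) →* ℂ_[p]ˣ} {x : UM p N} (hx : InChi χ x) (hx0 : x ≠ 0) :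
    ∃ w ∈ AU p N, InChi χ w ∧ w ≠ 0 := by
  by_contra hcon
  push Not at hcon
  have h1 : ∀ y : UM p N, pr χ y = 0 := by
    intro y
    induction y using TensorProduct.induction_on with
    | zero => rw [map_zero]
    | tmul c u => rw [pr_tmul, hcon _ (xu_mem_AU χ u) (xu_inChi χ u), smul_zero]
    | add x y hx hy => rw [map_add, hx, hy, add_zero]
  have h2 := h1 x
  rw [pr_self χ hx] at h2
  exact hx0 ((smul_eq_zero.1 h2).resolve_left card_ne)

variable [IsGalois k N]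

lemma eq_zero_of_one (hpl : ∀ w w' : InfinitePlace k, w = w') (θ : ℂ_[p] ≃+* ℂ)
    {χ : (N ≃ₐ[k] N) →* ℂ_[p]ˣ} {y : UM p N} (hy : InChi χ y) (s : N →+* ℂ)
    (h : lam θ s y = 0) : y = 0 :=
  eq_zero_of_lam θ y fun s' => lam_zero_of_place θ hy s' s (hpl _ _) h

/-- the `χ`-part has dimension at most one -/
lemma exists_smul (hpl : ∀ w w' : InfinitePlace k, w = w') {χ : (N ≃ₐ[k] N) →* ℂ_[p]ˣ}
    {w y : UM p N} (hw : InChi χ w) (hw0 : w ≠ 0) (hy : InChi χ y) : ∃ c : ℂ_[p], y = c • w := by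
  obtain ⟨θ⟩ := exists_theta p
  obtain ⟨s⟩ : Nonempty (N →+* ℂ) := inferInstance
  have h1 : lam θ s w ≠ 0 := fun h => hw0 (eq_zero_of_one hpl θ hw s h)
  refine ⟨lam θ s y / lam θ s w, ?_⟩
  rw [← sub_eq_zero]
  refine eq_zero_of_one hpl θ (hy.sub (hw.smul _)) s ?_
  rw [map_sub, map_smul, smul_eq_mul, div_mul_cancel₀ _ h1, sub_self]

/-- one logarithm determines a vector in a `χ`-part -/
lemma eq_zero_of_log_chi (hpl : ∀ w w' : InfinitePlace k, w = w') {L : ℂ_[p] → ℂ_[p]}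
    (hL : IsIwasawaLog p L) (σ : N →+* ℂ_[p]) {χ : (N ≃ₐ[k] N) →* ℂ_[p]ˣ} {x : UM p N}
    (hx : InChi χ x) (h : logLin hL σ x = 0) : x = 0 := by
  by_contra hx0
  obtain ⟨w, hwA, hw, hw0⟩ := exists_alg hx hx0
  obtain ⟨c, rfl⟩ := exists_smul hpl hw hw0 hx
  rw [map_smul, smul_eq_mul] at h
  rcases mul_eq_zero.1 h with h1 | h1
  · exact hx0 (by rw [h1, zero_smul])
  · exact hw0 (eq_zero_of_log hL σ hwA h1)

/-- an algebraic ratio is `1` -/
lemma ratio_alg (hpl : ∀ w w' : InfinitePlace k, w = w') (θ : ℂ_[p] ≃+* ℂ) {L : ℂ_[p] → ℂ_[p]}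
    (hL : IsIwasawaLog p L) (σ : N →+* ℂ_[p]) {χ : (N ≃ₐ[k] N) →* ℂ_[p]ˣ} {w : UM p N}
    (hwA : w ∈ AU p N) (hw : InChi χ w) (hw0 : w ≠ 0) (r : ℂ_[p]) (hr : IsAlgebraic ℚ r)
    (h : logLin hL ((kap θ).comp σ) w = r * logLin hL σ w) : r = 1 := by
  obtain ⟨M, iM, iN, iG, inc, hinc⟩ := exists_big p N
  obtain ⟨τ0, hτ0⟩ := hinc σ
  obtain ⟨τ1, hτ1⟩ := hinc ((kap θ).comp σ)
  have h1 : push τ1 w - r • push τ0 w = 0 := by
    apply eq_zero_of_log hL inc (sub_mem (push_mem_AU τ1 hwA) (smul_mem_AU (push_mem_AU τ0 hwA) hr))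
    rw [map_sub, map_smul, logLin_push, logLin_push, hτ0, hτ1, h, smul_eq_mul, sub_self]
  have h2 := congrArg (lam θ ((θ : ℂ_[p] →+* ℂ).comp inc)) h1
  rw [map_zero, map_sub, map_smul, lam_push, lam_push, RingHom.comp_assoc, RingHom.comp_assoc,
    hτ0, hτ1, lam_kap, smul_eq_mul] at h2
  have h3 : lam θ ((θ : ℂ_[p] →+* ℂ).comp σ) w ≠ 0 := fun h => hw0 (eq_zero_of_one hpl θ hw _ h)
  apply mul_right_cancel₀ h3
  linear_combination -h2

/-- **The ratios of three characters.** If the ratios of the logarithms of three different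
characters are equal up to algebraic factors, then they are equal to `1`. -/
theorem core (hpl : ∀ w w' : InfinitePlace k, w = w') (θ : ℂ_[p] ≃+* ℂ) {L : ℂ_[p] → ℂ_[p]}
    (hL : IsIwasawaLog p L) (σ : N →+* ℂ_[p]) (χ : Fin 3 → ((N ≃ₐ[k] N) →* ℂ_[p]ˣ))
    (hχ : Function.Injective χ) (w : Fin 3 → UM p N) (hwA : ∀ j, w j ∈ AU p N)
    (hw : ∀ j, InChi (χ j) (w j)) (hw0 : ∀ j, w j ≠ 0) (r : ℂ_[p]) (e : Fin 3 → ℂ_[p])
    (he : ∀ j, IsAlgebraic ℚ (e j)) (he0 : ∀ j, e j ≠ 0)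
    (h : ∀ j, logLin hL ((kap θ).comp σ) (w j) = e j * r * logLin hL σ (w j)) (j : Fin 3) :
    e j * r = 1 := by
  have hr : IsAlgebraic ℚ r := by
    by_contra hr
    have hli : LinearIndependent (algebraicClosure ℚ ℂ_[p]) ![r, -1] := by
      rw [LinearIndependent.pair_iff]
      intro s t hst
      have hst' : (s : ℂ_[p]) * r + (t : ℂ_[p]) * (-1) = 0 := hst
      have hs : (s : ℂ_[p]) = 0 := by
        by_contra hs
        apply hr
        have h1 : r = t * (s : ℂ_[p])⁻¹ := by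
          field_simp
          linear_combination hst'
        rw [h1]
        exact (mem_algebraicClosure_iff.1 t.2).mul (mem_algebraicClosure_iff.1 s.2).inv
      rw [hs, zero_mul, zero_add, mul_neg_one, neg_eq_zero] at hst'
      exact ⟨Subtype.ext hs, Subtype.ext hst'⟩
    have h3 := hypC (p := p) 2 3 ![r, -1]
      (fun i j => logLin hL (![σ, (kap θ).comp σ] i) (![w j, (e j)⁻¹ • w j] i)) hli
      (fun i j => by
        fin_cases i
        · exact logLin_mem hL σ (hwA j)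
        · exact logLin_mem hL _ (smul_mem_AU (hwA j) (he j).inv))
      (fun j => by
        rw [Fin.sum_univ_two]
        change r * logLin hL σ (w j) + (-1) * logLin hL ((kap θ).comp σ) ((e j)⁻¹ • w j) = 0
        rw [map_smul, h j, smul_eq_mul]
        have := he0 j
        field_simp
        ring) (by
      rw [Fintype.linearIndependent_iff]
      intro g hg
      have h4 := congrFun hg 0
      rw [Finset.sum_apply] at h4
      have h5 : ∑ j, (g j : ℂ_[p]) • w j = 0 := by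
        apply eq_zero_of_log hL σ (Submodule.sum_mem _ fun j _ =>
          smul_mem_AU (hwA j) (mem_algebraicClosure_iff.1 (g j).2))
        rw [map_sum]
        refine Eq.trans (Finset.sum_congr rfl fun j _ => ?_) h4
        rw [map_smul]
        rfl
      intro j
      exact Subtype.ext (indep_chi χ hχ w hw hw0 _ h5 j))
    omega
  exact ratio_alg hpl θ hL σ (hwA j) (hw j) (hw0 j) _ ((he j).mul hr) (h j)

end chi

end Pool.Agent.U157.SLK
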