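import Mathlib

set_option autoImplicit false

/-!
# Six linear forms in three pairs on a space of dimension three
-/

namespace Pool.Agent.U157.SLK

/-- a choice from each of the three pairs -/
abbrev Q3 : Type := Bool × Bool × Bool

/-- the six forms -/
abbrev P6 : Type := Fin 3 × Bool

/-- the three forms of a choice -/
def graph3 (B : Q3) : Finset P6 := {(0, B.1), (1, B.2.1), (2, B.2.2)}

def even3 : Finset Q3 :=
  {(false,false,false),(false,true,true),(true,false,true),(true,true,false)}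

def odd3 : Finset Q3 := {(true,false,false),(false,true,false),(false,false,true),(true,true,true)}

/-- pairs of choices which differ at one place -/
def edges3 : Finset (Q3 × Q3) :=
  {((false,false,false),(true,false,false)), ((false,true,false),(true,true,false)),
   ((false,false,true),(true,false,true)), ((false,true,true),(true,true,true)),
   ((false,false,false),(false,true,false)), ((true,false,false),(true,true,false)),
   ((false,false,true),(false,true,true)), ((true,false,true),(true,true,true)),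
   ((false,false,false),(false,false,true)), ((true,false,false),(true,false,true)),
   ((false,true,false),(false,true,true)), ((true,true,false),(true,true,true))}

/-- the edges in a set -/
def inner (A : Finset Q3) : Finset (Q3 × Q3) := edges3.filter fun e => e.1 ∈ A ∧ e.2 ∈ A

/-- the forms of the two ends of an edge -/
def forms (e : Q3 × Q3) : Finset P6 := graph3 e.1 ∪ graph3 e.2

/-- all forms of edges in a set -/
def allForms (A : Finset Q3) : Finset P6 := (inner A).biUnion forms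

theorem comb5 : ∀ A : Finset Q3, 5 ≤ A.card → allForms A = Finset.univ := by
  decide +kernel

theorem comb4 : ∀ A : Finset Q3, 4 ≤ A.card → (even3 ⊆ A ∨ odd3 ⊆ A) ∨ 5 ≤ (allForms A).card := by
  decide +kernel

theorem comb_edge : ∀ e ∈ edges3, 2 ≤ (graph3 e.1 ∩ graph3 e.2).card := by
  decide +kernel

theorem comb_pair : ∀ e ∈ edges3, ∀ e' ∈ edges3, 2 ≤ (forms e ∩ forms e').card := by
  decide +kernel

section geom

variable {E W : Type*} [Field E] [AddCommGroup W] [Module E W] {V : W → Prop} {ℓ : P6 → W →ₗ[E] E}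

/-- A common zero for all forms which belong to edges in the set of bad choices. -/
theorem geom3
    (h2 : ∀ P Q, P ≠ Q → ∀ z z', V z → V z' → z ≠ 0 → ℓ P z = 0 → ℓ Q z = 0 → ℓ P z' = 0 →
      ℓ Q z' = 0 → ∃ a : E, z' = a • z)
    (A : Finset Q3) (hA : ∀ B ∈ A, ∃ z, V z ∧ z ≠ 0 ∧ ∀ P ∈ graph3 B, ℓ P z = 0)
    (hne : (inner A).Nonempty) : ∃ z, V z ∧ z ≠ 0 ∧ ∀ P ∈ allForms A, ℓ P z = 0 := by
  classical
  have h2' : ∀ (X Y : Finset P6), 2 ≤ (X ∩ Y).card → ∀ z z', V z → V z' → z ≠ 0 → z' ≠ 0 →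
      (∀ P ∈ X, ℓ P z = 0) → (∀ P ∈ Y, ℓ P z' = 0) → ∀ P ∈ Y, ℓ P z = 0 := by
    intro X Y hXY z z' hz hz' hz0 hz0' hX hY P hP
    obtain ⟨R, hR, Q, hQ, hRQ⟩ := Finset.one_lt_card.1 (by omega : 1 < (X ∩ Y).card)
    rw [Finset.mem_inter] at hR hQ
    obtain ⟨a, ha⟩ := h2 R Q hRQ z z' hz hz' hz0 (hX R hR.1) (hX Q hQ.1) (hY R hR.2) (hY Q hQ.2)
    have ha0 : a ≠ 0 := by
      rintro rfl
      exact hz0' (by rw [ha, zero_smul])
    have h3 := hY P hP
    rw [ha, map_smul, smul_eq_mul] at h3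
    exact (mul_eq_zero.1 h3).resolve_left ha0
  have hedge : ∀ e ∈ inner A, ∃ z, V z ∧ z ≠ 0 ∧ ∀ P ∈ forms e, ℓ P z = 0 := by
    intro e he
    rw [inner, Finset.mem_filter] at he
    obtain ⟨z, hz, hz0, hz1⟩ := hA e.1 he.2.1
    obtain ⟨z', hz', hz0', hz1'⟩ := hA e.2 he.2.2
    refine ⟨z, hz, hz0, fun P hP => ?_⟩
    rw [forms, Finset.mem_union] at hP
    rcases hP with hP | hP
    · exact hz1 P hP
    · exact h2' _ _ (comb_edge e he.1) z z' hz hz' hz0 hz0' hz1 hz1' P hP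
  obtain ⟨e0, he0⟩ := hne
  obtain ⟨z, hz, hz0, hz1⟩ := hedge e0 he0
  refine ⟨z, hz, hz0, fun P hP => ?_⟩
  rw [allForms, Finset.mem_biUnion] at hP
  obtain ⟨e, he, hPe⟩ := hP
  obtain ⟨z', hz', hz0', hz1'⟩ := hedge e he
  have h3 := comb_pair e0 (Finset.mem_filter.1 he0).1 e (Finset.mem_filter.1 he).1
  exact h2' _ _ h3 z z' hz hz' hz0 hz0' hz1 hz1' P hPe

lemma inner_nonempty {A : Finset Q3} (h : (allForms A).Nonempty) : (inner A).Nonempty := by
  obtain ⟨P, hP⟩ := h
  rw [allForms, Finset.mem_biUnion] at hP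
  obtain ⟨e, he, -⟩ := hP
  exact ⟨e, he⟩

/-- at most four choices are bad -/
theorem geom_four
    (h2 : ∀ P Q, P ≠ Q → ∀ z z', V z → V z' → z ≠ 0 → ℓ P z = 0 → ℓ Q z = 0 → ℓ P z' = 0 →
      ℓ Q z' = 0 → ∃ a : E, z' = a • z)
    (h1 : ∀ z, V z → (∀ P, ℓ P z = 0) → z = 0)
    (A : Finset Q3) (hA : ∀ B ∈ A, ∃ z, V z ∧ z ≠ 0 ∧ ∀ P ∈ graph3 B, ℓ P z = 0) :
    A.card ≤ 4 := by
  by_contra hcon
  have h5 := comb5 A (by omega)
  obtain ⟨z, hz, hz0, hz1⟩ := geom3 h2 A hA (inner_nonempty (by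
    rw [h5]
    exact ⟨(0, true), Finset.mem_univ _⟩))
  exact hz0 (h1 z hz fun P => hz1 P (by rw [h5]; exact Finset.mem_univ _))

/-- at most three choices are bad, or all even or all odd choices are bad -/
theorem geom_three
    (h2 : ∀ P Q, P ≠ Q → ∀ z z', V z → V z' → z ≠ 0 → ℓ P z = 0 → ℓ Q z = 0 → ℓ P z' = 0 →
      ℓ Q z' = 0 → ∃ a : E, z' = a • z)
    (h1 : ∀ z, V z → ∀ P0, (∀ P, P ≠ P0 → ℓ P z = 0) → z = 0)
    (A : Finset Q3) (hA : ∀ B ∈ A, ∃ z, V z ∧ z ≠ 0 ∧ ∀ P ∈ graph3 B, ℓ P z = 0) :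
    A.card ≤ 3 ∨ even3 ⊆ A ∨ odd3 ⊆ A := by
  by_contra hcon
  rw [not_or] at hcon
  rcases comb4 A (by omega) with h | h
  · exact hcon.2 h
  · obtain ⟨z, hz, hz0, hz1⟩ := geom3 h2 A hA (inner_nonempty (by
      rw [← Finset.card_pos]; omega))
    have h3 : ((allForms A)ᶜ).card ≤ 1 := by
      rw [Finset.card_compl]
      have : Fintype.card P6 = 6 := rfl
      omega
    have h4 : ∃ P0 : P6, ∀ P, P ≠ P0 → P ∈ allForms A := by
      rw [Finset.card_le_one] at h3
      by_cases h5 : ∃ P0, P0 ∉ allForms A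
      · obtain ⟨P0, hP0⟩ := h5
        refine ⟨P0, fun P hP => ?_⟩
        by_contra hPA
        exact hP (h3 P (Finset.mem_compl.2 hPA) P0 (Finset.mem_compl.2 hP0))
      · push Not at h5
        exact ⟨(0, true), fun P _ => h5 P⟩
    obtain ⟨P0, hP0⟩ := h4
    exact hz0 (h1 z hz P0 fun P hP => hz1 P (hP0 P hP))

end geom

end Pool.Agent.U157.SLK
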