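import Pool.Agent.U157.SLK.Pair
import Pool.Agent.U157.SLK.Geom

set_option autoImplicit false
set_option linter.unusedSectionVars false

/-!
# The eight CM types of a CM field of degree six
-/

namespace Pool.Agent.U157.SLK

open NumberField TensorProduct Pool.Agent.W289.SL Pool.Agent.W332.SL6
open Pool.Agent.W254.PA (exists_theta)

variable {p : ℕ} [Fact p.Prime]

/-- complex conjugation on a totally complex quadratic extension of a totally real field -/
theorem cm_conj {F K : Type} [Field F] [NumberField F] [IsTotallyReal F] [Field K]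
    [NumberField K] [IsTotallyComplex K] [Algebra F K] (hFK : Module.finrank F K = 2) :
    (∃ c : K ≃ₐ[F] K, c ≠ 1) ∧ ∀ c : K ≃ₐ[F] K, c ≠ 1 → ∀ b : K →+* ℂ,
      (starRingEnd ℂ).comp b = b.comp (c : K →+* K) := by
  have : Algebra.IsQuadraticExtension F K := ⟨hFK⟩
  have : FiniteDimensional F K := Module.finite_of_finrank_pos (by omega)
  have : IsGalois F K := inferInstance
  have hcard : Nat.card (K ≃ₐ[F] K) = 2 := by rw [IsGalois.card_aut_eq_finrank, hFK]
  obtain ⟨c, hc1, hcu⟩ := (Nat.card_eq_two_iff' (1 : K ≃ₐ[F] K)).1 hcard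
  have hcu' : ∀ τ : K ≃ₐ[F] K, τ ≠ 1 → τ = c := hcu
  refine ⟨⟨c, hc1⟩, fun c' hc' b => ?_⟩
  rw [hcu' c' hc']
  obtain ⟨τ, hτ⟩ := exists_aut (K := F) ((starRingEnd ℂ).comp b) b (by
    have h1 : ComplexEmbedding.IsReal (b.comp (algebraMap F K)) := by
      rw [← InfinitePlace.isReal_mk_iff]
      exact IsTotallyReal.isReal _
    exact h1)
  have hτ1 : τ ≠ 1 := by
    rintro rfl
    refine IsTotallyComplex.complexEmbedding_not_isReal b ?_
    rw [ComplexEmbedding.isReal_iff]
    exact hτ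
  rw [hτ, hcu' τ hτ1]

/-- three embeddings of `N` for the three places of `K` -/
theorem exists_places {K N : Type} [Field K] [NumberField K] [IsTotallyComplex K] [Field N]
    [NumberField N] [Algebra K N] (hK : Module.finrank ℚ K = 6) : ∃ s : Fin 3 → (N →+* ℂ),
      (Function.Injective fun i => InfinitePlace.mk ((s i).comp (algebraMap K N))) ∧
      ∀ w : InfinitePlace K, ∃ i, w = InfinitePlace.mk ((s i).comp (algebraMap K N)) := by
  classical
  have h1 := IsTotallyComplex.finrank K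
  rw [hK] at h1
  have h1' := InfinitePlace.card_eq_nrRealPlaces_add_nrComplexPlaces K
  rw [IsTotallyComplex.nrRealPlaces_eq_zero K] at h1'
  have h2 : Fintype.card (InfinitePlace K) = 3 := by omega
  let e := (Fintype.equivFinOfCardEq h2).symm
  have hex : ∀ b : K →+* ℂ, ∃ s : N →+* ℂ, s.comp (algebraMap K N) = b := by
    intro b
    let := b.toAlgebra
    have : Algebra.IsAlgebraic K N := Algebra.IsAlgebraic.tower_top (K := ℚ) K
    let φ : N →ₐ[K] ℂ := IsAlgClosed.lift
    exact ⟨φ, φ.comp_algebraMap⟩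
  choose s hs using fun i => hex (e i).embedding
  have h3 : ∀ i, InfinitePlace.mk ((s i).comp (algebraMap K N)) = e i := by
    intro i
    rw [hs, InfinitePlace.mk_embedding]
  refine ⟨s, fun i j hij => ?_, fun w => ⟨e.symm w, ?_⟩⟩
  · simp only [h3] at hij
    exact e.injective hij
  · rw [h3, e.apply_symm_apply]

/-- the six embeddings -/
noncomputable def sig (θ : ℂ_[p] ≃+* ℂ) {N : Type} [Field N] (s : Fin 3 → (N →+* ℂ)) (P : P6) :
    N →+* ℂ_[p] :=
  if P.2 then (kap θ).comp ((θ.symm : ℂ →+* ℂ_[p]).comp (s P.1))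
  else (θ.symm : ℂ →+* ℂ_[p]).comp (s P.1)

lemma theta_symm_comp (θ : ℂ_[p] ≃+* ℂ) {N : Type} [Field N] (s : N →+* ℂ) :
    (θ : ℂ_[p] →+* ℂ).comp ((θ.symm : ℂ →+* ℂ_[p]).comp s) = s :=
  RingHom.ext fun x => θ.apply_symm_apply (s x)

lemma theta_sig_false (θ : ℂ_[p] ≃+* ℂ) {N : Type} [Field N] (s : Fin 3 → (N →+* ℂ)) (i : Fin 3) :
    (θ : ℂ_[p] →+* ℂ).comp (sig θ s (i, false)) = s i := by
  rw [sig, if_neg (by simp), theta_symm_comp]

lemma sig_true (θ : ℂ_[p] ≃+* ℂ) {N : Type} [Field N] (s : Fin 3 → (N →+* ℂ)) (i : Fin 3) :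
    sig θ s (i, true) = (kap θ).comp (sig θ s (i, false)) := by
  rw [sig, sig, if_pos rfl, if_neg (by simp)]

lemma theta_sig_true (θ : ℂ_[p] ≃+* ℂ) {N : Type} [Field N] (s : Fin 3 → (N →+* ℂ)) (i : Fin 3) :
    (θ : ℂ_[p] →+* ℂ).comp (sig θ s (i, true)) = (starRingEnd ℂ).comp (s i) := by
  rw [sig_true, theta_kap, theta_sig_false]

lemma kap_kap {N : Type} [Field N] (θ : ℂ_[p] ≃+* ℂ) (σ : N →+* ℂ_[p]) :
    (kap θ).comp ((kap θ).comp σ) = σ := RingHom.ext fun x => kap_kap_apply θ (σ x)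

section types

variable {K N : Type} [Field K] [NumberField K] [IsTotallyComplex K] [Field N] [NumberField N]
  [Algebra K N] (θ : ℂ_[p] ≃+* ℂ) (s : Fin 3 → (N →+* ℂ))

/-- the six embeddings of `K` -/
noncomputable def pt (K : Type) [Field K] [Algebra K N] (P : P6) : K →+* ℂ_[p] :=
  (sig θ s P).comp (algebraMap K N)

lemma mk_pt (P : P6) : InfinitePlace.mk ((θ : ℂ_[p] →+* ℂ).comp (pt θ s K P)) =
    InfinitePlace.mk ((s P.1).comp (algebraMap K N)) := by
  obtain ⟨i, ε⟩ := P
  rw [pt, ← RingHom.comp_assoc]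
  cases ε
  · rw [theta_sig_false]
  · rw [theta_sig_true, RingHom.comp_assoc]
    exact InfinitePlace.mk_conjugate_eq _

variable {s}

lemma pt_injective (hs : Function.Injective fun i =>
    InfinitePlace.mk ((s i).comp (algebraMap K N))) : Function.Injective (pt θ s K) := by
  intro P Q h
  have h1 : P.1 = Q.1 := by
    apply hs
    change InfinitePlace.mk ((s P.1).comp (algebraMap K N)) =
      InfinitePlace.mk ((s Q.1).comp (algebraMap K N))
    rw [← mk_pt θ, ← mk_pt θ, h]
  obtain ⟨i, ε⟩ := P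
  obtain ⟨j, δ⟩ := Q
  change i = j at h1
  subst h1
  have key : pt θ s K (i, false) ≠ pt θ s K (i, true) := by
    intro h
    have h2 := congrArg (fun b : K →+* ℂ_[p] => (θ : ℂ_[p] →+* ℂ).comp b) h
    simp only [pt] at h2
    rw [← RingHom.comp_assoc, ← RingHom.comp_assoc, theta_sig_false, theta_sig_true,
      RingHom.comp_assoc] at h2
    refine IsTotallyComplex.complexEmbedding_not_isReal ((s i).comp (algebraMap K N)) ?_
    rw [ComplexEmbedding.isReal_iff]
    exact h2.symm
  cases ε <;> cases δ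
  · rfl
  · exact (key h).elim
  · exact (key h.symm).elim
  · rfl

lemma exists_pt (hpl : ∀ w : InfinitePlace K, ∃ i,
    w = InfinitePlace.mk ((s i).comp (algebraMap K N))) (τ : K →+* ℂ_[p]) :
    ∃ P, τ = pt θ s K P := by
  obtain ⟨i, hi⟩ := hpl (InfinitePlace.mk ((θ : ℂ_[p] →+* ℂ).comp τ))
  rcases InfinitePlace.mk_eq_iff.1 hi with h | h
  · refine ⟨(i, false), ?_⟩
    ext k
    apply θ.injective
    have h1 := RingHom.congr_fun h k
    have h2 := RingHom.congr_fun (theta_sig_false θ s i) (algebraMap K N k)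
    exact h1.trans h2.symm
  · refine ⟨(i, true), ?_⟩
    ext k
    apply θ.injective
    have h1 := RingHom.congr_fun h k
    have h2 := RingHom.congr_fun (theta_sig_true θ s i) (algebraMap K N k)
    have h3 : (starRingEnd ℂ) (θ (τ k)) = s i (algebraMap K N k) := h1
    have h4 : θ (τ k) = (starRingEnd ℂ) (s i (algebraMap K N k)) := by
      rw [← h3, Complex.conj_conj]
    exact h4.trans h2.symm

lemma pt_conj {c : K →+* K} (hc : ∀ b : K →+* ℂ, (starRingEnd ℂ).comp b = b.comp c) (i : Fin 3)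
    (ε : Bool) : (pt θ s K (i, ε)).comp c = pt θ s K (i, !ε) := by
  have key : ∀ τ : K →+* ℂ_[p], τ.comp c = (kap θ).comp τ := by
    intro τ
    ext k
    apply θ.injective
    have h1 := RingHom.congr_fun (hc ((θ : ℂ_[p] →+* ℂ).comp τ)) k
    change θ (τ (c k)) = θ (kap θ (τ k))
    rw [theta_kap_apply]
    exact h1.symm
  rw [key]
  cases ε
  · change (kap θ).comp ((sig θ s (i, false)).comp (algebraMap K N)) =
      (sig θ s (i, true)).comp (algebraMap K N)
    rw [sig_true, RingHom.comp_assoc]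
  · change (kap θ).comp ((sig θ s (i, true)).comp (algebraMap K N)) =
      (sig θ s (i, false)).comp (algebraMap K N)
    rw [sig_true, RingHom.comp_assoc, kap_kap]

variable (s) in
/-- the CM type of a choice -/
def typ (K : Type) [Field K] [Algebra K N] (B : Q3) : Set (K →+* ℂ_[p]) :=
  {τ | ∃ P ∈ graph3 B, τ = pt θ s K P}

lemma pt_mem_typ (hs : Function.Injective fun i =>
    InfinitePlace.mk ((s i).comp (algebraMap K N))) (B : Q3) (P : P6) :
    pt θ s K P ∈ typ θ s K B ↔ P ∈ graph3 B := by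
  constructor
  · rintro ⟨Q, hQ, h⟩
    rwa [pt_injective θ hs h]
  · intro h
    exact ⟨P, h, rfl⟩

lemma graph_compl : ∀ (B : Q3) (i : Fin 3) (ε : Bool),
    (i, ε) ∈ graph3 B ↔ (i, !ε) ∉ graph3 B := by
  decide

lemma graph_injective : Function.Injective graph3 := by
  intro B B' h
  revert h
  revert B B'
  decide

theorem typ_isCM {F : Type} [Field F] [Algebra F K]
    (hs : Function.Injective fun i => InfinitePlace.mk ((s i).comp (algebraMap K N)))
    (hpl : ∀ w : InfinitePlace K, ∃ i, w = InfinitePlace.mk ((s i).comp (algebraMap K N)))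
    (hc : ∀ c : K ≃ₐ[F] K, c ≠ 1 → ∀ b : K →+* ℂ, (starRingEnd ℂ).comp b = b.comp (c : K →+* K))
    (B : Q3) : IsCMType p F K (typ θ s K B) := by
  intro c hc1 τ
  obtain ⟨⟨i, ε⟩, rfl⟩ := exists_pt θ hpl τ
  rw [pt_conj θ (hc c hc1), pt_mem_typ θ hs, pt_mem_typ θ hs]
  exact graph_compl B i ε

lemma typ_injective (hs : Function.Injective fun i =>
    InfinitePlace.mk ((s i).comp (algebraMap K N))) : Function.Injective (typ θ s K) := by
  intro B B' h
  apply graph_injective
  ext P
  rw [← pt_mem_typ θ hs, ← pt_mem_typ θ hs, h]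

/-- counting types -/
theorem card_le_ncard {F H : Type} [Field F] [Algebra F K] [Field H] [NumberField H]
    [Algebra K H] (χ : (H ≃ₐ[K] H) →* ℂ_[p]ˣ)
    (hs : Function.Injective fun i => InfinitePlace.mk ((s i).comp (algebraMap K N)))
    (hpl : ∀ w : InfinitePlace K, ∃ i, w = InfinitePlace.mk ((s i).comp (algebraMap K N)))
    (hc : ∀ c : K ≃ₐ[F] K, c ≠ 1 → ∀ b : K →+* ℂ, (starRingEnd ℂ).comp b = b.comp (c : K →+* K))
    (G : Finset Q3) (hG : ∀ B ∈ G, SigmaLeopoldt p K H (typ θ s K B) χ) :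
    G.card ≤ {S : Set (K →+* ℂ_[p]) | IsCMType p F K S ∧ SigmaLeopoldt p K H S χ}.ncard := by
  classical
  have h1 : (G.image (typ θ s K)).card = G.card :=
    Finset.card_image_of_injective _ (typ_injective θ hs)
  rw [← h1, ← Set.ncard_coe_finset]
  apply Set.ncard_le_ncard
  · intro S hS
    rw [Finset.mem_coe, Finset.mem_image] at hS
    obtain ⟨B, hB, rfl⟩ := hS
    exact ⟨typ_isCM θ hs hpl hc B, hG B hB⟩
  · exact Set.toFinite _

end types

end Pool.Agent.U157.SLK
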