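import Mathlib

set_option autoImplicit false

/-!
# Minimal cycles
-/

namespace Pool.Agent.U157.SLK

/-- a minimal cycle of a relation: no other edges between its points -/
theorem exists_cycle {ι : Type*} [DecidableEq ι] (Q : ι → ι → Prop) (X : Finset ι)
    (hX : X.Nonempty) (h : ∀ i ∈ X, ∃ j ∈ X, Q i j) :
    ∃ C ⊆ X, C.Nonempty ∧ ∃ s : ι → ι, (∀ i ∈ C, s i ∈ C ∧ Q i (s i)) ∧
      (∀ i ∈ C, ∀ j ∈ C, Q i j → j = s i) ∧ ∀ j ∈ C, ∃ i ∈ C, s i = j := by
  classical
  obtain ⟨C, hC, hmin⟩ := Finset.exists_min_image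
    (X.powerset.filter fun C => C.Nonempty ∧ ∀ i ∈ C, ∃ j ∈ C, Q i j) Finset.card
    ⟨X, by
      rw [Finset.mem_filter, Finset.mem_powerset]
      exact ⟨Finset.Subset.refl X, hX, h⟩⟩
  rw [Finset.mem_filter, Finset.mem_powerset] at hC
  obtain ⟨hCX, hCne, hCQ⟩ := hC
  have key : ∀ s : ι → ι, (∀ i ∈ C, s i ∈ C ∧ Q i (s i)) → C.image s = C := by
    intro s hs
    have h1 : C.image s ⊆ C := by
      intro j hj
      rw [Finset.mem_image] at hj
      obtain ⟨i, hi, rfl⟩ := hj
      exact (hs i hi).1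
    refine Finset.eq_of_subset_of_card_le h1 (hmin _ ?_)
    rw [Finset.mem_filter, Finset.mem_powerset]
    refine ⟨h1.trans hCX, hCne.image s, fun j hj => ?_⟩
    exact ⟨s j, Finset.mem_image_of_mem s (h1 hj), (hs j (h1 hj)).2⟩
  obtain ⟨i0, hi0⟩ := hCne
  have hne : Nonempty ι := ⟨i0⟩
  choose! s hs using hCQ
  have hs' : ∀ i ∈ C, s i ∈ C ∧ Q i (s i) := hs
  have himg := key s hs'
  have hinj : Set.InjOn s C := Finset.card_image_iff.1 (by rw [himg])
  refine ⟨C, hCX, ⟨i0, hi0⟩, s, hs', fun i hi j hj hQ => ?_, fun j hj => ?_⟩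
  · by_contra hne
    have h2 := key (Function.update s i j) (fun l hl => by
      by_cases hli : l = i
      · subst hli
        rw [Function.update_self]
        exact ⟨hj, hQ⟩
      · rw [Function.update_of_ne hli]
        exact hs' l hl)
    have h3 : s i ∈ C.image (Function.update s i j) := by
      rw [h2]
      exact (hs' i hi).1
    rw [Finset.mem_image] at h3
    obtain ⟨l, hl, hls⟩ := h3
    by_cases hli : l = i
    · subst hli
      rw [Function.update_self] at hls
      exact hne hls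
    · rw [Function.update_of_ne hli] at hls
      exact hli (hinj hl hi hls)
  · rw [← himg, Finset.mem_image] at hj
    exact hj

end Pool.Agent.U157.SLK
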