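import Pool.Agent.U157.SLK.Cyc

set_option autoImplicit false
set_option linter.unusedSectionVars false

/-!
# Exchange of transversals of smallest defect
-/

namespace Pool.Agent.U157.SLK

open Module

section abs

variable {k V ι : Type*} [Field k] [AddCommGroup V] [Module k V] [FiniteDimensional k V]

/-- the common kernel -/
def kerOf (φ : ι → V →ₗ[k] k) (S : Set ι) : Submodule k V where
  carrier := {x | ∀ j ∈ S, φ j x = 0}
  add_mem' := fun {x y} hx hy j hj => by rw [map_add, hx j hj, hy j hj, add_zero]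
  zero_mem' := fun j _ => map_zero _
  smul_mem' := fun c x hx j hj => by rw [map_smul, hx j hj, smul_zero]

lemma mem_kerOf {φ : ι → V →ₗ[k] k} {S : Set ι} {x : V} :
    x ∈ kerOf φ S ↔ ∀ j ∈ S, φ j x = 0 := Iff.rfl

lemma kerOf_anti (φ : ι → V →ₗ[k] k) {S S' : Set ι} (h : S ⊆ S') : kerOf φ S' ≤ kerOf φ S :=
  fun _ hx j hj => hx j (h hj)

lemma kerOf_span {φ : ι → V →ₗ[k] k} {S B : Set ι}
    (h : φ '' S ⊆ Submodule.span k (φ '' B)) : kerOf φ B ≤ kerOf φ S := by
  intro x hx j hj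
  have h1 : φ j ∈ Submodule.span k (φ '' B) := h ⟨j, hj, rfl⟩
  refine Submodule.span_induction (p := fun f _ => f x = 0) ?_ ?_ ?_ ?_ h1
  · rintro _ ⟨i, hi, rfl⟩
    exact hx i hi
  · rfl
  · intro f g _ _ hf hg
    rw [LinearMap.add_apply, hf, hg, add_zero]
  · intro c f _ hf
    rw [LinearMap.smul_apply, hf, smul_zero]

/-- a form which vanishes on the common kernel is in the span -/
lemma mem_span_of_ker {φ : ι → V →ₗ[k] k} {B : Set ι} (hB : B.Finite) {f : V →ₗ[k] k}
    (h : ∀ x ∈ kerOf φ B, f x = 0) : f ∈ Submodule.span k (φ '' B) := by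
  have : Finite B := hB
  have h1 : f ∈ Submodule.span k (Set.range fun j : B => φ j) := by
    apply mem_span_of_iInf_ker_le_ker
    intro x hx
    rw [Submodule.mem_iInf] at hx
    rw [LinearMap.mem_ker]
    exact h x fun j hj => LinearMap.mem_ker.1 (hx ⟨j, hj⟩)
  rwa [Set.range_comp', Subtype.range_coe] at h1

lemma finrank_inf_ker (W : Submodule k V) (f : V →ₗ[k] k) :
    finrank k W ≤ finrank k (W ⊓ LinearMap.ker f : Submodule k V) + 1 := by
  have h1 := LinearMap.finrank_range_add_finrank_ker (f.domRestrict W)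
  have h2 : finrank k (LinearMap.range (f.domRestrict W)) ≤ 1 := by
    have h3 := Submodule.finrank_le (LinearMap.range (f.domRestrict W))
    rwa [Module.finrank_self] at h3
  have h3 : finrank k (LinearMap.ker (f.domRestrict W)) ≤
      finrank k (W ⊓ LinearMap.ker f : Submodule k V) := by
    have h4 : (LinearMap.ker (f.domRestrict W)).map W.subtype ≤ W ⊓ LinearMap.ker f := by
      rintro _ ⟨x, hx, rfl⟩
      exact ⟨x.2, hx⟩
    rw [← Submodule.finrank_map_subtype_eq W (LinearMap.ker (f.domRestrict W))]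
    exact Submodule.finrank_mono h4
  omega

variable [DecidableEq ι]

/-- exchange the elements of `C` -/
def flip (bar : ι → ι) (S C : Finset ι) : Set ι := {i | (i ∈ S ∧ i ∉ C) ∨ bar i ∈ C}

/-- **Exchange.** -/
theorem exch_abs (bar : ι → ι) (hbb : ∀ i, bar (bar i) = i) (φ : ι → V →ₗ[k] k) (S : Finset ι)
    (hS : ∀ i, i ∈ S ↔ bar i ∉ S) (T : Finset ι) (hTS : T ⊆ S) (hT : T.card < S.card)
    (hrel : ∀ i ∈ S, i ∉ T → ∀ a : ι → k, φ (bar i) ≠ ∑ j ∈ T, a j • φ j) :
    ∃ S' : Set ι, (∀ i, i ∈ S' ↔ bar i ∉ S') ∧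
      finrank k (kerOf φ S') ≤ finrank k (kerOf φ (S : Set ι)) ∧ S' ≠ (S : Set ι) ∧
      ∀ i ∈ T, i ∈ S' := by
  classical
  -- properties of `flip`
  have f1 : ∀ C ⊆ S, ∀ i ∈ S, (i ∈ flip bar S C ↔ i ∉ C) := by
    intro C hC i hi
    constructor
    · rintro (h | h)
      · exact h.2
      · exact absurd (hC h) ((hS i).1 hi)
    · intro h
      exact Or.inl ⟨hi, h⟩
  have f2 : ∀ C ⊆ S, ∀ i, i ∉ S → (i ∈ flip bar S C ↔ bar i ∈ C) := by
    intro C _ i hi
    constructor
    · rintro (h | h)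
      · exact absurd h.1 hi
      · exact h
    · intro h
      exact Or.inr h
  have f3 : ∀ C ⊆ S, ∀ i, i ∈ flip bar S C ↔ bar i ∉ flip bar S C := by
    intro C hC i
    by_cases hi : i ∈ S
    · rw [f1 C hC i hi, f2 C hC _ ((hS i).1 hi), hbb]
    · have h2 : bar i ∈ S := by
        by_contra h2
        exact hi ((hS i).2 h2)
      rw [f2 C hC i hi, f1 C hC _ h2, not_not]
  have f4 : ∀ C ⊆ S, C.Nonempty → flip bar S C ≠ (S : Set ι) := by
    rintro C hC ⟨i, hi⟩ h
    have h1 : i ∈ flip bar S C := by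
      rw [h]
      exact hC hi
    exact (f1 C hC i (hC hi)).1 h1 hi
  -- a basis
  obtain ⟨B0, hB0S, -, hB0span, hB0li⟩ := exists_linearIndepOn_extension
    (K := k) (v := φ) (s := ∅) (t := (S : Set ι)) (linearIndepOn_empty k φ) (Set.empty_subset _)
  obtain ⟨B, rfl⟩ : ∃ B : Finset ι, (B : Set ι) = B0 :=
    ⟨(S.finite_toSet.subset hB0S).toFinset, (S.finite_toSet.subset hB0S).coe_toFinset⟩
  have hBS : B ⊆ S := Finset.coe_subset.1 hB0S
  have hkB : kerOf φ (B : Set ι) ≤ kerOf φ (S : Set ι) := kerOf_span hB0span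
  by_cases case1 : ∃ u ∈ S, u ∉ B ∧ u ∉ T
  · obtain ⟨u, huS, huB, huT⟩ := case1
    have hC : ({u} : Finset ι) ⊆ S := Finset.singleton_subset_iff.2 huS
    refine ⟨flip bar S {u}, f3 _ hC, Submodule.finrank_mono (le_trans (kerOf_anti φ ?_) hkB),
      f4 _ hC (Finset.singleton_nonempty u), fun i hi => ?_⟩
    · intro i hi
      refine (f1 _ hC i (hBS hi)).2 ?_
      rw [Finset.mem_singleton]
      rintro rfl
      exact huB hi
    · refine (f1 _ hC i (hTS hi)).2 ?_
      rw [Finset.mem_singleton]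
      rintro rfl
      exact huT hi
  push Not at case1
  have hXB : ∀ i ∈ S, i ∉ T → i ∈ B := by
    intro i hi hiT
    by_contra hiB
    exact hiT (case1 i hi hiB)
  by_cases case2 : ∃ i ∈ S, i ∉ T ∧ φ (bar i) ∉ Submodule.span k (φ '' (B : Set ι))
  · obtain ⟨i, hiS, hiT, hi⟩ := case2
    have hC : ({i} : Finset ι) ⊆ S := Finset.singleton_subset_iff.2 hiS
    have hiB := hXB i hiS hiT
    refine ⟨flip bar S {i}, f3 _ hC, ?_, f4 _ hC (Finset.singleton_nonempty i), fun j hj => ?_⟩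
    · have e1 : kerOf φ (flip bar S {i}) ≤
          kerOf φ ((B.erase i : Finset ι) : Set ι) ⊓ LinearMap.ker (φ (bar i)) := by
        refine le_inf (kerOf_anti φ ?_) ?_
        · intro j hj
          rw [Finset.mem_coe, Finset.mem_erase] at hj
          refine (f1 _ hC j (hBS hj.2)).2 ?_
          rw [Finset.mem_singleton]
          exact hj.1
        · intro x hx
          rw [LinearMap.mem_ker]
          apply hx
          exact Or.inr (by rw [hbb]; exact Finset.mem_singleton_self i)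
      have e2 : finrank k (kerOf φ ((B.erase i : Finset ι) : Set ι) ⊓
          LinearMap.ker (φ (bar i)) : Submodule k V) <
          finrank k (kerOf φ ((B.erase i : Finset ι) : Set ι)) := by
        apply Submodule.finrank_lt_finrank_of_lt
        refine lt_of_le_of_ne inf_le_left fun h => hi ?_
        have h1 := mem_span_of_ker (φ := φ) (B := ((B.erase i : Finset ι) : Set ι))
          (Finset.finite_toSet _) (f := φ (bar i)) (fun x hx => by
            rw [← h] at hx
            exact LinearMap.mem_ker.1 hx.2)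
        exact Submodule.span_mono (Set.image_mono (Finset.coe_subset.2 (Finset.erase_subset i B))) h1
      have e3 : kerOf φ ((B.erase i : Finset ι) : Set ι) ⊓ LinearMap.ker (φ i) ≤
          kerOf φ (S : Set ι) := by
        refine le_trans ?_ hkB
        rintro x ⟨hx1, hx2⟩ j hj
        by_cases hji : j = i
        · subst hji
          exact LinearMap.mem_ker.1 hx2
        · exact hx1 j (Finset.mem_coe.2 (Finset.mem_erase.2 ⟨hji, hj⟩))
      have e4 := finrank_inf_ker (kerOf φ ((B.erase i : Finset ι) : Set ι)) (φ i)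
      have e5 := Submodule.finrank_mono e1
      have e6 := Submodule.finrank_mono e3
      omega
    · refine (f1 _ hC j (hTS hj)).2 ?_
      rw [Finset.mem_singleton]
      rintro rfl
      exact hiT hj
  push Not at case2
  have hR : ∀ i, ∃ R : ι → k, i ∈ S → i ∉ T → φ (bar i) = ∑ j ∈ B, R j • φ j := by
    intro i
    by_cases h : i ∈ S ∧ i ∉ T
    · have h1 := case2 i h.1 h.2
      rw [Submodule.mem_span_image_finset_iff_exists_fun] at h1
      obtain ⟨R, hR⟩ := h1
      refine ⟨fun j => if h : j ∈ B then R ⟨j, h⟩ else 0, fun _ _ => ?_⟩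
      rw [← hR, ← Finset.sum_coe_sort B]
      refine Finset.sum_congr rfl fun j _ => ?_
      change R j • φ j = (if h : (j : ι) ∈ B then R ⟨j, h⟩ else 0) • φ j
      rw [dif_pos j.2]
    · exact ⟨0, fun h1 h2 => absurd ⟨h1, h2⟩ h⟩
  choose R hR using hR
  have hXne : (S \ T).Nonempty := by
    rw [← Finset.card_pos]
    have := Finset.le_card_sdiff T S
    omega
  obtain ⟨C, hCX, hCne, s, hs1, hs2, hs3⟩ := exists_cycle (fun i j => R i j ≠ 0) (S \ T) hXne (by
    intro i hi
    rw [Finset.mem_sdiff] at hi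
    by_contra hcon
    push Not at hcon
    refine hrel i hi.1 hi.2 (fun j => if j ∈ B then R i j else 0) ?_
    rw [hR i hi.1 hi.2]
    have h1 : ∑ j ∈ B, R i j • φ j = ∑ j ∈ S, (if j ∈ B then R i j else 0) • φ j := by
      rw [← Finset.sum_subset hBS]
      · exact Finset.sum_congr rfl fun j hj => by rw [if_pos hj]
      · intro j _ hj
        rw [if_neg hj, zero_smul]
    rw [h1]
    symm
    apply Finset.sum_subset hTS
    intro j hj hjT
    have h2 := hcon j (Finset.mem_sdiff.2 ⟨hj, hjT⟩)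
    rw [h2, ite_self, zero_smul])
  have hCS : C ⊆ S := hCX.trans Finset.sdiff_subset
  have hCT : ∀ i ∈ C, i ∉ T := fun i hi => (Finset.mem_sdiff.1 (hCX hi)).2
  refine ⟨flip bar S C, f3 _ hCS, Submodule.finrank_mono (le_trans ?_ hkB), f4 _ hCS hCne,
    fun i hi => (f1 _ hCS i (hTS hi)).2 fun h => hCT i h hi⟩
  intro x hx j hj
  have h1 : ∀ m ∈ B, m ∉ C → φ m x = 0 := fun m hm hmC => hx m ((f1 _ hCS m (hBS hm)).2 hmC)
  by_cases hjC : j ∈ C
  · obtain ⟨i, hi, rfl⟩ := hs3 j hjC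
    have h2 : φ (bar i) x = 0 := hx _ (Or.inr (by rw [hbb]; exact hi))
    rw [hR i (hCS hi) (hCT i hi), LinearMap.sum_apply, Finset.sum_eq_single (s i)] at h2
    · rw [LinearMap.smul_apply, smul_eq_mul] at h2
      exact (mul_eq_zero.1 h2).resolve_left (hs1 i hi).2
    · intro m hm hms
      rw [LinearMap.smul_apply, smul_eq_mul]
      by_cases hmC : m ∈ C
      · have h3 : R i m = 0 := by
          by_contra h4
          exact hms (hs2 i hi m hmC h4)
        rw [h3, zero_mul]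
      · rw [h1 m hm hmC, mul_zero]
    · intro h
      exact absurd hj h
  · exact h1 j hj hjC

omit [DecidableEq ι] in
/-- counting by exchange -/
theorem count_abs {X : Type*} [Finite X] : ∀ (t : ℕ) (Z : Set (Set X)), Z.Nonempty →
    (∀ S ∈ Z, ∀ T : Finset X, T.card ≤ t → ∃ S' ∈ Z, S' ≠ S ∧ ∀ x ∈ T, (x ∈ S' ↔ x ∈ S)) →
    2 ^ (t + 1) ≤ Z.ncard := by
  classical
  intro t
  induction t with
  | zero =>
    rintro Z ⟨S, hS⟩ h
    obtain ⟨S', hS', hne, -⟩ := h S hS ∅ le_rfl
    have h1 : 1 < Z.ncard := (Set.one_lt_ncard (Set.toFinite Z)).2 ⟨S, hS, S', hS', hne.symm⟩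
    exact h1
  | succ t ih =>
    rintro Z ⟨S, hS⟩ h
    obtain ⟨S', hS', hne, -⟩ := h S hS ∅ (Nat.zero_le _)
    obtain ⟨x, hx⟩ : ∃ x, ¬ (x ∈ S' ↔ x ∈ S) := by
      by_contra hcon
      apply hne
      ext x
      by_contra h2
      exact hcon ⟨x, h2⟩
    have key : ∀ P : Prop, (∃ S0 ∈ Z, (x ∈ S0 ↔ P)) →
        2 ^ (t + 1) ≤ {S0 | S0 ∈ Z ∧ (x ∈ S0 ↔ P)}.ncard := by
      rintro P ⟨S0, h0, h1⟩
      refine ih {S0 | S0 ∈ Z ∧ (x ∈ S0 ↔ P)} ⟨S0, h0, h1⟩ ?_
      rintro S1 ⟨h2, h3⟩ T hT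
      obtain ⟨S2, h4, h5, h6⟩ := h S1 h2 (insert x T)
        ((Finset.card_insert_le x T).trans (Nat.add_le_add_right hT 1))
      exact ⟨S2, ⟨h4, (h6 x (Finset.mem_insert_self x T)).trans h3⟩, h5,
        fun y hy => h6 y (Finset.mem_insert_of_mem hy)⟩
    have k1 := key (x ∈ S) ⟨S, hS, Iff.rfl⟩
    have k2 := key (¬ x ∈ S) ⟨S', hS', by tauto⟩
    have hun : Z = {S0 | S0 ∈ Z ∧ (x ∈ S0 ↔ x ∈ S)} ∪ {S0 | S0 ∈ Z ∧ (x ∈ S0 ↔ ¬ x ∈ S)} := by
      ext S0
      constructor
      · intro h0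
        by_cases h1 : x ∈ S0 ↔ x ∈ S
        · exact Or.inl ⟨h0, h1⟩
        · exact Or.inr ⟨h0, by tauto⟩
      · rintro (h0 | h0)
        · exact h0.1
        · exact h0.1
    have hdis : Disjoint {S0 | S0 ∈ Z ∧ (x ∈ S0 ↔ x ∈ S)} {S0 | S0 ∈ Z ∧ (x ∈ S0 ↔ ¬ x ∈ S)} := by
      rw [Set.disjoint_left]
      rintro S0 ⟨-, h1⟩ ⟨-, h2⟩
      tauto
    rw [hun, Set.ncard_union_eq hdis (Set.toFinite _) (Set.toFinite _), pow_succ]
    omega

end abs

end Pool.Agent.U157.SLK
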