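import Pool.Agent.U157.SLK.Small
import Pool.Agent.U157.SLK.Abel

set_option autoImplicit false
set_option linter.unusedSectionVars false

/-!
# Exchange of CM types: the main statements
-/

namespace Pool.Agent.U157.SLK

open NumberField TensorProduct Pool.Agent.W289.SL Pool.Agent.W332.SL6
open Pool.Agent.W254.PA (exists_theta)

variable {p : ℕ} [Fact p.Prime]

/-- complex conjugation on a totally complex quadratic extension of a totally real field -/
theorem cm_conj' {F K : Type} [Field F] [NumberField F] [IsTotallyReal F] [Field K]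
    [NumberField K] [IsTotallyComplex K] [Algebra F K] (hFK : Module.finrank F K = 2) :
    (∃ c : K ≃ₐ[F] K, c ≠ 1) ∧ ∀ c : K ≃ₐ[F] K, c ≠ 1 → ∀ b : K →+* ℂ,
      (starRingEnd ℂ).comp b = b.comp (c : K →+* K) := by
  have : Algebra.IsQuadraticExtension F K := ⟨hFK⟩
  have : FiniteDimensional F K := Module.finite_of_finrank_pos (by omega)
  have : IsGalois F K := inferInstance
  have hcard : Nat.card (K ≃ₐ[F] K) = 2 := by rw [IsGalois.card_aut_eq_finrank, hFK]
  obtain ⟨c, hc1, hcu⟩ := (Nat.card_eq_two_iff' (1 : K ≃ₐ[F] K)).1 hcard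
  have hcu' : ∀ τ : K ≃ₐ[F] K, τ ≠ 1 → τ = c := hcu
  refine ⟨⟨c, hc1⟩, fun c' hc' b => ?_⟩
  rw [hcu' c' hc']
  obtain ⟨τ, hτ⟩ := exists_aut (K := F) ((starRingEnd ℂ).comp b) b (by
    have h1 : ComplexEmbedding.IsReal (b.comp (algebraMap F K)) := by
      rw [← InfinitePlace.isReal_mk_iff]
      exact IsTotallyReal.isReal _
    exact h1)
  have hτ1 : τ ≠ 1 := by
    rintro rfl
    refine IsTotallyComplex.complexEmbedding_not_isReal b ?_
    rw [ComplexEmbedding.isReal_iff]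
    exact hτ
  rw [hτ, hcu' τ hτ1]

/-- embeddings of `N` for the places of `K` -/
theorem places_gen {K N : Type} [Field K] [NumberField K] [IsTotallyComplex K] [Field N]
    [NumberField N] [Algebra K N] {d : ℕ} (hK : Module.finrank ℚ K = 2 * d) :
    ∃ s : Fin d → (N →+* ℂ),
      (Function.Injective fun i => InfinitePlace.mk ((s i).comp (algebraMap K N))) ∧
      ∀ w : InfinitePlace K, ∃ i, w = InfinitePlace.mk ((s i).comp (algebraMap K N)) := by
  classical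
  have h1 := IsTotallyComplex.finrank K
  rw [hK] at h1
  have h1' := InfinitePlace.card_eq_nrRealPlaces_add_nrComplexPlaces K
  rw [IsTotallyComplex.nrRealPlaces_eq_zero K] at h1'
  have h2 : Fintype.card (InfinitePlace K) = d := by omega
  let e := (Fintype.equivFinOfCardEq h2).symm
  have hex : ∀ b : K →+* ℂ, ∃ s : N →+* ℂ, s.comp (algebraMap K N) = b := by
    intro b
    let := b.toAlgebra
    have : Algebra.IsAlgebraic K N := Algebra.IsAlgebraic.tower_top (K := ℚ) K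
    let φ : N →ₐ[K] ℂ := IsAlgClosed.lift
    exact ⟨φ, φ.comp_algebraMap⟩
  choose s hs using fun i => hex (e i).embedding
  have h3 : ∀ i, InfinitePlace.mk ((s i).comp (algebraMap K N)) = e i := by
    intro i
    rw [hs, InfinitePlace.mk_embedding]
  refine ⟨s, fun i j hij => ?_, fun w => ⟨e.symm w, ?_⟩⟩
  · simp only [h3] at hij
    exact e.injective hij
  · rw [h3, e.apply_symm_apply]

section main

variable {F K N : Type} [Field F] [NumberField F] [IsTotallyReal F] [Field K] [NumberField K]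
  [IsTotallyComplex K] [Algebra F K] [Field N] [NumberField N] [Algebra K N]
  [FiniteDimensional K N] [IsGalois K N]

omit [IsTotallyComplex K] [IsGalois K N] in
lemma good_iff (χ : (N ≃ₐ[K] N) →* ℂ_[p]ˣ) (S : Set (K →+* ℂ_[p])) :
    SigmaLeopoldt p K N S χ ↔ Module.finrank ℂ_[p] (kerS χ S) = 0 := by
  rw [Submodule.finrank_eq_zero]
  constructor
  · intro h
    obtain ⟨L, hL⟩ := exists_iwasawaLog p
    rw [eq_bot_iff]
    rintro x ⟨h1, h2⟩
    exact h L hL x h1 (h2 L hL)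
  · intro h L hL x h1 h2
    have h3 : x ∈ kerS χ S := by
      refine ⟨h1, fun L' hL' σ hσ => ?_⟩
      rw [← logLin_unique hL hL']
      exact h2 σ hσ
    rw [h] at h3
    exact h3

theorem exch (hFK : Module.finrank F K = 2) {χ : (N ≃ₐ[K] N) →* ℂ_[p]ˣ} {m : ℕ}
    (hmd : m ≤ Module.finrank ℚ F) (hg : NoRel χ m)
    (S : Set (K →+* ℂ_[p])) (hS : IsCMType p F K S) (T : Finset (K →+* ℂ_[p])) (hT : T.card < m) :
    ∃ S' : Set (K →+* ℂ_[p]), IsCMType p F K S' ∧ S' ≠ S ∧ (∀ τ ∈ T, (τ ∈ S' ↔ τ ∈ S)) ∧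
      Module.finrank ℂ_[p] (kerS χ S') ≤ Module.finrank ℂ_[p] (kerS χ S) := by
  obtain ⟨hc, hc'⟩ := cm_conj' hFK
  have hK : Module.finrank ℚ K = 2 * Module.finrank ℚ F := by
    rw [← Module.finrank_mul_finrank ℚ F K, hFK, mul_comm]
  obtain ⟨s, hs, hpl⟩ := places_gen (N := N) hK
  obtain ⟨S', h1, h2, h3, h4⟩ := exchange_gen hc hc' s hs hmd hg S hS T hT
  exact ⟨S', h1, h3, h4, h2⟩

theorem exch_count (hFK : Module.finrank F K = 2) {χ : (N ≃ₐ[K] N) →* ℂ_[p]ˣ} {m : ℕ}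
    (hm : 1 ≤ m) (hmd : m ≤ Module.finrank ℚ F) (hg : NoRel χ m) (r : ℕ)
    (hne : ∃ S, IsCMType p F K S ∧ Module.finrank ℂ_[p] (kerS χ S) ≤ r) :
    2 ^ m ≤ {S | IsCMType p F K S ∧ Module.finrank ℂ_[p] (kerS χ S) ≤ r}.ncard := by
  obtain ⟨t, rfl⟩ : ∃ t, m = t + 1 := ⟨m - 1, by omega⟩
  apply count_abs t _ hne
  rintro S ⟨hS, hr⟩ T hT
  obtain ⟨S', h1, h2, h3, h4⟩ := exch hFK hmd hg S hS T (by omega)
  exact ⟨S', ⟨h1, h4.trans hr⟩, h2, h3⟩

/-- the bound for all characters -/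
theorem norel_bound (hFK : Module.finrank F K = 2) {χ : (N ≃ₐ[K] N) →* ℂ_[p]ˣ} (hχ : χ ≠ 1) {m : ℕ}
    (hmd : ∀ n, n ≤ m → n * (n - 1) * (m + 1 - n) < Module.finrank ℚ F) : NoRel χ m := by
  obtain ⟨⟨c, hc⟩, hc'⟩ := cm_conj' hFK
  have hK : Module.finrank ℚ K = 2 * Module.finrank ℚ F := by
    rw [← Module.finrank_mul_finrank ℚ F K, hFK, mul_comm]
  obtain ⟨s, hs, hpl⟩ := places_gen (N := N) hK
  exact noRel_of_bound hχ (c : K →+* K) (hc' c hc) s hs hpl hmd

/-- Mackey's criterion: the representation induced from `χ` is irreducible -/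
def Mackey (p : ℕ) [Fact p.Prime] (K N : Type) [Field K] [Field N] [Algebra K N]
    (χ : (N ≃ₐ[K] N) →* ℂ_[p]ˣ) : Prop :=
  ∀ f f' : N →+* AlgebraicClosure ℚ, f.comp (algebraMap K N) ≠ f'.comp (algebraMap K N) →
    ∃ (γ : AlgebraicClosure ℚ ≃+* AlgebraicClosure ℚ) (h h' : N ≃ₐ[K] N),
      (∀ y, γ (f y) = f (h y)) ∧ (∀ y, γ (f' y) = f' (h' y)) ∧ χ h ≠ χ h'

theorem sepd_of_mackey {χ : (N ≃ₐ[K] N) →* ℂ_[p]ˣ} (hM : Mackey p K N χ) {M : Type} [Field M]
    [NumberField M] [IsGalois ℚ M] : Sepd χ M := by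
  intro f f' hff
  let ι : M →+* AlgebraicClosure ℚ := ((IsAlgClosed.lift : M →ₐ[ℚ] AlgebraicClosure ℚ) : M →+* _)
  obtain ⟨γ, h, h', h1, h2, h3⟩ := hM (ι.comp f) (ι.comp f') (fun h => hff (by
    refine RingHom.ext fun x => ι.injective ?_
    exact RingHom.congr_fun h x))
  obtain ⟨δ, hδ⟩ := exists_aut (K := ℚ) ((γ : AlgebraicClosure ℚ →+* AlgebraicClosure ℚ).comp ι) ι
    (RingHom.ext_rat _ _)
  have hδ' : ∀ y, γ (ι y) = ι (δ y) := fun y => RingHom.congr_fun hδ y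
  refine ⟨δ, h, h', fun y => ι.injective ?_, fun y => ι.injective ?_, h3⟩
  · rw [← hδ']
    exact h1 y
  · rw [← hδ']
    exact h2 y

/-- the bound under Mackey's criterion -/
theorem norel_mackey (hFK : Module.finrank F K = 2) {χ : (N ≃ₐ[K] N) →* ℂ_[p]ˣ} (hχ : χ ≠ 1)
    (hM : Mackey p K N χ) {m : ℕ} (hmd : m * (m - 1) < Module.finrank ℚ F) : NoRel χ m := by
  obtain ⟨θ⟩ := exists_theta p
  have hK : Module.finrank ℚ K = 2 * Module.finrank ℚ F := by
    rw [← Module.finrank_mul_finrank ℚ F K, hFK, mul_comm]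
  obtain ⟨s, hs, hpl⟩ := places_gen (N := N) hK
  obtain ⟨M, iM, iN, iG, inc, hinc⟩ := exists_big p N
  obtain ⟨w, hwA, hw, hwi⟩ := exists_alg_indep θ hχ s hs
  exact noRel_of_sepd inc hinc (sepd_of_mackey hM) w hwA hw hwi hmd

/-- a type of small defect with given choices -/
theorem exch_small (hFK : Module.finrank F K = 2) {χ : (N ≃ₐ[K] N) →* ℂ_[p]ˣ} (hχ : χ ≠ 1)
    (hM : Mackey p K N χ) (S : Set (K →+* ℂ_[p])) (hS : IsCMType p F K S)
    (T : Finset (K →+* ℂ_[p])) :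
    ∃ S' : Set (K →+* ℂ_[p]), IsCMType p F K S' ∧ (∀ τ ∈ T, (τ ∈ S' ↔ τ ∈ S)) ∧
      (3 * Module.finrank ℚ F - T.card) * Module.finrank ℂ_[p] (kerS χ S') ≤
        (Module.finrank ℚ F) ^ 2 := by
  obtain ⟨hc, hc'⟩ := cm_conj' hFK
  obtain ⟨θ⟩ := exists_theta p
  have hK : Module.finrank ℚ K = 2 * Module.finrank ℚ F := by
    rw [← Module.finrank_mul_finrank ℚ F K, hFK, mul_comm]
  obtain ⟨s, hs, hpl⟩ := places_gen (N := N) hK
  obtain ⟨M, iM, iN, iG, inc, hinc⟩ := exists_big p N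
  obtain ⟨w, hwA, hw, hwi⟩ := exists_alg_indep θ hχ s hs
  exact exists_small hc hc' Module.finrank_pos s hs hpl inc hinc (sepd_of_mackey hM) w hwA hw hwi
    S hS T

/-- there is a CM type -/
theorem exists_type (hFK : Module.finrank F K = 2) : ∃ S : Set (K →+* ℂ_[p]), IsCMType p F K S := by
  classical
  obtain ⟨θ⟩ := exists_theta p
  obtain ⟨-, hc'⟩ := cm_conj' hFK
  let S : Set (K →+* ℂ_[p]) := {τ | (θ : ℂ_[p] →+* ℂ).comp τ =
    (InfinitePlace.mk ((θ : ℂ_[p] →+* ℂ).comp τ)).embedding}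
  refine ⟨S, fun c hc1 τ => ?_⟩
  have hbar : τ.comp (c : K →+* K) = (kap θ).comp τ := by
    ext x
    apply θ.injective
    have h1 := RingHom.congr_fun (hc' c hc1 ((θ : ℂ_[p] →+* ℂ).comp τ)) x
    change θ (τ (c x)) = θ (kap θ (τ x))
    rw [theta_kap_apply]
    exact h1.symm
  rw [hbar]
  have h1 : (θ : ℂ_[p] →+* ℂ).comp ((kap θ).comp τ) =
      (starRingEnd ℂ).comp ((θ : ℂ_[p] →+* ℂ).comp τ) := theta_kap θ τ
  have hreal : (starRingEnd ℂ).comp ((θ : ℂ_[p] →+* ℂ).comp τ) ≠ (θ : ℂ_[p] →+* ℂ).comp τ := by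
    intro h
    exact IsTotallyComplex.complexEmbedding_not_isReal ((θ : ℂ_[p] →+* ℂ).comp τ)
      ((ComplexEmbedding.isReal_iff).2 h)
  change (θ : ℂ_[p] →+* ℂ).comp τ = (InfinitePlace.mk ((θ : ℂ_[p] →+* ℂ).comp τ)).embedding ↔
    ¬ ((θ : ℂ_[p] →+* ℂ).comp ((kap θ).comp τ) =
      (InfinitePlace.mk ((θ : ℂ_[p] →+* ℂ).comp ((kap θ).comp τ))).embedding)
  rw [place_kap, h1]
  constructor
  · intro h2 h3
    exact hreal (h3.trans h2.symm)
  · intro h2
    have h3 : InfinitePlace.mk ((θ : ℂ_[p] →+* ℂ).comp τ) =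
        InfinitePlace.mk (InfinitePlace.mk ((θ : ℂ_[p] →+* ℂ).comp τ)).embedding := by
      rw [InfinitePlace.mk_embedding]
    rcases InfinitePlace.mk_eq_iff.1 h3 with h4 | h4
    · exact h4
    · exact absurd h4 h2

/-- there is a CM type which agrees with `S` on `T` but is different at another place -/
theorem exists_other (hFK : Module.finrank F K = 2) (S : Set (K →+* ℂ_[p]))
    (hS : IsCMType p F K S) (T : Finset (K →+* ℂ_[p])) (hT : T.card < Module.finrank ℚ F) :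
    ∃ (x : K →+* ℂ_[p]) (S' : Set (K →+* ℂ_[p])), IsCMType p F K S' ∧ x ∈ S ∧ x ∉ S' ∧
      ∀ τ ∈ T, (τ ∈ S' ↔ τ ∈ S) := by
  classical
  obtain ⟨θ⟩ := exists_theta p
  obtain ⟨⟨c, hc1⟩, hc'⟩ := cm_conj' hFK
  have hK : Module.finrank ℚ K = 2 * Module.finrank ℚ F := by
    rw [← Module.finrank_mul_finrank ℚ F K, hFK, mul_comm]
  obtain ⟨s, hs, -⟩ := places_gen (N := K) hK
  have hbar : ∀ (c' : K ≃ₐ[F] K), c' ≠ 1 → ∀ τ : K →+* ℂ_[p],
      τ.comp (c' : K →+* K) = (kap θ).comp τ := by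
    intro c' hc1' τ
    ext x
    apply θ.injective
    have h1 := RingHom.congr_fun (hc' c' hc1' ((θ : ℂ_[p] →+* ℂ).comp τ)) x
    change θ (τ (c' x)) = θ (kap θ (τ x))
    rw [theta_kap_apply]
    exact h1.symm
  have hSk : ∀ τ : K →+* ℂ_[p], τ ∈ S ↔ (kap θ).comp τ ∉ S := by
    intro τ
    rw [← hbar c hc1]
    exact hS c hc1 τ
  -- a place without an element of `T`
  let P : Finset (InfinitePlace K) := T.image fun τ => InfinitePlace.mk ((θ : ℂ_[p] →+* ℂ).comp τ)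
  have hP : P.card < Module.finrank ℚ F := lt_of_le_of_lt Finset.card_image_le hT
  obtain ⟨i, hi⟩ : ∃ i, InfinitePlace.mk ((s i).comp (algebraMap K K)) ∉ P := by
    by_contra hcon
    push Not at hcon
    have h1 := Finset.card_le_card_of_injOn (s := (Finset.univ : Finset (Fin (Module.finrank ℚ F))))
      (t := P) (fun i => InfinitePlace.mk ((s i).comp (algebraMap K K))) (fun i _ => hcon i)
      (fun i _ j _ h => hs h)
    rw [Finset.card_univ, Fintype.card_fin] at h1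
    omega
  let t : K →+* ℂ_[p] := (θ.symm : ℂ →+* ℂ_[p]).comp ((s i).comp (algebraMap K K))
  have ht : (θ : ℂ_[p] →+* ℂ).comp t = (s i).comp (algebraMap K K) :=
    RingHom.ext fun x => θ.apply_symm_apply _
  have hx : ∃ x : K →+* ℂ_[p], x ∈ S ∧ InfinitePlace.mk ((θ : ℂ_[p] →+* ℂ).comp x) ∉ P := by
    by_cases h : t ∈ S
    · exact ⟨t, h, by rw [ht]; exact hi⟩
    · refine ⟨(kap θ).comp t, ?_, by rw [place_kap, ht]; exact hi⟩
      by_contra h2
      exact h ((hSk _).2 h2)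
  obtain ⟨x, hxS, hxP⟩ := hx
  have hxT : ∀ τ ∈ T, τ ≠ x ∧ τ ≠ (kap θ).comp x := by
    intro τ hτ
    have h1 := Finset.mem_image_of_mem (fun τ => InfinitePlace.mk ((θ : ℂ_[p] →+* ℂ).comp τ)) hτ
    constructor
    · rintro rfl
      exact hxP h1
    · rintro rfl
      apply hxP
      rw [← place_kap]
      exact h1
  let S' : Set (K →+* ℂ_[p]) := {τ | (τ ∈ S ∧ τ ≠ x) ∨ τ = (kap θ).comp x}
  have hxx : (kap θ).comp x ≠ x := ne_kap θ x
  have hxb : (kap θ).comp x ∉ S := (hSk x).1 hxS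
  refine ⟨x, S', ?_, hxS, ?_, ?_⟩
  · intro c' hc1' τ
    rw [hbar c' hc1']
    change ((τ ∈ S ∧ τ ≠ x) ∨ τ = (kap θ).comp x) ↔
      ¬ (((kap θ).comp τ ∈ S ∧ (kap θ).comp τ ≠ x) ∨ (kap θ).comp τ = (kap θ).comp x)
    have h1 : (kap θ).comp τ = x ↔ τ = (kap θ).comp x := by
      constructor
      · intro h; rw [← h, kap_comp_kap]
      · intro h; rw [h, kap_comp_kap]
    have h2 : (kap θ).comp τ = (kap θ).comp x ↔ τ = x := by
      constructor
      · intro h
        have h3 := congrArg (fun b => (kap θ).comp b) h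
        simp only [kap_comp_kap] at h3
        exact h3
      · rintro rfl; rfl
    have h3 := hSk τ
    rw [Ne, Ne, h1, h2]
    by_cases h4 : τ = x
    · subst h4
      have h5 : ¬ τ = (kap θ).comp τ := fun h => hxx h.symm
      tauto
    · by_cases h5 : τ = (kap θ).comp x
      · tauto
      · tauto
  · rintro (h | h)
    · exact h.2 rfl
    · exact hxx h.symm
  · intro τ hτ
    obtain ⟨h1, h2⟩ := hxT τ hτ
    change ((τ ∈ S ∧ τ ≠ x) ∨ τ = (kap θ).comp x) ↔ τ ∈ S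
    tauto

/-- counting types of small defect -/
theorem small_count (hFK : Module.finrank F K = 2) {χ : (N ≃ₐ[K] N) →* ℂ_[p]ˣ} (hχ : χ ≠ 1)
    (hM : Mackey p K N χ) (t : ℕ) (ht : t ≤ Module.finrank ℚ F) :
    2 ^ t ≤ {S | IsCMType p F K S ∧ (3 * Module.finrank ℚ F - t) *
      Module.finrank ℂ_[p] (kerS χ S) ≤ (Module.finrank ℚ F) ^ 2}.ncard := by
  classical
  obtain ⟨S0, hS0⟩ := exists_type (p := p) hFK
  obtain ⟨S1, h1, -, h2⟩ := exch_small hFK hχ hM S0 hS0 ∅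
  have hne : {S | IsCMType p F K S ∧ (3 * Module.finrank ℚ F - t) *
      Module.finrank ℂ_[p] (kerS χ S) ≤ (Module.finrank ℚ F) ^ 2}.Nonempty := by
    refine ⟨S1, h1, le_trans (Nat.mul_le_mul_right _ ?_) h2⟩
    rw [Finset.card_empty]
    omega
  rcases Nat.eq_zero_or_pos t with rfl | ht0
  · rw [pow_zero, Nat.one_le_iff_ne_zero, Ne, Set.ncard_eq_zero (Set.toFinite _)]
    exact hne.ne_empty
  obtain ⟨t', rfl⟩ : ∃ t', t = t' + 1 := ⟨t - 1, by omega⟩
  apply count_abs t' _ hne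
  rintro S ⟨hS, -⟩ T hT
  obtain ⟨x, S2, h3, h4, h5, h6⟩ := exists_other hFK S hS T (by omega)
  obtain ⟨S3, h7, h8, h9⟩ := exch_small hFK hχ hM S2 h3 (insert x T)
  refine ⟨S3, ⟨h7, le_trans (Nat.mul_le_mul_right _ ?_) h9⟩, ?_, ?_⟩
  · have := Finset.card_insert_le x T
    omega
  · rintro rfl
    exact h5 ((h8 x (Finset.mem_insert_self x T)).1 h4)
  · intro τ hτ
    exact (h8 τ (Finset.mem_insert_of_mem hτ)).trans (h6 τ hτ)

theorem exch_abel (hFK : Module.finrank F K = 2) (χ : (N ≃ₐ[K] N) →* ℂ_[p]ˣ) {k : Type}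
    [Field k] [NumberField k] [IsTotallyComplex k] [Algebra k K] [Algebra k N]
    [IsScalarTower k K N] [IsGalois k N] (hk : Module.finrank ℚ k = 2)
    (hab : ∀ a b : N ≃ₐ[k] N, a * b = b * a) :
    ∃ S, IsCMType p F K S ∧ Module.finrank ℂ_[p] (kerS χ S) ≤ 0 := by
  classical
  obtain ⟨θ⟩ := exists_theta p
  obtain ⟨-, hc'⟩ := cm_conj' hFK
  have : FiniteDimensional k N := Module.Finite.of_restrictScalars_finite ℚ k N
  have hpl : ∀ w w' : InfinitePlace k, w = w' := by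
    have h1 := IsTotallyComplex.finrank k
    rw [hk] at h1
    have h1' := InfinitePlace.card_eq_nrRealPlaces_add_nrComplexPlaces k
    rw [IsTotallyComplex.nrRealPlaces_eq_zero k] at h1'
    have h2 : Fintype.card (InfinitePlace k) = 1 := by omega
    exact fun w w' => (Fintype.card_le_one_iff.1 h2.le) w w'
  obtain ⟨σ0⟩ : Nonempty (N →+* ℂ_[p]) := inferInstance
  refine ⟨{τ : K →+* ℂ_[p] | τ.comp (algebraMap k K) = σ0.comp (algebraMap k N)}, ?_, ?_⟩
  · intro c hc1 τ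
    have hbar : τ.comp (c : K →+* K) = (kap θ).comp τ := by
      ext x
      apply θ.injective
      have h1 := RingHom.congr_fun (hc' c hc1 ((θ : ℂ_[p] →+* ℂ).comp τ)) x
      change θ (τ (c x)) = θ (kap θ (τ x))
      rw [theta_kap_apply]
      exact h1.symm
    rw [hbar]
    change τ.comp (algebraMap k K) = σ0.comp (algebraMap k N) ↔
      ¬ (((kap θ).comp τ).comp (algebraMap k K) = σ0.comp (algebraMap k N))
    rw [RingHom.comp_assoc]
    constructor
    · intro h1 h2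
      rw [h1] at h2
      exact ne_kap θ (σ0.comp (algebraMap k N)) h2
    · intro h1
      rcases same_place θ (τ := τ.comp (algebraMap k K)) (τ' := σ0.comp (algebraMap k N))
        (hpl _ _) with h2 | h2
      · exact h2
      · exact absurd h2 h1
  · rw [induced_good hpl hab χ σ0, finrank_bot]

end main

end Pool.Agent.U157.SLK
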