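import Pool.Agent.U157.SLK.Girth
import Pool.Agent.U157.SLK.ExchAbs
import Pool.Agent.W289.SL.LogEx

set_option autoImplicit false
set_option linter.unusedSectionVars false

/-!
# Exchange of CM types
-/

namespace Pool.Agent.U157.SLK

open NumberField TensorProduct Pool.Agent.W289.SL Pool.Agent.W332.SL6
open Pool.Agent.W254.PA (exists_theta)

variable {p : ℕ} [Fact p.Prime]

lemma kap_comp_kap {N : Type} [Field N] (θ : ℂ_[p] ≃+* ℂ) (σ : N →+* ℂ_[p]) :
    (kap θ).comp ((kap θ).comp σ) = σ := RingHom.ext fun x => kap_kap_apply θ (σ x)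

/-- same place: equal or conjugate -/
lemma same_place {K : Type} [Field K] (θ : ℂ_[p] ≃+* ℂ) {τ τ' : K →+* ℂ_[p]}
    (h : InfinitePlace.mk ((θ : ℂ_[p] →+* ℂ).comp τ) =
      InfinitePlace.mk ((θ : ℂ_[p] →+* ℂ).comp τ')) : τ = τ' ∨ (kap θ).comp τ = τ' := by
  rcases InfinitePlace.mk_eq_iff.1 h with h | h
  · left
    exact RingHom.ext fun x => θ.injective (RingHom.congr_fun h x)
  · right
    refine RingHom.ext fun x => θ.injective ?_
    change θ (kap θ (τ x)) = _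
    rw [theta_kap_apply]
    exact RingHom.congr_fun h x

lemma place_kap {K : Type} [Field K] (θ : ℂ_[p] ≃+* ℂ) (τ : K →+* ℂ_[p]) :
    InfinitePlace.mk ((θ : ℂ_[p] →+* ℂ).comp ((kap θ).comp τ)) =
      InfinitePlace.mk ((θ : ℂ_[p] →+* ℂ).comp τ) := by
  rw [theta_kap]
  exact InfinitePlace.mk_conjugate_eq _

section exch

variable {K N : Type} [Field K] [NumberField K] [Field N] [NumberField N] [Algebra K N]
  [FiniteDimensional K N]

/-- the `χ`-part as a subspace -/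
def chiV (χ : (N ≃ₐ[K] N) →* ℂ_[p]ˣ) : Submodule ℂ_[p] (UM p N) where
  carrier := {x | InChi χ x}
  add_mem' := fun hx hy => InChi.add hx hy
  zero_mem' := fun τ => by rw [map_zero, smul_zero]
  smul_mem' := fun c _ hx => InChi.smul hx c

/-- the kernel of the regulator map -/
def kerS (χ : (N ≃ₐ[K] N) →* ℂ_[p]ˣ) (S : Set (K →+* ℂ_[p])) : Submodule ℂ_[p] (UM p N) where
  carrier := {x | InChi χ x ∧ ∀ (L : ℂ_[p] → ℂ_[p]) (hL : IsIwasawaLog p L) (σ : N →+* ℂ_[p]),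
    σ.comp (algebraMap K N) ∈ S → logLin hL σ x = 0}
  add_mem' := fun hx hy => ⟨InChi.add hx.1 hy.1, fun L hL σ hσ => by
    rw [map_add, hx.2 L hL σ hσ, hy.2 L hL σ hσ, add_zero]⟩
  zero_mem' := ⟨fun τ => by rw [map_zero, smul_zero], fun L hL σ _ => map_zero _⟩
  smul_mem' := fun c _ hx => ⟨InChi.smul hx.1 c, fun L hL σ hσ => by
    rw [map_smul, hx.2 L hL σ hσ, smul_zero]⟩

/-- the forms -/
noncomputable def frm {L : ℂ_[p] → ℂ_[p]} (hL : IsIwasawaLog p L) (χ : (N ≃ₐ[K] N) →* ℂ_[p]ˣ)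
    (l : (K →+* ℂ_[p]) → (N →+* ℂ_[p])) (τ : K →+* ℂ_[p]) : chiV χ →ₗ[ℂ_[p]] ℂ_[p] :=
  (logLin hL (l τ)).domRestrict (chiV χ)

lemma kerS_eq [IsGalois K N] {L : ℂ_[p] → ℂ_[p]} (hL : IsIwasawaLog p L)
    (χ : (N ≃ₐ[K] N) →* ℂ_[p]ˣ) (l : (K →+* ℂ_[p]) → (N →+* ℂ_[p]))
    (hl : ∀ τ, (l τ).comp (algebraMap K N) = τ) (S : Set (K →+* ℂ_[p])) :
    kerS χ S = (kerOf (frm hL χ l) S).map (chiV χ).subtype := by
  ext x
  constructor
  · rintro ⟨h1, h2⟩
    exact ⟨⟨x, h1⟩, fun τ hτ => h2 L hL (l τ) (by rw [hl]; exact hτ), rfl⟩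
  · rintro ⟨⟨x, h1⟩, h2, rfl⟩
    refine ⟨h1, fun L' hL' σ hσ => ?_⟩
    obtain ⟨g, hg⟩ := exists_aut σ (l (σ.comp (algebraMap K N))) (hl _).symm
    have h3 : logLin hL (l (σ.comp (algebraMap K N))) x = 0 := h2 _ hσ
    have h4 : logLin hL σ x = 0 := by
      rw [hg, logLin_inChi hL h1, h3, mul_zero]
    rw [← logLin_unique hL hL']
    exact h4

lemma finrank_kerS [IsGalois K N] {L : ℂ_[p] → ℂ_[p]} (hL : IsIwasawaLog p L)
    (χ : (N ≃ₐ[K] N) →* ℂ_[p]ˣ) (l : (K →+* ℂ_[p]) → (N →+* ℂ_[p]))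
    (hl : ∀ τ, (l τ).comp (algebraMap K N) = τ) (S : Set (K →+* ℂ_[p])) :
    Module.finrank ℂ_[p] (kerS χ S) = Module.finrank ℂ_[p] (kerOf (frm hL χ l) S) := by
  rw [kerS_eq hL χ l hl]
  exact Submodule.finrank_map_subtype_eq _ _

variable [IsGalois K N] [IsTotallyComplex K]

/-- there is no relation between `m` or fewer logarithms at different places -/
def NoRel (χ : (N ≃ₐ[K] N) →* ℂ_[p]ˣ) (m : ℕ) : Prop :=
  ∀ (θ : ℂ_[p] ≃+* ℂ) (L : ℂ_[p] → ℂ_[p]) (hL : IsIwasawaLog p L) (m' : ℕ), m' ≤ m →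
    ∀ σ : Fin m' → (N →+* ℂ_[p]),
    (∀ i j, InfinitePlace.mk ((θ : ℂ_[p] →+* ℂ).comp ((σ i).comp (algebraMap K N))) =
        InfinitePlace.mk ((θ : ℂ_[p] →+* ℂ).comp ((σ j).comp (algebraMap K N))) → i = j) →
    ∀ (x : Fin m' → ℂ_[p]) (i0 : Fin m'), x i0 ≠ 0 →
    (∀ y : UM p N, InChi χ y → ∑ i, x i * logLin hL (σ i) y = 0) → False

/-- **Exchange.** -/
theorem exchange_gen {F : Type} [Field F] [Algebra F K] {χ : (N ≃ₐ[K] N) →* ℂ_[p]ˣ}
    (hc : ∃ c : K ≃ₐ[F] K, c ≠ 1)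
    (hc' : ∀ c : K ≃ₐ[F] K, c ≠ 1 → ∀ b : K →+* ℂ, (starRingEnd ℂ).comp b = b.comp (c : K →+* K))
    {d : ℕ} (s : Fin d → (N →+* ℂ))
    (hs : Function.Injective fun i => InfinitePlace.mk ((s i).comp (algebraMap K N)))
    {m : ℕ} (hmd : m ≤ d) (hg : NoRel χ m)
    (S : Set (K →+* ℂ_[p])) (hS : IsCMType p F K S) (T : Finset (K →+* ℂ_[p])) (hT : T.card < m) :
    ∃ S' : Set (K →+* ℂ_[p]), IsCMType p F K S' ∧
      Module.finrank ℂ_[p] (kerS χ S') ≤ Module.finrank ℂ_[p] (kerS χ S) ∧ S' ≠ S ∧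
      ∀ τ ∈ T, (τ ∈ S' ↔ τ ∈ S) := by
  classical
  obtain ⟨θ⟩ := exists_theta p
  obtain ⟨L, hL⟩ := exists_iwasawaLog p
  obtain ⟨c, hc1⟩ := hc
  -- complex conjugation on the embeddings
  have hbar : ∀ (c' : K ≃ₐ[F] K), c' ≠ 1 → ∀ τ : K →+* ℂ_[p],
      τ.comp (c' : K →+* K) = (kap θ).comp τ := by
    intro c' hc1' τ
    ext x
    apply θ.injective
    have h1 := RingHom.congr_fun (hc' c' hc1' ((θ : ℂ_[p] →+* ℂ).comp τ)) x
    change θ (τ (c' x)) = θ (kap θ (τ x))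
    rw [theta_kap_apply]
    exact h1.symm
  have hSk : ∀ τ : K →+* ℂ_[p], τ ∈ S ↔ (kap θ).comp τ ∉ S := by
    intro τ
    rw [← hbar c hc1]
    exact hS c hc1 τ
  have : Algebra.IsAlgebraic K N := Algebra.IsAlgebraic.tower_top (K := ℚ) K
  choose l hl using fun τ : K →+* ℂ_[p] => exists_ext (H := N) τ
  let SF : Finset (K →+* ℂ_[p]) := Finset.univ.filter fun τ => τ ∈ S
  have hSF : ∀ τ, τ ∈ SF ↔ τ ∈ S := fun τ => by simp [SF]
  have hSFc : (SF : Set (K →+* ℂ_[p])) = S := by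
    ext τ
    rw [Finset.mem_coe, hSF]
  -- two elements of `S` at the same place are equal
  have huniq : ∀ τ ∈ S, ∀ τ' ∈ S, InfinitePlace.mk ((θ : ℂ_[p] →+* ℂ).comp τ) =
      InfinitePlace.mk ((θ : ℂ_[p] →+* ℂ).comp τ') → τ = τ' := by
    intro τ hτ τ' hτ' h
    rcases same_place θ h with h | h
    · exact h
    · exact absurd (h ▸ hτ') ((hSk τ).1 hτ)
  -- the representatives
  let rp : (K →+* ℂ_[p]) → (K →+* ℂ_[p]) := fun τ => if τ ∈ S then τ else (kap θ).comp τ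
  have hrpS : ∀ τ, rp τ ∈ S := by
    intro τ
    by_cases h : τ ∈ S
    · simp only [rp, if_pos h]; exact h
    · simp only [rp, if_neg h]
      by_contra h2
      exact h ((hSk τ).2 h2)
  have hrppl : ∀ τ, InfinitePlace.mk ((θ : ℂ_[p] →+* ℂ).comp (rp τ)) =
      InfinitePlace.mk ((θ : ℂ_[p] →+* ℂ).comp τ) := by
    intro τ
    by_cases h : τ ∈ S
    · simp only [rp, if_pos h]
    · simp only [rp, if_neg h]
      exact place_kap θ τ
  have hdS : d ≤ SF.card := by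
    have h1 : (Finset.univ : Finset (Fin d)).card ≤ SF.card := by
      apply Finset.card_le_card_of_injOn
        (fun i => rp ((θ.symm : ℂ →+* ℂ_[p]).comp ((s i).comp (algebraMap K N))))
      · intro i _
        exact (hSF _).2 (hrpS _)
      · intro i _ j _ h
        apply hs
        have h2 := congrArg (fun τ : K →+* ℂ_[p] =>
          InfinitePlace.mk ((θ : ℂ_[p] →+* ℂ).comp τ)) h
        simp only [hrppl] at h2
        have h3 : ∀ b : K →+* ℂ, (θ : ℂ_[p] →+* ℂ).comp ((θ.symm : ℂ →+* ℂ_[p]).comp b) = b :=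
          fun b => RingHom.ext fun x => θ.apply_symm_apply (b x)
        rw [h3, h3] at h2
        exact h2
    rwa [Finset.card_univ, Fintype.card_fin] at h1
  let TS : Finset (K →+* ℂ_[p]) := T.image rp
  have hTSc : TS.card ≤ T.card := Finset.card_image_le
  have hTSS : TS ⊆ SF := by
    intro τ hτ
    rw [Finset.mem_image] at hτ
    obtain ⟨τ', -, rfl⟩ := hτ
    exact (hSF _).2 (hrpS _)
  have hmS : m ≤ SF.card := hmd.trans hdS
  obtain ⟨S', h1, h2, h3, h4⟩ := exch_abs (k := ℂ_[p]) (V := chiV χ) (fun τ => (kap θ).comp τ)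
    (fun τ => kap_comp_kap θ τ) (frm hL χ l) SF (fun τ => by rw [hSF, hSF]; exact hSk τ) TS hTSS
    (by omega) (by
      intro i hi hiT a ha
      rw [hSF] at hi
      let e := TS.equivFin.symm
      let ρ : Fin (TS.card + 1) → (K →+* ℂ_[p]) := Fin.cons i (fun j => (e j : K →+* ℂ_[p]))
      have hρS : ∀ j, ρ j ∈ S := by
        intro j
        refine Fin.cases ?_ (fun j => ?_) j
        · exact hi
        · exact (hSF _).1 (hTSS (e j).2)
      have hρi : Function.Injective ρ := by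
        rw [Fin.cons_injective_iff]
        refine ⟨?_, Subtype.val_injective.comp e.injective⟩
        rintro ⟨j, hj⟩
        apply hiT
        rw [← hj]
        exact (e j).2
      let σ : Fin (TS.card + 1) → (N →+* ℂ_[p]) :=
        Fin.cons (l ((kap θ).comp i)) (fun j => l (e j : K →+* ℂ_[p]))
      have hσρ : ∀ j, InfinitePlace.mk ((θ : ℂ_[p] →+* ℂ).comp ((σ j).comp (algebraMap K N))) =
          InfinitePlace.mk ((θ : ℂ_[p] →+* ℂ).comp (ρ j)) := by
        intro j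
        refine Fin.cases ?_ (fun j => ?_) j
        · change InfinitePlace.mk ((θ : ℂ_[p] →+* ℂ).comp
            ((l ((kap θ).comp i)).comp (algebraMap K N))) = _
          rw [hl]
          exact place_kap θ i
        · change InfinitePlace.mk ((θ : ℂ_[p] →+* ℂ).comp
            ((l (e j : K →+* ℂ_[p])).comp (algebraMap K N))) = _
          rw [hl]
          rfl
      refine hg θ L hL (TS.card + 1) (by omega) σ
        (fun j j' h => by
          rw [hσρ, hσρ] at h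
          exact hρi (huniq _ (hρS j) _ (hρS j') h))
        (Fin.cons (-1) (fun j => a (e j : K →+* ℂ_[p]))) 0 (by
          rw [Fin.cons_zero]
          exact neg_ne_zero.2 one_ne_zero) (by
          intro y hy
          have h5 := congrArg (fun f : chiV χ →ₗ[ℂ_[p]] ℂ_[p] => f ⟨y, hy⟩) ha
          simp only [LinearMap.sum_apply, LinearMap.smul_apply, smul_eq_mul] at h5
          rw [Fin.sum_univ_succ]
          simp only [Fin.cons_zero, Fin.cons_succ, σ]
          have h6 : ∑ j ∈ TS, a j * frm hL χ l j ⟨y, hy⟩ =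
              ∑ j : Fin TS.card, a (e j : K →+* ℂ_[p]) *
                logLin hL (l (e j : K →+* ℂ_[p])) y := by
            rw [← Finset.sum_coe_sort TS, ← Equiv.sum_comp e]
            rfl
          rw [← h6, ← h5]
          change -1 * logLin hL (l ((kap θ).comp i)) y + logLin hL (l ((kap θ).comp i)) y = 0
          ring))
  rw [hSFc] at h2 h3
  refine ⟨S', ?_, ?_, h3, fun τ hτ => ?_⟩
  · intro c' hc1' τ
    rw [hbar c' hc1']
    exact h1 τ
  · rw [finrank_kerS hL χ l hl, finrank_kerS hL χ l hl]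
    exact h2
  · have h5 := h4 (rp τ) (Finset.mem_image_of_mem rp hτ)
    by_cases h : τ ∈ S
    · simp only [rp, if_pos h] at h5
      exact ⟨fun _ => h, fun _ => h5⟩
    · simp only [rp, if_neg h] at h5
      refine ⟨fun h6 => absurd h5 ((h1 τ).1 h6), fun h6 => absurd h6 h⟩

lemma le_of_bound {m d : ℕ} (hm : 1 ≤ m) (hmd : ∀ n, n ≤ m → n * (n - 1) * (m + 1 - n) < d) :
    m ≤ d := by
  rcases Nat.lt_or_ge m 2 with h | h
  · have h1 := hmd 1 hm
    omega
  · have h1 := hmd m le_rfl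
    have h2 : m + 1 - m = 1 := by omega
    rw [h2, mul_one] at h1
    have h3 : m * 1 ≤ m * (m - 1) := Nat.mul_le_mul_left m (by omega)
    omega

/-- the general case -/
theorem noRel_of_bound {χ : (N ≃ₐ[K] N) →* ℂ_[p]ˣ} (hχ : χ ≠ 1) (c : K →+* K)
    (hconj : ∀ b : K →+* ℂ, (starRingEnd ℂ).comp b = b.comp c) {d : ℕ}
    (s : Fin d → (N →+* ℂ))
    (hs : Function.Injective fun i => InfinitePlace.mk ((s i).comp (algebraMap K N)))
    (hpl : ∀ w : InfinitePlace K, ∃ i, w = InfinitePlace.mk ((s i).comp (algebraMap K N)))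
    {m : ℕ} (hmd : ∀ n, n ≤ m → n * (n - 1) * (m + 1 - n) < d) : NoRel χ m := by
  intro θ L hL m' hm' σ hσ x i0 hx hrel
  obtain ⟨n, hn1, -, hn2⟩ := girth θ hχ c hconj s hs hpl hL σ hσ x i0 hx hrel
  have h7 := hmd n (by omega)
  have h8 : n * (n - 1) * (m' + 1 - n) ≤ n * (n - 1) * (m + 1 - n) :=
    Nat.mul_le_mul_left _ (by omega)
  omega

end exch

end Pool.Agent.U157.SLK
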