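import Pool.Agent.U157.SLK.Count

set_option autoImplicit false
set_option linter.unusedSectionVars false

/-!
# The Leopoldt statement for `χ` gives the `Σ`-Leopoldt statement for half of the CM types
-/

namespace Pool.Agent.U157.SLK

open NumberField TensorProduct Pool.Agent.W289.SL Pool.Agent.W332.SL6
open Pool.Agent.W254.PA (exists_theta)

variable {p : ℕ} [Fact p.Prime]

lemma card_good (A : Finset Q3) : (Finset.univ.filter fun B => B ∉ A).card = 8 - A.card := by
  have h1 : (Finset.univ.filter fun B => B ∉ A) = Aᶜ := by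
    ext B
    simp
  rw [h1, Finset.card_compl]
  rfl

/-- **Half of the types.** -/
theorem half (F K H : Type) [Field F] [NumberField F] [IsTotallyReal F] [Field K]
    [NumberField K] [IsTotallyComplex K] [Algebra F K] (hF : Module.finrank ℚ F = 3)
    (hFK : Module.finrank F K = 2) [Field H] [NumberField H] [Algebra K H] [IsGalois K H]
    (hCM : ¬ IsCMField H) (χ : (H ≃ₐ[K] H) →* ℂ_[p]ˣ) (hinj : Function.Injective χ)
    (hχ : χ ≠ 1) (hLeo : SigmaLeopoldt p K H Set.univ χ) :
    4 ≤ {S : Set (K →+* ℂ_[p]) | IsCMType p F K S ∧ SigmaLeopoldt p K H S χ}.ncard := by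
  classical
  have : FiniteDimensional K H := Module.Finite.of_restrictScalars_finite ℚ K H
  obtain ⟨θ⟩ := exists_theta p
  have hK : Module.finrank ℚ K = 6 := by
    rw [← Module.finrank_mul_finrank ℚ F K, hF, hFK]
  obtain ⟨s, hs, hpl⟩ := exists_places (K := K) (N := H) hK
  obtain ⟨⟨c, hc1⟩, hc⟩ := cm_conj (F := F) (K := K) hFK
  have hker : ∀ g : H ≃ₐ[K] H, χ g = 1 ↔ ∀ y : H, g (algebraMap H H y) = algebraMap H H y := by
    intro g
    constructor
    · intro h y
      have h1 : g = 1 := hinj (by rw [h, map_one])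
      rw [h1]
      rfl
    · intro h
      have h1 : g = 1 := by
        ext y
        exact h y
      rw [h1, map_one]
  let A : Finset Q3 := Finset.univ.filter fun B => ¬ SigmaLeopoldt p K H (typ θ s K B) χ
  have hA4 : A.card ≤ 4 := by
    by_cases hne : A.Nonempty
    · obtain ⟨B0, hB0⟩ := hne
      rw [Finset.mem_filter] at hB0
      have h0 := hB0.2
      unfold SigmaLeopoldt at h0
      push Not at h0
      obtain ⟨L, hL, -⟩ := h0
      refine geom_four (V := InChi χ) (ℓ := fun P => logLin hL (sig θ s P))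
        (fun P Q hPQ z z' hz hz' hz0 h1 h2 h3 h4 => ?_) (fun z hz h => ?_) A (fun B hB => ?_)
      · exact prop_of_two H θ hχ hker hCM (c : K →+* K) (hc c hc1) s hs hpl hL (sig θ s P)
          (sig θ s Q) (fun h => hPQ (pt_injective θ hs h)) hz hz' hz0 h1 h2 h3 h4
      · refine hLeo L hL z hz fun σ _ => ?_
        obtain ⟨P, hP⟩ := exists_pt θ hpl (σ.comp (algebraMap K H))
        obtain ⟨g, rfl⟩ := exists_aut σ (sig θ s P) hP
        rw [logLin_inChi hL hz, h P, mul_zero]
      · rw [Finset.mem_filter] at hB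
        have h1 := hB.2
        unfold SigmaLeopoldt at h1
        push Not at h1
        obtain ⟨L', hL', x, hx, hx1, hx0⟩ := h1
        refine ⟨x, hx, hx0, fun P hP => ?_⟩
        change logLin hL (sig θ s P) x = 0
        rw [logLin_unique hL hL']
        exact hx1 _ ((pt_mem_typ θ hs B P).2 hP)
    · rw [Finset.not_nonempty_iff_eq_empty] at hne
      rw [hne]
      simp
  have h8 := card_good A
  refine le_trans ?_ (card_le_ncard θ χ hs hpl hc (Finset.univ.filter fun B => B ∉ A)
    (fun B hB => ?_))
  · omega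
  · rw [Finset.mem_filter] at hB
    by_contra h
    exact hB.2 (Finset.mem_filter.2 ⟨Finset.mem_univ _, h⟩)

end Pool.Agent.U157.SLK
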