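import Mathlib

set_option autoImplicit false

/-!
# A complete quadrilateral of linear forms
-/

namespace Pool.Agent.U157.SLK

theorem quad {E W : Type*} [Field E] [CharZero E] [AddCommGroup W] [Module E W]
    (V : Submodule E W) (α β : Fin 3 → W →ₗ[E] E) (κ : E) (hκ : κ ≠ 0)
    (hAB : ∀ y ∈ V, α 0 y + α 1 y + α 2 y = κ * (β 0 y + β 1 y + β 2 y))
    (e : W) (he : e ∈ V) (b : E) (hb : b ≠ 0) (a : E) (hea : ∀ i, α i e = a) (heb : ∀ i, β i e = b)
    (hinj : ∀ y ∈ V, β 0 y = 0 → β 1 y = 0 → β 2 y = 0 → y = 0)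
    (z0 z1 z2 z3 : W) (hz0 : z0 ∈ V) (hz1 : z1 ∈ V) (hz2 : z2 ∈ V) (hz3 : z3 ∈ V)
    (n0 : z0 ≠ 0) (n1 : z1 ≠ 0) (n2 : z2 ≠ 0) (n3 : z3 ≠ 0)
    (e00 : α 0 z0 = 0) (e01 : α 1 z0 = 0) (e02 : α 2 z0 = 0)
    (e10 : α 0 z1 = 0) (e11 : β 1 z1 = 0) (e12 : β 2 z1 = 0)
    (e20 : β 0 z2 = 0) (e21 : α 1 z2 = 0) (e22 : β 2 z2 = 0)
    (e30 : β 0 z3 = 0) (e31 : β 1 z3 = 0) (e32 : α 2 z3 = 0) :
    ∃ x ω : E, ω ^ 3 = 1 ∧ ∀ y ∈ V, α 0 y = x * (β 2 y - ω * β 1 y) := by
  have hb1 : β 0 z1 ≠ 0 := fun h => n1 (hinj z1 hz1 h e11 e12)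
  have hb2 : β 1 z2 ≠ 0 := fun h => n2 (hinj z2 hz2 e20 h e22)
  have hb3 : β 2 z3 ≠ 0 := fun h => n3 (hinj z3 hz3 e30 e31 h)
  set b1 := β 0 z1
  set b2 := β 1 z2
  set b3 := β 2 z3
  -- the basis
  have hdec : ∀ y ∈ V, y = (β 0 y / b1) • z1 + (β 1 y / b2) • z2 + (β 2 y / b3) • z3 := by
    intro y hy
    rw [← sub_eq_zero]
    apply hinj
    · exact V.sub_mem hy (V.add_mem (V.add_mem (V.smul_mem _ hz1) (V.smul_mem _ hz2))
        (V.smul_mem _ hz3))
    · simp only [map_sub, map_add, map_smul, smul_eq_mul, e20, e30, mul_zero, add_zero]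
      change β 0 y - β 0 y / b1 * b1 = 0
      field_simp
      ring
    · simp only [map_sub, map_add, map_smul, smul_eq_mul, e11, e31, mul_zero, add_zero, zero_add]
      change β 1 y - β 1 y / b2 * b2 = 0
      field_simp
      ring
    · simp only [map_sub, map_add, map_smul, smul_eq_mul, e12, e22, mul_zero, zero_add]
      change β 2 y - β 2 y / b3 * b3 = 0
      field_simp
      ring
  have hα : ∀ i, ∀ y ∈ V, α i y = β 0 y * (α i z1 / b1) + β 1 y * (α i z2 / b2) +
      β 2 y * (α i z3 / b3) := by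
    intro i y hy
    have h1 := congrArg (α i) (hdec y hy)
    rw [map_add, map_add, map_smul, map_smul, map_smul, smul_eq_mul, smul_eq_mul,
      smul_eq_mul] at h1
    rw [h1]
    ring
  have h0 := hα 0
  have h1 := hα 1
  have h2 := hα 2
  simp only [e10, e21, e32, zero_div, mul_zero, zero_add, add_zero] at h0 h1 h2
  set q2 := α 0 z2 / b2
  set p3 := α 0 z3 / b3
  set p1 := α 1 z1 / b1
  set q3 := α 1 z3 / b3
  set q1 := α 2 z1 / b1
  set p2 := α 2 z2 / b2
  -- the sums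
  have s1 := hAB z1 hz1
  rw [h0 z1 hz1, h1 z1 hz1, h2 z1 hz1, e11, e12] at s1
  have s2 := hAB z2 hz2
  rw [h0 z2 hz2, h1 z2 hz2, h2 z2 hz2, e20, e22] at s2
  have s3 := hAB z3 hz3
  rw [h0 z3 hz3, h1 z3 hz3, h2 z3 hz3, e30, e31] at s3
  have t1 : p1 + q1 = κ := by
    apply mul_left_cancel₀ hb1
    linear_combination s1
  have t2 : p2 + q2 = κ := by
    apply mul_left_cancel₀ hb2
    linear_combination s2
  have t3 : p3 + q3 = κ := by
    apply mul_left_cancel₀ hb3
    linear_combination s3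
  have u0 := h0 e he
  have u1 := h1 e he
  have u2 := h2 e he
  rw [hea, heb, heb] at u0 u1 u2
  have hab : a = κ * b := by
    have h3 := hAB e he
    rw [hea, hea, hea, heb, heb, heb] at h3
    have h4 : (3 : E) ≠ 0 := by norm_num
    apply mul_left_cancel₀ h4
    linear_combination h3
  have v0 : q2 + p3 = κ := by
    apply mul_left_cancel₀ hb
    linear_combination hab - u0
  have v1 : p1 + q3 = κ := by
    apply mul_left_cancel₀ hb
    linear_combination hab - u1
  have v2 : q1 + p2 = κ := by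
    apply mul_left_cancel₀ hb
    linear_combination hab - u2
  have w1 : p2 = p1 := by linear_combination v2 - t1
  have w2 : p3 = p1 := by linear_combination v0 - t2 + v2 - t1
  have w3 : q2 = q1 := by linear_combination t2 - v2
  have w4 : q3 = q1 := by linear_combination v1 - t1
  rw [w2, w3] at h0
  rw [w4] at h1
  rw [w1] at h2
  -- the fourth vector
  have f0 := h0 z0 hz0
  have f1 := h1 z0 hz0
  have f2 := h2 z0 hz0
  rw [e00] at f0
  rw [e01] at f1
  rw [e02] at f2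
  have hp : p1 ≠ 0 := by
    intro hp
    have hq : q1 = κ := by rw [← t1, hp, zero_add]
    rw [hp, hq] at f0 f1 f2
    apply n0
    apply hinj z0 hz0
    · apply mul_right_cancel₀ hκ
      linear_combination -f2
    · apply mul_right_cancel₀ hκ
      linear_combination -f0
    · apply mul_right_cancel₀ hκ
      linear_combination -f1
  refine ⟨p1, -(q1 / p1), ?_, fun y hy => ?_⟩
  · have g2 : β 2 z0 = -(q1 / p1) * β 1 z0 := by
      field_simp
      linear_combination -f0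
    have g0 : β 0 z0 = -(q1 / p1) * β 2 z0 := by
      field_simp
      linear_combination -f1
    have g1 : β 1 z0 = -(q1 / p1) * β 0 z0 := by
      field_simp
      linear_combination -f2
    have hne : β 0 z0 ≠ 0 := by
      intro h
      apply n0
      apply hinj z0 hz0 h
      · rw [g1, h, mul_zero]
      · rw [g2, g1, h, mul_zero, mul_zero]
    apply mul_right_cancel₀ hne
    calc (-(q1 / p1)) ^ 3 * β 0 z0 = -(q1 / p1) * (-(q1 / p1) * (-(q1 / p1) * β 0 z0)) := by ring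
      _ = 1 * β 0 z0 := by rw [← g1, ← g2, ← g0, one_mul]
  · rw [h0 y hy]
    field_simp
    ring

end Pool.Agent.U157.SLK
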