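import Pool.Agent.U157.SLK.Leo
import Pool.Agent.U157.SLK.Quad
import Pool.Agent.U157.SLK.Half

set_option autoImplicit false
set_option linter.unusedSectionVars false

/-!
# Cubic fields and characters of an imaginary quadratic field: five of the eight CM types
-/

namespace Pool.Agent.U157.SLK

open NumberField TensorProduct Pool.Agent.W289.SL Pool.Agent.W332.SL6
open Pool.Agent.W254.PA (exists_theta)

variable {p : ℕ} [Fact p.Prime]

/-- the `χ`-part as a subspace -/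
def chiSub {K N : Type} [Field K] [NumberField K] [Field N] [NumberField N] [Algebra K N]
    [FiniteDimensional K N] (χ : (N ≃ₐ[K] N) →* ℂ_[p]ˣ) : Submodule ℂ_[p] (UM p N) where
  carrier := {x | InChi χ x}
  add_mem' := fun hx hy => InChi.add hx hy
  zero_mem' := fun τ => by rw [map_zero, smul_zero]
  smul_mem' := fun c _ hx => InChi.smul hx c

section base

variable {k K N : Type} [Field k] [NumberField k] [Field K] [NumberField K] [Field N]
  [NumberField N] [Algebra k K] [Algebra k N] [Algebra K N] [IsScalarTower k K N]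
  [FiniteDimensional k N] [FiniteDimensional K N] [IsGalois k N] [IsGalois K N]

/-- the sum over `Gal(N/k)` of a function of the embeddings of `K` -/
lemma sum_reps' {g : Fin 3 → (N ≃ₐ[k] N)} (hg : Reps K g) : ∃ n : ℕ, n ≠ 0 ∧
    ∀ f : (N ≃ₐ[k] N) → ℂ_[p], (∀ h h' : N ≃ₐ[k] N,
      (∀ y : K, h (algebraMap K N y) = h' (algebraMap K N y)) → f h = f h') →
      ∑ h, f h = (n : ℂ_[p]) * ∑ i, f (g i) := by
  classical
  choose idx hidx using hg.cover
  have hid : ∀ i (h : N ≃ₐ[k] N), idx h = i ↔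
      ∀ y : K, h (algebraMap K N y) = g i (algebraMap K N y) := by
    intro i h
    constructor
    · rintro rfl
      exact hidx h
    · intro h1
      exact hg.inj _ _ fun y => (hidx h y).symm.trans (h1 y)
  have hcard : ∀ i, (Finset.univ.filter fun h : N ≃ₐ[k] N => idx h = i).card =
      (Finset.univ.filter fun h : N ≃ₐ[k] N =>
        ∀ y : K, h (algebraMap K N y) = algebraMap K N y).card := by
    intro i
    refine Finset.card_bij' (fun h _ => (g i)⁻¹ * h) (fun h _ => g i * h) ?_ ?_ ?_ ?_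
    · intro h hh
      rw [Finset.mem_filter] at hh ⊢
      refine ⟨Finset.mem_univ _, fun y => ?_⟩
      rw [AlgEquiv.mul_apply, (hid i h).1 hh.2 y, ← AlgEquiv.mul_apply, inv_mul_cancel,
        AlgEquiv.one_apply]
    · intro h hh
      rw [Finset.mem_filter] at hh ⊢
      refine ⟨Finset.mem_univ _, (hid i _).2 fun y => ?_⟩
      rw [AlgEquiv.mul_apply, hh.2 y]
    · intro h _
      exact mul_inv_cancel_left _ _
    · intro h _
      exact inv_mul_cancel_left _ _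
  refine ⟨(Finset.univ.filter fun h : N ≃ₐ[k] N =>
        ∀ y : K, h (algebraMap K N y) = algebraMap K N y).card, ?_, fun f hf => ?_⟩
  · have h1 : (1 : N ≃ₐ[k] N) ∈ (Finset.univ.filter fun h : N ≃ₐ[k] N =>
        ∀ y : K, h (algebraMap K N y) = algebraMap K N y) := by
      rw [Finset.mem_filter]
      exact ⟨Finset.mem_univ _, fun y => rfl⟩
    exact (Finset.card_pos.2 ⟨_, h1⟩).ne'
  · rw [← Finset.sum_fiberwise Finset.univ idx f, Finset.mul_sum]
    refine Finset.sum_congr rfl fun i _ => ?_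
    rw [Finset.sum_congr rfl (fun h hh => hf h (g i) (by
      rw [Finset.mem_filter] at hh
      exact (hid i h).1 hh.2)), Finset.sum_const, nsmul_eq_mul, hcard]

/-- all logarithms vanish if they vanish at the six embeddings -/
lemma kill_all {ψ : (N ≃ₐ[k] N) →* ℂ_[p]ˣ} [IsTotallyComplex K] (θ : ℂ_[p] ≃+* ℂ)
    (s : Fin 3 → (N →+* ℂ))
    (hpl : ∀ w : InfinitePlace K, ∃ i, w = InfinitePlace.mk ((s i).comp (algebraMap K N)))
    {L : ℂ_[p] → ℂ_[p]} (hL : IsIwasawaLog p L) {z : UM p N} (hz : InChi (rst K ψ) z)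
    (h : ∀ P, logLin hL (sig θ s P) z = 0) (σ : N →+* ℂ_[p]) : logLin hL σ z = 0 := by
  obtain ⟨P, hP⟩ := exists_pt θ hpl (σ.comp (algebraMap K N))
  obtain ⟨g, rfl⟩ := exists_aut σ (sig θ s P) hP
  rw [logLin_inChi hL hz, h P, mul_zero]

lemma sig_false_comp (θ : ℂ_[p] ≃+* ℂ) (s : N →+* ℂ) (g : Fin 3 → (N ≃ₐ[k] N)) (i : Fin 3) :
    sig θ (fun i => s.comp (g i : N →+* N)) (i, false) =
      ((θ.symm : ℂ →+* ℂ_[p]).comp s).comp (g i : N →+* N) := by
  rw [sig, if_neg (by simp)]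
  rfl

lemma sig_true_comp (θ : ℂ_[p] ≃+* ℂ) (s : N →+* ℂ) (g : Fin 3 → (N ≃ₐ[k] N)) (i : Fin 3) :
    sig θ (fun i => s.comp (g i : N →+* N)) (i, true) =
      ((kap θ).comp ((θ.symm : ℂ →+* ℂ_[p]).comp s)).comp (g i : N →+* N) := by
  rw [sig, if_pos rfl]
  rfl

variable (H : Type) [Field H] [NumberField H] [Algebra K H] [Algebra H N] [IsScalarTower K H N]
  [IsTotallyComplex k]

/-- a vector killed by five of the six logarithms is zero -/
theorem five_zero (hpk : ∀ w w' : InfinitePlace k, w = w') {g : Fin 3 → (N ≃ₐ[k] N)}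
    (hg : Reps K g) (θ : ℂ_[p] ≃+* ℂ) {ψ : (N ≃ₐ[k] N) →* ℂ_[p]ˣ}
    (hker : ∀ g : N ≃ₐ[K] N, rst K ψ g = 1 ↔ ∀ y : H, g (algebraMap H N y) = algebraMap H N y)
    (hCM : ¬ IsCMField H)
    (c : K →+* K) (hconj : ∀ b : K →+* ℂ, (starRingEnd ℂ).comp b = b.comp c)
    {L : ℂ_[p] → ℂ_[p]} (hL : IsIwasawaLog p L) (s : N →+* ℂ)
    {z : UM p N} (hz : InChi (rst K ψ) z) (P0 : P6)
    (h : ∀ P, P ≠ P0 → logLin hL (sig θ (fun i => s.comp (g i : N →+* N)) P) z = 0) : z = 0 := by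
  have : IsTotallyComplex K := isTotallyComplex_of_algebra k K
  obtain ⟨n, hn, hsum⟩ := sum_reps' (p := p) hg
  have hn' : (n : ℂ_[p]) ≠ 0 := by exact_mod_cast hn
  have hlog : ∀ σ : N →+* ℂ_[p], logLin hL σ (pr ψ z) = (n : ℂ_[p]) *
      ∑ i, ((ψ (g i)⁻¹ : ℂ_[p]ˣ) : ℂ_[p]) * logLin hL (σ.comp (g i : N →+* N)) z := by
    intro σ
    rw [log_pr]
    exact hsum (fun h => ((ψ h⁻¹ : ℂ_[p]ˣ) : ℂ_[p]) * logLin hL (σ.comp (h : N →+* N)) z)
      (fun h h' hh => log_agree ψ hL σ hz hh)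
  -- the embeddings for the two embeddings of `k`
  obtain ⟨i0, ε0⟩ := P0
  obtain ⟨σe, hσe⟩ : ∃ σe : Bool → (N →+* ℂ_[p]), ∀ i ε,
      sig θ (fun i => s.comp (g i : N →+* N)) (i, ε) = (σe ε).comp (g i : N →+* N) := by
    refine ⟨fun ε => cond ε ((kap θ).comp ((θ.symm : ℂ →+* ℂ_[p]).comp s))
      ((θ.symm : ℂ →+* ℂ_[p]).comp s), fun i ε => ?_⟩
    cases ε
    · exact sig_false_comp θ s g i
    · exact sig_true_comp θ s g i
  have hpr : pr ψ z = 0 := by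
    apply eq_zero_of_log_chi hpk hL (σe (!ε0)) (pr_mem ψ z)
    rw [hlog, Finset.sum_eq_zero (fun i _ => by
      rw [← hσe, h (i, !ε0) (fun hh => by
        have := congrArg Prod.snd hh
        simp at this), mul_zero]), mul_zero]
  have hall : ∀ P, logLin hL (sig θ (fun i => s.comp (g i : N →+* N)) P) z = 0 := by
    intro P
    by_cases hP : P = (i0, ε0)
    · rw [hP]
      have h1 := hlog (σe ε0)
      rw [hpr, map_zero, Finset.sum_eq_single i0 (fun i _ hi => by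
        rw [← hσe, h (i, ε0) (fun hh => hi (congrArg Prod.fst hh)), mul_zero])
        (fun hh => absurd (Finset.mem_univ _) hh), ← hσe] at h1
      exact (mul_eq_zero.1 ((mul_eq_zero.1 h1.symm).resolve_left hn')).resolve_left
        (Units.ne_zero _)
    · exact h P hP
  exact leo_V0 H hpk hg θ hker hCM c hconj hL ⟨hz, hpr⟩
    (kill_all θ _ (places_cover hpk hg s) hL hz hall)

/-- the four even choices are not all bad -/
theorem not_even (hpk : ∀ w w' : InfinitePlace k, w = w') {g : Fin 3 → (N ≃ₐ[k] N)}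
    (hg : Reps K g) (θ : ℂ_[p] ≃+* ℂ) {ψ : (N ≃ₐ[k] N) →* ℂ_[p]ˣ}
    (hker : ∀ g : N ≃ₐ[K] N, rst K ψ g = 1 ↔ ∀ y : H, g (algebraMap H N y) = algebraMap H N y)
    (hCM : ¬ IsCMField H) (hχ : rst K ψ ≠ 1)
    (c : K →+* K) (hconj : ∀ b : K →+* ℂ, (starRingEnd ℂ).comp b = b.comp c)
    {L : ℂ_[p] → ℂ_[p]} (hL : IsIwasawaLog p L)
    (P : Fin 3 → Bool → (N →+* ℂ_[p])) (σ : N →+* ℂ_[p])
    (hPf : ∀ i, P i false = σ.comp (g i : N →+* N))
    (hPt : ∀ i, P i true = ((kap θ).comp σ).comp (g i : N →+* N))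
    (z0 z1 z2 z3 : UM p N) (hz0 : InChi (rst K ψ) z0) (hz1 : InChi (rst K ψ) z1)
    (hz2 : InChi (rst K ψ) z2) (hz3 : InChi (rst K ψ) z3)
    (n0 : z0 ≠ 0) (n1 : z1 ≠ 0) (n2 : z2 ≠ 0) (n3 : z3 ≠ 0)
    (e00 : logLin hL (P 0 false) z0 = 0) (e01 : logLin hL (P 1 false) z0 = 0)
    (e02 : logLin hL (P 2 false) z0 = 0)
    (e10 : logLin hL (P 0 false) z1 = 0) (e11 : logLin hL (P 1 true) z1 = 0)
    (e12 : logLin hL (P 2 true) z1 = 0)
    (e20 : logLin hL (P 0 true) z2 = 0) (e21 : logLin hL (P 1 false) z2 = 0)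
    (e22 : logLin hL (P 2 true) z2 = 0)
    (e30 : logLin hL (P 0 true) z3 = 0) (e31 : logLin hL (P 1 true) z3 = 0)
    (e32 : logLin hL (P 2 false) z3 = 0) : False := by
  classical
  have : IsTotallyComplex K := isTotallyComplex_of_algebra k K
  have : IsTotallyComplex N := isTotallyComplex_of_algebra k N
  simp only [hPf, hPt] at e00 e01 e02 e10 e11 e12 e20 e21 e22 e30 e31 e32
  set s' : Fin 3 → (N →+* ℂ) := fun i => ((θ : ℂ_[p] →+* ℂ).comp σ).comp (g i : N →+* N)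
    with hs'
  have hinjp := places_inj hg ((θ : ℂ_[p] →+* ℂ).comp σ)
  have hcov := places_cover hpk hg ((θ : ℂ_[p] →+* ℂ).comp σ)
  have hsσ : (θ.symm : ℂ →+* ℂ_[p]).comp ((θ : ℂ_[p] →+* ℂ).comp σ) = σ :=
    RingHom.ext fun x => θ.symm_apply_apply (σ x)
  have hsf : ∀ i, sig θ s' (i, false) = σ.comp (g i : N →+* N) := by
    intro i
    rw [hs', sig_false_comp, hsσ]
  have hst : ∀ i, sig θ s' (i, true) = ((kap θ).comp σ).comp (g i : N →+* N) := by
    intro i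
    rw [hs', sig_true_comp, hsσ]
  obtain ⟨n, hn, hsum⟩ := sum_reps' (p := p) hg
  have hn' : (n : ℂ_[p]) ≠ 0 := by exact_mod_cast hn
  have hlog : ∀ (z : UM p N), InChi (rst K ψ) z → ∀ σ : N →+* ℂ_[p],
      logLin hL σ (pr ψ z) = (n : ℂ_[p]) *
      ∑ i, ((ψ (g i)⁻¹ : ℂ_[p]ˣ) : ℂ_[p]) * logLin hL (σ.comp (g i : N →+* N)) z := by
    intro z hz σ
    rw [log_pr]
    exact hsum (fun h => ((ψ h⁻¹ : ℂ_[p]ˣ) : ℂ_[p]) * logLin hL (σ.comp (h : N →+* N)) z)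
      (fun h h' hh => log_agree ψ hL σ hz hh)
  -- the forms
  let α : Fin 3 → UM p N →ₗ[ℂ_[p]] ℂ_[p] := fun i =>
    ((ψ (g i)⁻¹ : ℂ_[p]ˣ) : ℂ_[p]) • logLin hL (σ.comp (g i : N →+* N))
  let β : Fin 3 → UM p N →ₗ[ℂ_[p]] ℂ_[p] := fun i =>
    ((ψ (g i)⁻¹ : ℂ_[p]ˣ) : ℂ_[p]) • logLin hL (((kap θ).comp σ).comp (g i : N →+* N))
  have hα : ∀ i y, α i y = ((ψ (g i)⁻¹ : ℂ_[p]ˣ) : ℂ_[p]) *
    logLin hL (σ.comp (g i : N →+* N)) y := fun i y => rfl
  have hβ : ∀ i y, β i y = ((ψ (g i)⁻¹ : ℂ_[p]ˣ) : ℂ_[p]) *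
    logLin hL (((kap θ).comp σ).comp (g i : N →+* N)) y := fun i y => rfl
  have hα0 : ∀ i y, α i y = 0 ↔ logLin hL (σ.comp (g i : N →+* N)) y = 0 := by
    intro i y
    rw [hα]
    exact ⟨fun h => (mul_eq_zero.1 h).resolve_left (Units.ne_zero _), fun h => by
      rw [h, mul_zero]⟩
  have hβ0 : ∀ i y, β i y = 0 ↔ logLin hL (((kap θ).comp σ).comp (g i : N →+* N)) y = 0 := by
    intro i y
    rw [hβ]
    exact ⟨fun h => (mul_eq_zero.1 h).resolve_left (Units.ne_zero _), fun h => by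
      rw [h, mul_zero]⟩
  have hψ : ψ ≠ 1 := by
    rintro rfl
    exact hχ rfl
  -- a vector in the `ψ`-part
  obtain ⟨u, hu⟩ : ∃ u, xu ψ u ≠ 0 := by
    by_contra hcon
    push Not at hcon
    have h1 := indepN θ hψ (fun _ : Unit => (θ : ℂ_[p] →+* ℂ).comp σ)
      (fun _ _ _ => rfl) (fun _ => 1) (fun u => by
        rw [hcon u]
        simp) ()
    exact one_ne_zero h1
  set e := xu ψ u with hedef
  have he : InChi ψ e := xu_inChi ψ u
  have heA : e ∈ AU p N := xu_mem_AU ψ u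
  have hea : logLin hL σ e ≠ 0 := fun h => hu (eq_zero_of_log hL _ heA h)
  have heb : logLin hL ((kap θ).comp σ) e ≠ 0 := fun h => hu (eq_zero_of_log hL _ heA h)
  set κ := logLin hL σ e / logLin hL ((kap θ).comp σ) e with hκdef
  have hκ : κ ≠ 0 := div_ne_zero hea heb
  have hAB : ∀ y ∈ chiSub (rst K ψ), α 0 y + α 1 y + α 2 y = κ * (β 0 y + β 1 y + β 2 y) := by
    intro y hy
    obtain ⟨a, ha⟩ := exists_smul hpk he hu (pr_mem ψ y)
    have h1 := hlog y hy σ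
    have h2 := hlog y hy ((kap θ).comp σ)
    rw [ha, map_smul, smul_eq_mul, Fin.sum_univ_three] at h1 h2
    have h3 : (n : ℂ_[p]) * (α 0 y + α 1 y + α 2 y) = a * logLin hL σ e := h1.symm
    have h4 : (n : ℂ_[p]) * (β 0 y + β 1 y + β 2 y) = a * logLin hL ((kap θ).comp σ) e :=
      h2.symm
    apply mul_left_cancel₀ hn'
    rw [h3, mul_left_comm, h4, hκdef]
    field_simp
  -- the geometry
  have hne6 : ∀ P Q : P6, P ≠ Q → (sig θ s' P).comp (algebraMap K N) ≠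
      (sig θ s' Q).comp (algebraMap K N) := fun P Q hPQ h => hPQ (pt_injective θ hinjp h)
  have htwo : ∀ P Q : P6, P ≠ Q → ∀ z z' : UM p N, InChi (rst K ψ) z → InChi (rst K ψ) z' →
      z ≠ 0 → logLin hL (sig θ s' P) z = 0 → logLin hL (sig θ s' Q) z = 0 →
      logLin hL (sig θ s' P) z' = 0 → logLin hL (sig θ s' Q) z' = 0 → ∃ a : ℂ_[p], z' = a • z :=
    fun P Q hPQ z z' hz hz' hz0 h1 h2 h3 h4 => prop_of_two H θ hχ hker hCM c hconj s' hinjp hcov
      hL _ _ (hne6 P Q hPQ) hz hz' hz0 h1 h2 h3 h4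
  have hall : ∀ y, InChi (rst K ψ) y → (∀ i, α i y = 0) → (∀ i, β i y = 0) → y = 0 := by
    intro y hy h1 h2
    refine five_zero H hpk hg θ hker hCM c hconj hL ((θ : ℂ_[p] →+* ℂ).comp σ) hy (0, true)
      fun P _ => ?_
    obtain ⟨i, ε⟩ := P
    cases ε
    · rw [hsf]; exact (hα0 i y).1 (h1 i)
    · rw [hst]; exact (hβ0 i y).1 (h2 i)
  have hinj : ∀ y ∈ chiSub (rst K ψ), β 0 y = 0 → β 1 y = 0 → β 2 y = 0 → y = 0 := by
    intro y hy b0 b1 b2
    by_contra hy0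
    have hb : ∀ i, β i y = 0 := by
      intro i
      fin_cases i
      · exact b0
      · exact b1
      · exact b2
    have hb' : ∀ i, logLin hL (sig θ s' (i, true)) y = 0 := by
      intro i
      rw [hst]
      exact (hβ0 i y).1 (hb i)
    apply hy0
    -- `y` is proportional to each of the three vectors
    have hcase : ∀ (z : UM p N) (i j l : Fin 3), InChi (rst K ψ) z → z ≠ 0 → i ≠ j →
        logLin hL (((kap θ).comp σ).comp (g i : N →+* N)) z = 0 →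
        logLin hL (((kap θ).comp σ).comp (g j : N →+* N)) z = 0 →
        logLin hL (σ.comp (g l : N →+* N)) z = 0 → α l y = 0 := by
      intro z i j l hz hzn hij h1 h2 h3
      obtain ⟨a, ha⟩ := htwo (i, true) (j, true) (fun h => hij (congrArg Prod.fst h)) y z hy hz
        hy0 (hb' i) (hb' j) (by rw [hst]; exact h1) (by rw [hst]; exact h2)
      have ha0 : a ≠ 0 := by
        rintro rfl
        exact hzn (by rw [ha, zero_smul])
      rw [ha, map_smul, smul_eq_mul] at h3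
      exact (hα0 l y).2 ((mul_eq_zero.1 h3).resolve_left ha0)
    refine hall y hy (fun i => ?_) hb
    fin_cases i
    · exact hcase z1 1 2 0 hz1 n1 (by decide) e11 e12 e10
    · exact hcase z2 0 2 1 hz2 n2 (by decide) e20 e22 e21
    · exact hcase z3 0 1 2 hz3 n3 (by decide) e30 e31 e32
  have hge : ∀ (τ : N →+* ℂ_[p]) (i : Fin 3), ((ψ (g i)⁻¹ : ℂ_[p]ˣ) : ℂ_[p]) *
      logLin hL (τ.comp (g i : N →+* N)) e = logLin hL τ e := by
    intro τ i
    rw [logLin_inChi hL he, ← mul_assoc, ← Units.val_mul, map_inv, inv_mul_cancel, Units.val_one,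
      one_mul]
  obtain ⟨x, ω, hω, hrel⟩ := quad (chiSub (rst K ψ)) α β κ hκ hAB e (inChi_rst he)
    (logLin hL ((kap θ).comp σ) e) heb (logLin hL σ e) (fun i => by rw [hα, hge])
    (fun i => by rw [hβ, hge]) hinj z0 z1 z2 z3 hz0 hz1 hz2 hz3 n0 n1 n2 n3
    ((hα0 _ _).2 e00) ((hα0 _ _).2 e01) ((hα0 _ _).2 e02) ((hα0 _ _).2 e10) ((hβ0 _ _).2 e11)
    ((hβ0 _ _).2 e12) ((hβ0 _ _).2 e20) ((hα0 _ _).2 e21) ((hβ0 _ _).2 e22) ((hβ0 _ _).2 e30)
    ((hβ0 _ _).2 e31) ((hα0 _ _).2 e32)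
  -- the hyperplane theorem
  have hωA : IsAlgebraic ℚ ω := by
    have h3 : IsAlgebraic ℚ (ω ^ 3) := by
      rw [hω]; exact isAlgebraic_one
    exact h3.of_pow (by norm_num)
  have hc1 : IsAlgebraic ℚ (-(ω * ((ψ (g 1)⁻¹ : ℂ_[p]ˣ) : ℂ_[p]))) :=
    (hωA.mul (chi_alg ψ _)).neg
  have hc2 : IsAlgebraic ℚ (((ψ (g 2)⁻¹ : ℂ_[p]ˣ) : ℂ_[p])) := chi_alg ψ _
  have hrel' : ∀ y, InChi (rst K ψ) y → logLin hL (σ.comp (g 0 : N →+* N)) y =
      (x * ((ψ (g 0) : ℂ_[p]ˣ) : ℂ_[p])) * (-(ω * ((ψ (g 1)⁻¹ : ℂ_[p]ˣ) : ℂ_[p])) *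
        logLin hL (((kap θ).comp σ).comp (g 1 : N →+* N)) y + ((ψ (g 2)⁻¹ : ℂ_[p]ˣ) : ℂ_[p]) *
        logLin hL (((kap θ).comp σ).comp (g 2 : N →+* N)) y) := by
    intro y hy
    have h1 := hrel y hy
    rw [hα, hβ, hβ] at h1
    have h2 : ((ψ (g 0) : ℂ_[p]ˣ) : ℂ_[p]) * ((ψ (g 0)⁻¹ : ℂ_[p]ˣ) : ℂ_[p]) = 1 := by
      rw [← Units.val_mul, map_inv, mul_inv_cancel, Units.val_one]
    linear_combination ((ψ (g 0) : ℂ_[p]ˣ) : ℂ_[p]) * h1 -
      logLin hL (σ.comp (g 0 : N →+* N)) y * h2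
  obtain ⟨w, hwA, hw, hwi⟩ := exists_alg_indep θ hχ s' hinjp
  have hX := rel_alg w hwA hw hwi hL _ _ _ _ _ _ hc1 hc2 hrel'
  set X := x * ((ψ (g 0) : ℂ_[p]ˣ) : ℂ_[p]) with hXdef
  set c1 := -(ω * ((ψ (g 1)⁻¹ : ℂ_[p]ˣ) : ℂ_[p])) with hc1def
  set c2 := ((ψ (g 2)⁻¹ : ℂ_[p]ˣ) : ℂ_[p]) with hc2def
  have hlam : ∀ y, InChi (rst K ψ) y → lam θ (s' 0) y = X * c1 * lam θ (s' 1) y +
      X * c2 * lam θ (s' 2) y := by
    intro y hy
    have h1 := rel_lam (χ := rst K ψ) θ hL (σ.comp (g 0 : N →+* N))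
      (((kap θ).comp σ).comp (g 1 : N →+* N)) (((kap θ).comp σ).comp (g 2 : N →+* N))
      (X * c1) (X * c2) (hX.mul hc1) (hX.mul hc2)
      (fun y hy => by rw [hrel' y hy]; ring) hy
    have hk : ∀ i, lam θ ((θ : ℂ_[p] →+* ℂ).comp (((kap θ).comp σ).comp (g i : N →+* N))) y =
        lam θ (s' i) y := fun i => lam_kap θ (σ.comp (g i : N →+* N)) y
    rw [hk, hk] at h1
    exact h1
  have h1 := indepN θ hχ s' hinjp ![1, -(X * c1), -(X * c2)] (fun u => by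
    rw [Fin.sum_univ_three]
    change 1 * lam θ (s' 0) (xu (rst K ψ) u) + -(X * c1) * lam θ (s' 1) (xu (rst K ψ) u) +
      -(X * c2) * lam θ (s' 2) (xu (rst K ψ) u) = 0
    rw [hlam _ (xu_inChi _ u)]
    ring) 0
  exact one_ne_zero h1

end base

end Pool.Agent.U157.SLK
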