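import Pool.Agent.U157.SLK.Five

set_option autoImplicit false
set_option linter.unusedSectionVars false

/-!
# Five of the eight CM types
-/

namespace Pool.Agent.U157.SLK

open NumberField TensorProduct Pool.Agent.W289.SL Pool.Agent.W332.SL6
open Pool.Agent.W254.PA (exists_theta)

variable {p : ℕ} [Fact p.Prime]

/-- the trivial character belongs to a CM field -/
theorem chi_ne_one {K H : Type} [Field K] [NumberField K] [IsTotallyComplex K] [Field H]
    [NumberField H] [Algebra K H] [IsGalois K H] (hCM : ¬ IsCMField H)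
    (c : K →+* K) (hconj : ∀ b : K →+* ℂ, (starRingEnd ℂ).comp b = b.comp c)
    (χ : (H ≃ₐ[K] H) →* ℂ_[p]ˣ) (hinj : Function.Injective χ) : χ ≠ 1 := by
  rintro rfl
  have : FiniteDimensional K H := Module.Finite.of_restrictScalars_finite ℚ K H
  have h1 : ∀ g : H ≃ₐ[K] H, g = 1 := fun g => hinj rfl
  have hsurj : Function.Surjective (algebraMap K H) := by
    intro y
    have h2 : y ∈ (⊥ : IntermediateField K H) := by
      rw [← IsGalois.fixedField_top, IntermediateField.mem_fixedField_iff]
      intro g _
      rw [h1 g]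
      rfl
    exact IntermediateField.mem_bot.1 h2
  let e : K ≃+* H := RingEquiv.ofBijective (algebraMap K H) ⟨(algebraMap K H).injective, hsurj⟩
  have : IsTotallyComplex H := isTotallyComplex_of_algebra K H
  apply hCM
  refine isCM_of_conj ((e : K →+* H).comp (c.comp (e.symm : H →+* K))) (fun s y => ?_)
  obtain ⟨x, rfl⟩ := e.surjective y
  have h3 := RingHom.congr_fun (hconj (s.comp (e : K →+* H))) x
  change s (e (c (e.symm (e x)))) = star (s (e x))
  rw [e.symm_apply_apply]
  exact h3.symm

/-- **Five of the eight types.** -/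
theorem five_types (F k K H N : Type) [Field F] [NumberField F] [IsTotallyReal F]
    [Field k] [NumberField k] [IsTotallyComplex k] [Field K] [NumberField K] [Algebra F K]
    [Algebra k K] (hF : Module.finrank ℚ F = 3) (hk : Module.finrank ℚ k = 2)
    (hFK : Module.finrank F K = 2) [Field H] [NumberField H] [Field N] [NumberField N]
    [Algebra K H] [Algebra H N] [Algebra K N] [Algebra k N] [IsScalarTower K H N]
    [IsScalarTower k K N] [IsGalois K H] [IsGalois k N] (hCM : ¬ IsCMField H)
    (ψ : (N ≃ₐ[k] N) →* ℂ_[p]ˣ) (χ : (H ≃ₐ[K] H) →* ℂ_[p]ˣ) (hinj : Function.Injective χ)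
    (hχψ : ∀ (g : N ≃ₐ[K] N) (h : H ≃ₐ[K] H),
      (∀ y, algebraMap H N (h y) = g (algebraMap H N y)) → χ h = ψ (g.restrictScalars k)) :
    5 ≤ {S : Set (K →+* ℂ_[p]) | IsCMType p F K S ∧ SigmaLeopoldt p K H S χ}.ncard := by
  classical
  have : FiniteDimensional K H := Module.Finite.of_restrictScalars_finite ℚ K H
  have : FiniteDimensional K N := Module.Finite.of_restrictScalars_finite ℚ K N
  have : FiniteDimensional k N := Module.Finite.of_restrictScalars_finite ℚ k N
  have : IsGalois K N := IsGalois.tower_top_of_isGalois k K N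
  have : IsTotallyComplex K := isTotallyComplex_of_algebra k K
  obtain ⟨θ⟩ := exists_theta p
  have hpk : ∀ w w' : InfinitePlace k, w = w' := by
    have h1 := IsTotallyComplex.finrank k
    rw [hk] at h1
    have h1' := InfinitePlace.card_eq_nrRealPlaces_add_nrComplexPlaces k
    rw [IsTotallyComplex.nrRealPlaces_eq_zero k] at h1'
    have h2 : Fintype.card (InfinitePlace k) = 1 := by omega
    intro w w'
    exact (Fintype.card_le_one_iff.1 h2.le) w w'
  have hK : Module.finrank ℚ K = 6 := by
    rw [← Module.finrank_mul_finrank ℚ F K, hF, hFK]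
  obtain ⟨t, ht, htpl⟩ := exists_places (K := K) (N := N) hK
  obtain ⟨g, hg⟩ := exists_reps (K := K) hpk t ht htpl
  obtain ⟨s0⟩ : Nonempty (N →+* ℂ) := inferInstance
  have hs := places_inj hg s0
  have hpl := places_cover hpk hg s0
  set s : Fin 3 → (N →+* ℂ) := fun i => s0.comp (g i : N →+* N) with hsdef
  obtain ⟨⟨c, hc1⟩, hc⟩ := cm_conj (F := F) (K := K) hFK
  have hconj := hc c hc1
  have hχ1 : χ ≠ 1 := chi_ne_one hCM (c : K →+* K) hconj χ hinj
  -- the character of `Gal(N/K)`
  have hres : ∀ g : N ≃ₐ[K] N, rst K ψ g = χ (g.restrictNormal H) := fun g =>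
    (hχψ g _ (AlgEquiv.restrictNormal_commutes g H)).symm
  have hker : ∀ g : N ≃ₐ[K] N, rst K ψ g = 1 ↔
      ∀ y : H, g (algebraMap H N y) = algebraMap H N y := by
    intro g
    rw [hres]
    constructor
    · intro h y
      have h1 : g.restrictNormal H = 1 := hinj (by rw [h, map_one])
      have h2 := AlgEquiv.restrictNormal_commutes g H y
      rw [h1] at h2
      exact h2.symm
    · intro h
      have h1 : g.restrictNormal H = 1 := by
        ext y
        apply (algebraMap H N).injective
        rw [AlgEquiv.restrictNormal_commutes, h]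
        rfl
      rw [h1, map_one]
  have hχ : rst K ψ ≠ 1 := by
    intro h
    apply hχ1
    ext τ
    obtain ⟨g, rfl⟩ := AlgEquiv.restrictNormalHom_surjective (F := K) (K₁ := H) N τ
    have h1 := hres g
    rw [h] at h1
    exact congrArg _ h1.symm
  let A : Finset Q3 := Finset.univ.filter fun B => ¬ SigmaLeopoldt p K H (typ θ s K B) χ
  have hA3 : A.card ≤ 3 := by
    by_cases hne : A.Nonempty
    · obtain ⟨B0, hB0⟩ := hne
      rw [Finset.mem_filter] at hB0
      have h0 := hB0.2
      unfold SigmaLeopoldt at h0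
      push Not at h0
      obtain ⟨L, hL, -⟩ := h0
      have hbad : ∀ B ∈ A, ∃ z, InChi (rst K ψ) z ∧ z ≠ 0 ∧
          ∀ P ∈ graph3 B, logLin hL (sig θ s P) z = 0 := by
        intro B hB
        rw [Finset.mem_filter] at hB
        have h1 := hB.2
        unfold SigmaLeopoldt at h1
        push Not at h1
        obtain ⟨L', hL', x, hx, hx1, hx0⟩ := h1
        refine ⟨push (algebraMap H N) x, fun τ => ?_,
          fun h => hx0 (push_injective (algebraMap H N) h), fun P hP => ?_⟩
        · rw [actLin_eq]
          exact push_chi hχψ hx τ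
        · rw [logLin_push, logLin_unique hL hL']
          apply hx1
          rw [RingHom.comp_assoc, ← IsScalarTower.algebraMap_eq]
          exact (pt_mem_typ θ hs B P).2 hP
      rcases geom_three (V := InChi (rst K ψ)) (ℓ := fun P => logLin hL (sig θ s P))
        (fun P Q hPQ z z' hz hz' hz0 h1 h2 h3 h4 => prop_of_two H θ hχ hker hCM (c : K →+* K)
          hconj s hs hpl hL (sig θ s P) (sig θ s Q)
          (fun h => hPQ (pt_injective θ hs h)) hz hz' hz0 h1 h2 h3 h4)
        (fun z hz P0 h => five_zero H hpk hg θ hker hCM (c : K →+* K) hconj hL s0 hz P0 h)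
        A hbad with h | h | h
      · exact h
      · exfalso
        obtain ⟨z0, hz0, n0, e0⟩ := hbad (false, false, false) (h (by decide))
        obtain ⟨z1, hz1, n1, e1⟩ := hbad (false, true, true) (h (by decide))
        obtain ⟨z2, hz2, n2, e2⟩ := hbad (true, false, true) (h (by decide))
        obtain ⟨z3, hz3, n3, e3⟩ := hbad (true, true, false) (h (by decide))
        exact not_even H hpk hg θ hker hCM hχ (c : K →+* K) hconj hL
          (fun i ε => sig θ s (i, ε)) ((θ.symm : ℂ →+* ℂ_[p]).comp s0)
          (fun i => sig_false_comp θ s0 g i) (fun i => sig_true_comp θ s0 g i)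
          z0 z1 z2 z3 hz0 hz1 hz2 hz3 n0 n1 n2 n3
          (e0 _ (by decide)) (e0 _ (by decide)) (e0 _ (by decide))
          (e1 _ (by decide)) (e1 _ (by decide)) (e1 _ (by decide))
          (e2 _ (by decide)) (e2 _ (by decide)) (e2 _ (by decide))
          (e3 _ (by decide)) (e3 _ (by decide)) (e3 _ (by decide))
      · exfalso
        obtain ⟨z0, hz0, n0, e0⟩ := hbad (true, true, true) (h (by decide))
        obtain ⟨z1, hz1, n1, e1⟩ := hbad (true, false, false) (h (by decide))
        obtain ⟨z2, hz2, n2, e2⟩ := hbad (false, true, false) (h (by decide))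
        obtain ⟨z3, hz3, n3, e3⟩ := hbad (false, false, true) (h (by decide))
        exact not_even H hpk hg θ hker hCM hχ (c : K →+* K) hconj hL
          (fun i ε => sig θ s (i, !ε)) ((kap θ).comp ((θ.symm : ℂ →+* ℂ_[p]).comp s0))
          (fun i => sig_true_comp θ s0 g i) (fun i => by
            rw [kap_kap]
            exact sig_false_comp θ s0 g i)
          z0 z1 z2 z3 hz0 hz1 hz2 hz3 n0 n1 n2 n3
          (e0 _ (by decide)) (e0 _ (by decide)) (e0 _ (by decide))
          (e1 _ (by decide)) (e1 _ (by decide)) (e1 _ (by decide))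
          (e2 _ (by decide)) (e2 _ (by decide)) (e2 _ (by decide))
          (e3 _ (by decide)) (e3 _ (by decide)) (e3 _ (by decide))
    · rw [Finset.not_nonempty_iff_eq_empty] at hne
      rw [hne]
      simp
  have h8 := card_good A
  refine le_trans ?_ (card_le_ncard θ χ hs hpl hc (Finset.univ.filter fun B => B ∉ A)
    (fun B hB => ?_))
  · omega
  · rw [Finset.mem_filter] at hB
    by_contra h
    exact hB.2 (Finset.mem_filter.2 ⟨Finset.mem_univ _, h⟩)

end Pool.Agent.U157.SLK
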