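import Pool.Agent.U157.SLK.Places

set_option autoImplicit false
set_option linter.unusedSectionVars false

/-!
# Relations between few logarithms
-/

namespace Pool.Agent.U157.SLK

open NumberField TensorProduct Pool.Agent.W289.SL Pool.Agent.W332.SL6
open Pool.Agent.W254.PA (exists_theta LgP Hyp LtE)

variable {p : ℕ} [Fact p.Prime]

/-- places do not depend on the embedding -/
lemma place_indep {K M : Type} [Field K] [NumberField K] [Field M] (c : K →+* K)
    (hconj : ∀ b : K →+* ℂ, (starRingEnd ℂ).comp b = b.comp c) (t t' : M →+* ℂ)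
    (a b : K →+* M) (h : InfinitePlace.mk (t.comp a) = InfinitePlace.mk (t.comp b)) :
    InfinitePlace.mk (t'.comp a) = InfinitePlace.mk (t'.comp b) := by
  rcases InfinitePlace.mk_eq_iff.1 h with h1 | h1
  · have h2 : a = b := RingHom.ext fun x => t.injective (RingHom.congr_fun h1 x)
    rw [h2]
  · have h2 : b = a.comp c := RingHom.ext fun x => by
      apply t.injective
      have h3 := RingHom.congr_fun h1 x
      have h4 := RingHom.congr_fun (hconj (t.comp a)) x
      exact h3.symm.trans h4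
    rw [h2, ← RingHom.comp_assoc, ← hconj]
    exact (InfinitePlace.mk_conjugate_eq _).symm

section girth

variable {K N : Type} [Field K] [NumberField K] [Field N] [NumberField N] [Algebra K N]
  [FiniteDimensional K N] [IsGalois K N] [IsTotallyComplex K]

lemma lam_scale (θ : ℂ_[p] ≃+* ℂ) (χ : (N ≃ₐ[K] N) →* ℂ_[p]ˣ) (s t : N →+* ℂ)
    (h : InfinitePlace.mk (t.comp (algebraMap K N)) = InfinitePlace.mk (s.comp (algebraMap K N))) :
    ∃ ε : ℂ_[p], ε ≠ 0 ∧ ∀ y, InChi χ y → lam θ t y = ε * lam θ s y := by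
  rcases InfinitePlace.mk_eq_iff.1 h with h1 | h1
  · obtain ⟨g, rfl⟩ := exists_aut t s h1
    exact ⟨_, Units.ne_zero (χ g), fun y hy => lam_inChi θ hy s g⟩
  · obtain ⟨g, hg⟩ := exists_aut ((starRingEnd ℂ).comp t) s h1
    exact ⟨_, Units.ne_zero (χ g), fun y hy => by rw [← lam_conj, hg, lam_inChi θ hy]⟩

/-- combinations of embeddings -/
noncomputable def comb {M : Type} [Field M] [NumberField M] {m : ℕ} (v : Fin m → ℂ_[p])
    (τ : Fin m → (N →+* M)) : UM p N →ₗ[ℂ_[p]] UM p M := ∑ i, v i • push (τ i)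

lemma comb_apply {M : Type} [Field M] [NumberField M] {m : ℕ} (v : Fin m → ℂ_[p])
    (τ : Fin m → (N →+* M)) (y : UM p N) : comb v τ y = ∑ i, v i • push (τ i) y := by
  unfold comb
  rw [LinearMap.sum_apply]
  rfl

/-- the rank of a combination of embeddings at different places -/
theorem rank_bound (θ : ℂ_[p] ≃+* ℂ) {χ : (N ≃ₐ[K] N) →* ℂ_[p]ˣ} (hχ : χ ≠ 1) {d : ℕ}
    (s : Fin d → (N →+* ℂ))
    (hs : Function.Injective fun i => InfinitePlace.mk ((s i).comp (algebraMap K N)))
    (hpl : ∀ w : InfinitePlace K, ∃ i, w = InfinitePlace.mk ((s i).comp (algebraMap K N)))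
    {M : Type} [Field M] [NumberField M] {m : ℕ} (τ : Fin m → (N →+* M))
    (hτ : ∀ (t : M →+* ℂ) (i j : Fin m),
      InfinitePlace.mk ((t.comp (τ i)).comp (algebraMap K N)) =
        InfinitePlace.mk ((t.comp (τ j)).comp (algebraMap K N)) → i = j)
    (v : Fin m → ℂ_[p]) (i0 : Fin m) (hv : v i0 ≠ 0) (B : Finset (Fin m))
    (hB : ∀ i, v i ≠ 0 → i ∈ B) :
    ∃ (q : ℕ) (u : Fin q → Additive (𝓞 N)ˣ),
      LinearIndependent ℂ_[p] (fun j => comb v τ (xu χ (u j))) ∧ d ≤ q * B.card := by
  classical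
  obtain ⟨q, f, hfs, hfspan, hfl⟩ : ∃ (q : ℕ) (f : Fin q → UM p M),
      (∀ j, f j ∈ Set.range fun u => comb v τ (xu χ u)) ∧
      Submodule.span ℂ_[p] (Set.range f) =
        Submodule.span ℂ_[p] (Set.range fun u => comb v τ (xu χ u)) ∧
      LinearIndependent ℂ_[p] f := by
    obtain ⟨f, h⟩ := Submodule.exists_fun_fin_finrank_span_eq ℂ_[p]
      (Set.range fun u => comb v τ (xu χ u))
    exact ⟨_, f, h⟩
  choose u hu using hfs
  have hfu : (fun j => comb v τ (xu χ (u j))) = f := funext hu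
  refine ⟨q, u, by rw [hfu]; exact hfl, ?_⟩
  -- the places
  have hP : ∀ (t : M →+* ℂ) (i : Fin m), ∃ P : Fin d,
      InfinitePlace.mk ((t.comp (τ i)).comp (algebraMap K N)) =
        InfinitePlace.mk ((s P).comp (algebraMap K N)) := fun t i => hpl _
  choose P hP using hP
  choose ε hε0 hε using fun (t : M →+* ℂ) (i : Fin m) =>
    lam_scale θ χ (s (P t i)) (t.comp (τ i)) (hP t i)
  let vec : (M →+* ℂ) → (Fin d → ℂ_[p]) := fun t Q => ∑ i, if P t i = Q then v i * ε t i else 0
  have hvec : ∀ (t : M →+* ℂ) (y : UM p N), InChi χ y →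
      ∑ Q, vec t Q * lam θ (s Q) y = lam θ t (comb v τ y) := by
    intro t y hy
    rw [comb_apply, map_sum]
    have h1 : ∀ Q, vec t Q * lam θ (s Q) y =
        ∑ i, if P t i = Q then v i * ε t i * lam θ (s Q) y else 0 := by
      intro Q
      simp only [vec]
      rw [Finset.sum_mul]
      refine Finset.sum_congr rfl fun i _ => ?_
      rw [ite_mul, zero_mul]
    simp only [h1]
    rw [Finset.sum_comm]
    refine Finset.sum_congr rfl fun i _ => ?_
    rw [Finset.sum_ite_eq, if_pos (Finset.mem_univ _), map_smul, lam_push, hε t i y hy,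
      smul_eq_mul, mul_assoc]
  let A : Submodule ℂ_[p] (Fin d → ℂ_[p]) :=
    { carrier := {a | ∃ l : UM p M →ₗ[ℂ_[p]] ℂ_[p], ∀ u,
        ∑ Q, a Q * lam θ (s Q) (xu χ u) = l (comb v τ (xu χ u))}
      add_mem' := by
        rintro a b ⟨l, hl⟩ ⟨l', hl'⟩
        refine ⟨l + l', fun u => ?_⟩
        rw [LinearMap.add_apply, ← hl, ← hl', ← Finset.sum_add_distrib]
        exact Finset.sum_congr rfl fun Q _ => by rw [Pi.add_apply, add_mul]
      zero_mem' := ⟨0, fun u => by simp⟩
      smul_mem' := by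
        rintro c a ⟨l, hl⟩
        refine ⟨c • l, fun u => ?_⟩
        rw [LinearMap.smul_apply, ← hl, smul_eq_mul, Finset.mul_sum]
        exact Finset.sum_congr rfl fun Q _ => by rw [Pi.smul_apply, smul_eq_mul, mul_assoc] }
  have hvA : ∀ t, vec t ∈ A := fun t => ⟨lam θ t, fun u => hvec t _ (xu_inChi χ u)⟩
  let E : A →ₗ[ℂ_[p]] (Fin q → ℂ_[p]) :=
    (LinearMap.pi fun j => ∑ Q, (lam θ (s Q) (xu χ (u j))) • LinearMap.proj Q).comp A.subtype
  have hE : ∀ (a : A) j, E a j = ∑ Q, (a : Fin d → ℂ_[p]) Q * lam θ (s Q) (xu χ (u j)) := by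
    intro a j
    simp only [E, LinearMap.comp_apply, LinearMap.pi_apply, LinearMap.sum_apply,
      LinearMap.smul_apply, LinearMap.proj_apply, smul_eq_mul, Submodule.subtype_apply]
    exact Finset.sum_congr rfl fun Q _ => mul_comm _ _
  have hEinj : Function.Injective E := by
    rw [← LinearMap.ker_eq_bot, LinearMap.ker_eq_bot']
    rintro ⟨a, l, hl⟩ ha
    apply Subtype.ext
    funext Q
    refine indepN θ hχ s hs a (fun u' => ?_) Q
    rw [hl]
    have h1 : ∀ j, l (f j) = 0 := by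
      intro j
      rw [← hu, ← hl]
      have h2 := congrFun ha j
      rw [hE] at h2
      exact h2
    have h2 : comb v τ (xu χ u') ∈ Submodule.span ℂ_[p] (Set.range f) := by
      rw [hfspan]
      exact Submodule.subset_span ⟨u', rfl⟩
    have h3 : Submodule.span ℂ_[p] (Set.range f) ≤ LinearMap.ker l := by
      rw [Submodule.span_le]
      rintro _ ⟨j, rfl⟩
      exact h1 j
    exact h3 h2
  have hAq : Module.finrank ℂ_[p] A ≤ q := by
    have h1 := LinearMap.finrank_le_finrank_of_injective hEinj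
    rwa [Module.finrank_fin_fun] at h1
  obtain ⟨r, f', hr, hf's, hf'span⟩ : ∃ (r : ℕ) (f' : Fin r → (Fin d → ℂ_[p])), r ≤ q ∧
      (∀ j, f' j ∈ Set.range vec) ∧
      Submodule.span ℂ_[p] (Set.range f') = Submodule.span ℂ_[p] (Set.range vec) := by
    obtain ⟨f', h, h', -⟩ := Submodule.exists_fun_fin_finrank_span_eq ℂ_[p] (Set.range vec)
    refine ⟨_, f', ?_, h, h'⟩
    refine le_trans (Submodule.finrank_mono ?_) hAq
    rw [Submodule.span_le]
    rintro _ ⟨t, rfl⟩
    exact hvA t
  choose t ht using hf's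
  by_contra hcon
  push Not at hcon
  let Un : Finset (Fin d) := Finset.univ.biUnion fun j : Fin r =>
    B.image fun i => P (t j) i
  have hUn : Un.card < (Finset.univ : Finset (Fin d)).card := by
    rw [Finset.card_univ, Fintype.card_fin]
    refine lt_of_le_of_lt ?_ hcon
    refine (Finset.card_biUnion_le).trans ?_
    refine (Finset.sum_le_card_nsmul _ _ _ fun j _ => Finset.card_image_le).trans ?_
    rw [Finset.card_univ, Fintype.card_fin, smul_eq_mul]
    exact Nat.mul_le_mul_right _ hr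
  obtain ⟨Q, -, hQ⟩ := Finset.exists_mem_notMem_of_card_lt_card hUn
  have h0 : ∀ j, f' j Q = 0 := by
    intro j
    rw [← ht]
    refine Finset.sum_eq_zero fun i _ => ?_
    by_cases hvi : v i = 0
    · rw [hvi, zero_mul, ite_self]
    · rw [if_neg]
      intro h
      apply hQ
      rw [Finset.mem_biUnion]
      exact ⟨j, Finset.mem_univ _, Finset.mem_image.2 ⟨i, hB i hvi, h⟩⟩
  have h1 : ∀ x ∈ Submodule.span ℂ_[p] (Set.range vec), x Q = 0 := by
    intro x hx
    rw [← hf'span] at hx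
    have h2 : Submodule.span ℂ_[p] (Set.range f') ≤
        LinearMap.ker (LinearMap.proj Q : (Fin d → ℂ_[p]) →ₗ[ℂ_[p]] ℂ_[p]) := by
      rw [Submodule.span_le]
      rintro _ ⟨j, rfl⟩
      exact h0 j
    exact h2 hx
  -- an embedding which extends `s Q`
  obtain ⟨t0, ht0⟩ : ∃ t0 : M →+* ℂ, t0.comp (τ i0) = s Q := by
    let := (τ i0).toAlgebra
    let := (s Q).toAlgebra
    have : Algebra.IsAlgebraic N M := Algebra.IsAlgebraic.tower_top (K := ℚ) N
    let φ : M →ₐ[N] ℂ := IsAlgClosed.lift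
    exact ⟨φ, φ.comp_algebraMap⟩
  have h2 := h1 (vec t0) (Submodule.subset_span ⟨t0, rfl⟩)
  have hP0 : P t0 i0 = Q := by
    apply hs
    change InfinitePlace.mk ((s (P t0 i0)).comp (algebraMap K N)) =
      InfinitePlace.mk ((s Q).comp (algebraMap K N))
    rw [← hP, ht0]
  have h3 : vec t0 Q = v i0 * ε t0 i0 := by
    simp only [vec]
    rw [Finset.sum_eq_single i0]
    · rw [if_pos hP0]
    · intro i _ hi
      rw [if_neg]
      intro h
      apply hi
      apply hτ t0
      rw [hP, hP, h, hP0]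
    · intro h
      exact absurd (Finset.mem_univ _) h
  rw [h3] at h2
  exact mul_ne_zero hv (hε0 _ _) h2

/-- **Relations between few logarithms.** In a nontrivial relation between `m` logarithms at different
places on the `χ`-part, the number `d` of the places of `K` is bounded. -/
theorem girth (θ : ℂ_[p] ≃+* ℂ) {χ : (N ≃ₐ[K] N) →* ℂ_[p]ˣ} (hχ : χ ≠ 1) (c : K →+* K)
    (hconj : ∀ b : K →+* ℂ, (starRingEnd ℂ).comp b = b.comp c) {d : ℕ}
    (s : Fin d → (N →+* ℂ))
    (hs : Function.Injective fun i => InfinitePlace.mk ((s i).comp (algebraMap K N)))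
    (hpl : ∀ w : InfinitePlace K, ∃ i, w = InfinitePlace.mk ((s i).comp (algebraMap K N)))
    {L : ℂ_[p] → ℂ_[p]} (hL : IsIwasawaLog p L) {m : ℕ} (σ : Fin m → (N →+* ℂ_[p]))
    (hσ : ∀ i j : Fin m,
      InfinitePlace.mk ((θ : ℂ_[p] →+* ℂ).comp ((σ i).comp (algebraMap K N))) =
        InfinitePlace.mk ((θ : ℂ_[p] →+* ℂ).comp ((σ j).comp (algebraMap K N))) → i = j)
    (x : Fin m → ℂ_[p]) (i0 : Fin m) (hx : x i0 ≠ 0)
    (hrel : ∀ y : UM p N, InChi χ y → ∑ i, x i * logLin hL (σ i) y = 0) :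
    ∃ n, n ≤ m ∧ 1 ≤ n ∧ d ≤ n * (n - 1) * (m + 1 - n) := by
  classical
  let k := algebraicClosure ℚ ℂ_[p]
  let T : Submodule k ℂ_[p] := Submodule.span k (Set.range x)
  have hfin : Module.Finite k T := Module.Finite.span_of_finite k (Set.finite_range x)
  have hxT : ∀ i, x i ∈ T := fun i => Submodule.subset_span ⟨i, rfl⟩
  obtain ⟨n, hn, ⟨B⟩⟩ : ∃ n, n = Module.finrank k T ∧ Nonempty (Module.Basis (Fin n) k T) :=
    ⟨_, rfl, ⟨Module.finBasis k T⟩⟩
  have hnm : n ≤ m := by
    rw [hn]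
    have h1 := finrank_range_le_card (R := k) x
    rwa [Fintype.card_fin] at h1
  have hn1 : 1 ≤ n := by
    rw [hn, Nat.one_le_iff_ne_zero]
    intro h0
    have h1 : T = ⊥ := Submodule.finrank_eq_zero.1 h0
    have h2 := hxT i0
    rw [h1] at h2
    exact hx h2
  let co : Fin m → Fin n → k := fun i a => B.repr ⟨x i, hxT i⟩ a
  have hco : ∀ i, x i = ∑ a, (co i a : ℂ_[p]) * (B a : ℂ_[p]) := by
    intro i
    have h1 : ((∑ a, B.repr ⟨x i, hxT i⟩ a • B a : T) : ℂ_[p]) = x i :=
      congrArg Subtype.val (B.sum_repr ⟨x i, hxT i⟩)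
    rw [AddSubmonoidClass.coe_finset_sum] at h1
    exact h1.symm
  -- a combination with few coordinates
  let Z : (Fin n → k) →ₗ[k] (Fin (n - 1) → k) :=
    LinearMap.pi fun i => ∑ a, co ⟨i, by omega⟩ a • LinearMap.proj a
  have hZ : ∀ b i, Z b i = ∑ a, co ⟨i, by omega⟩ a * b a := by
    intro b i
    simp only [Z, LinearMap.pi_apply, LinearMap.sum_apply, LinearMap.smul_apply,
      LinearMap.proj_apply, smul_eq_mul]
  have hZk : LinearMap.ker Z ≠ ⊥ := by
    apply LinearMap.ker_ne_bot_of_finrank_lt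
    rw [Module.finrank_fin_fun, Module.finrank_fin_fun]
    omega
  obtain ⟨b, hbZ, hb0⟩ := Submodule.exists_mem_ne_zero_of_ne_bot hZk
  let v : Fin m → k := fun i => ∑ a, co i a * b a
  have hvB : ∀ i : Fin m, (v i : ℂ_[p]) ≠ 0 →
      i ∈ Finset.univ.filter fun i : Fin m => n - 1 ≤ i.val := by
    intro i hi
    rw [Finset.mem_filter]
    refine ⟨Finset.mem_univ _, ?_⟩
    by_contra hlt
    push Not at hlt
    apply hi
    have h1 := congrFun (LinearMap.mem_ker.1 hbZ) ⟨i, hlt⟩
    rw [hZ] at h1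
    have h2 : v i = 0 := h1
    rw [h2]
    rfl
  have hcard : (Finset.univ.filter fun i : Fin m => n - 1 ≤ i.val).card ≤ m + 1 - n := by
    have h1 : (Finset.univ.filter fun i : Fin m => n - 1 ≤ i.val).card ≤
        (Finset.Ico (n - 1) m).card := by
      apply Finset.card_le_card_of_injOn (fun i => i.val)
      · intro i hi
        rw [Finset.mem_coe, Finset.mem_filter] at hi
        rw [Finset.mem_coe, Finset.mem_Ico]
        exact ⟨hi.2, i.2⟩
      · intro i _ j _ h
        exact Fin.ext h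
    rw [Nat.card_Ico] at h1
    omega
  obtain ⟨i1, hi1⟩ : ∃ i1, (v i1 : ℂ_[p]) ≠ 0 := by
    by_contra hcon
    push Not at hcon
    apply hb0
    let f : T →ₗ[k] k := ∑ a, b a • B.coord a
    have hf : ∀ z, f z = ∑ a, b a * B.repr z a := by
      intro z
      simp only [f, LinearMap.sum_apply, LinearMap.smul_apply, Module.Basis.coord_apply, smul_eq_mul]
    have h1 : ∀ z (hz : z ∈ T), f ⟨z, hz⟩ = 0 := by
      intro z hz
      refine Submodule.span_induction (p := fun z hz => f ⟨z, hz⟩ = 0) ?_ ?_ ?_ ?_ hz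
      · rintro _ ⟨i, rfl⟩
        rw [hf]
        have h2 : v i = 0 := Subtype.ext (hcon i)
        rw [← h2]
        exact Finset.sum_congr rfl fun a _ => mul_comm _ _
      · exact map_zero f
      · intro y z hy hz h1 h2
        have h3 := map_add f ⟨y, hy⟩ ⟨z, hz⟩
        rw [h1, h2, add_zero] at h3
        exact h3
      · intro a y hy h1
        have h3 := map_smul f a ⟨y, hy⟩
        rw [h1, smul_zero] at h3
        exact h3
    funext a
    have h2 := h1 (B a) (B a).2
    rw [hf] at h2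
    have h3 : B.repr (⟨(B a : ℂ_[p]), (B a).2⟩ : T) = Finsupp.single a 1 := B.repr_self a
    rw [h3, Finset.sum_eq_single a (fun a' _ ha' => by
      rw [Finsupp.single_eq_of_ne ha', mul_zero]) (fun h => absurd (Finset.mem_univ _) h),
      Finsupp.single_eq_same, mul_one] at h2
    exact h2
  -- the big field
  obtain ⟨M, iM, iN, iG, inc, hinc⟩ := exists_big p N
  choose τ hτ using fun i => hinc (σ i)
  have hcomp : ∀ i, (((θ : ℂ_[p] →+* ℂ).comp inc).comp ((τ i).comp (algebraMap K N))) =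
      (θ : ℂ_[p] →+* ℂ).comp ((σ i).comp (algebraMap K N)) := by
    intro i
    rw [← hτ]
    rfl
  obtain ⟨q, u, hli, hdq⟩ := rank_bound θ hχ s hs hpl τ (fun t i j h => by
    apply hσ
    rw [← hcomp, ← hcomp]
    exact place_indep c hconj t _ _ _ h) (fun i => (v i : ℂ_[p])) i1 hi1 _ hvB
  refine ⟨n, hnm, hn1, hdq.trans ?_⟩
  refine Nat.mul_le_mul ?_ hcard
  refine hypC (p := p) n q (fun a => (B a : ℂ_[p]))
    (fun a j => ∑ i, (co i a : ℂ_[p]) * logLin hL (σ i) (xu χ (u j))) ?_ ?_ ?_ ?_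
  · exact B.linearIndependent.map' T.subtype (Submodule.ker_subtype T)
  · intro a j
    refine Submodule.sum_mem _ fun i _ => ?_
    exact Submodule.smul_mem _ (co i a) (logLin_mem hL (σ i) (xu_mem_AU χ _))
  · intro j
    rw [← hrel _ (xu_inChi χ (u j))]
    simp only [Finset.mul_sum]
    rw [Finset.sum_comm]
    refine Finset.sum_congr rfl fun i _ => ?_
    rw [hco i, Finset.sum_mul]
    exact Finset.sum_congr rfl fun a _ => by ring
  · rw [Fintype.linearIndependent_iff]
    intro g hg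
    have h1 : ∀ a, ∑ j, (g j : ℂ_[p]) * ∑ i, (co i a : ℂ_[p]) *
        logLin hL (σ i) (xu χ (u j)) = 0 := by
      intro a
      have h2 := congrFun hg a
      rw [Finset.sum_apply] at h2
      exact h2
    have h2 : ∑ j, (g j : ℂ_[p]) * ∑ i, (v i : ℂ_[p]) * logLin hL (σ i) (xu χ (u j)) = 0 := by
      have h3 : ∑ a, (b a : ℂ_[p]) * ∑ j, (g j : ℂ_[p]) * ∑ i, (co i a : ℂ_[p]) *
          logLin hL (σ i) (xu χ (u j)) = 0 :=
        Finset.sum_eq_zero fun a _ => by rw [h1, mul_zero]
      rw [← h3]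
      simp only [Finset.mul_sum]
      rw [Finset.sum_comm (s := (Finset.univ : Finset (Fin n)))]
      refine Finset.sum_congr rfl fun j _ => ?_
      rw [Finset.sum_comm]
      refine Finset.sum_congr rfl fun i _ => ?_
      have h4 : (v i : ℂ_[p]) = ∑ a, (co i a : ℂ_[p]) * (b a : ℂ_[p]) := by
        simp only [v]
        push_cast
        rfl
      rw [h4, Finset.sum_mul, Finset.mul_sum]
      exact Finset.sum_congr rfl fun a _ => by ring
    have h3 : ∑ j, (g j : ℂ_[p]) • comb (fun i => (v i : ℂ_[p])) τ (xu χ (u j)) = 0 := by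
      apply eq_zero_of_log hL inc
      · refine Submodule.sum_mem _ fun j _ => smul_mem_AU ?_ (mem_algebraicClosure_iff.1 (g j).2)
        rw [comb_apply]
        exact Submodule.sum_mem _ fun i _ =>
          smul_mem_AU (push_mem_AU _ (xu_mem_AU χ _)) (mem_algebraicClosure_iff.1 (v i).2)
      · rw [map_sum, ← h2]
        refine Finset.sum_congr rfl fun j _ => ?_
        rw [map_smul, smul_eq_mul, comb_apply, map_sum]
        congr 1
        refine Finset.sum_congr rfl fun i _ => ?_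
        rw [map_smul, logLin_push, hτ, smul_eq_mul]
    intro j
    exact Subtype.ext (Fintype.linearIndependent_iff.1 hli _ h3 j)

end girth

end Pool.Agent.U157.SLK
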