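import Pool.Agent.U157.SLK.Base

set_option autoImplicit false
set_option linter.unusedSectionVars false

/-!
# The Leopoldt statement for extensions of degree three of an imaginary quadratic field
-/

namespace Pool.Agent.U157.SLK

open NumberField TensorProduct Pool.Agent.W289.SL Pool.Agent.W332.SL6
open Pool.Agent.W254.PA (exists_theta)

variable {p : ℕ} [Fact p.Prime]

section base

variable {k K N : Type} [Field k] [NumberField k] [Field K] [NumberField K] [Field N]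
  [NumberField N] [Algebra k K] [Algebra k N] [Algebra K N] [IsScalarTower k K N]
  [FiniteDimensional k N] [FiniteDimensional K N] [IsGalois k N] [IsGalois K N]

variable (K) in
/-- the part of the `χ`-part without `ψ`-component -/
def V0 (ψ : (N ≃ₐ[k] N) →* ℂ_[p]ˣ) (y : UM p N) : Prop := InChi (rst K ψ) y ∧ pr ψ y = 0

lemma V0.add {ψ : (N ≃ₐ[k] N) →* ℂ_[p]ˣ} {x y : UM p N} (hx : V0 K ψ x) (hy : V0 K ψ y) :
    V0 K ψ (x + y) := ⟨hx.1.add hy.1, by rw [map_add, hx.2, hy.2, add_zero]⟩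

lemma V0.sub {ψ : (N ≃ₐ[k] N) →* ℂ_[p]ˣ} {x y : UM p N} (hx : V0 K ψ x) (hy : V0 K ψ y) :
    V0 K ψ (x - y) := ⟨hx.1.sub hy.1, by rw [map_sub, hx.2, hy.2, sub_zero]⟩

lemma V0.smul {ψ : (N ≃ₐ[k] N) →* ℂ_[p]ˣ} {x : UM p N} (hx : V0 K ψ x) (c : ℂ_[p]) :
    V0 K ψ (c • x) := ⟨hx.1.smul c, by rw [map_smul, hx.2, smul_zero]⟩

lemma fin3_other : ∀ i j l m : Fin 3, i ≠ j → l ≠ i → l ≠ j → m ≠ l → m = i ∨ m = j := by
  decide

/-- two real logarithms determine a vector of `V0` -/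
lemma V0_inj (hpk : ∀ w w' : InfinitePlace k, w = w') {g : Fin 3 → (N ≃ₐ[k] N)}
    (hg : Reps K g) (θ : ℂ_[p] ≃+* ℂ) (s : N →+* ℂ) {ψ : (N ≃ₐ[k] N) →* ℂ_[p]ˣ} {y : UM p N}
    (hy : V0 K ψ y) {i j : Fin 3} (hij : i ≠ j) (h1 : lam θ (s.comp (g i : N →+* N)) y = 0)
    (h2 : lam θ (s.comp (g j : N →+* N)) y = 0) : y = 0 := by
  obtain ⟨n, hn, hsum⟩ := sum_reps (p := p) hg
  have h3 : ∑ l, (n l : ℂ_[p]) * (((ψ (g l)⁻¹ : ℂ_[p]ˣ) : ℂ_[p]) *
      lam θ (s.comp (g l : N →+* N)) y) = 0 := by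
    rw [← hsum (fun h => ((ψ h⁻¹ : ℂ_[p]ˣ) : ℂ_[p]) * lam θ (s.comp (h : N →+* N)) y)
      (fun h h' hh => lam_agree ψ θ s hy.1 hh), ← lam_pr, hy.2, map_zero]
  refine eq_zero_of_places θ (fun i => s.comp (g i : N →+* N)) (places_cover hpk hg s) hy.1
    fun l => ?_
  by_cases hli : l = i
  · rw [hli]; exact h1
  by_cases hlj : l = j
  · rw [hlj]; exact h2
  rw [Finset.sum_eq_single l (fun m _ hm => by
    rcases fin3_other i j l m hij hli hlj hm with rfl | rfl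
    · rw [h1, mul_zero, mul_zero]
    · rw [h2, mul_zero, mul_zero]) (fun hh => absurd (Finset.mem_univ _) hh)] at h3
  have h4 : (n l : ℂ_[p]) ≠ 0 := by exact_mod_cast hn l
  exact (mul_eq_zero.1 ((mul_eq_zero.1 h3).resolve_left h4)).resolve_left (Units.ne_zero _)

variable (K) in
/-- the projection to `V0`, up to a constant -/
noncomputable def Qm (ψ : (N ≃ₐ[k] N) →* ℂ_[p]ˣ) : UM p N →ₗ[ℂ_[p]] UM p N :=
  (Fintype.card (N ≃ₐ[k] N) : ℂ_[p]) • pr (rst K ψ) - (pr ψ).comp (pr (rst K ψ))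

lemma Qm_apply (ψ : (N ≃ₐ[k] N) →* ℂ_[p]ˣ) (y : UM p N) : Qm K ψ y =
    (Fintype.card (N ≃ₐ[k] N) : ℂ_[p]) • pr (rst K ψ) y - pr ψ (pr (rst K ψ) y) := rfl

lemma Qm_mem (ψ : (N ≃ₐ[k] N) →* ℂ_[p]ˣ) (y : UM p N) : V0 K ψ (Qm K ψ y) := by
  refine ⟨?_, ?_⟩
  · rw [Qm_apply]
    exact ((pr_mem (rst K ψ) y).smul _).sub (inChi_rst (pr_mem ψ _))
  · rw [Qm_apply, map_sub, map_smul, pr_self ψ (pr_mem ψ _), sub_self]

lemma Qm_self {ψ : (N ≃ₐ[k] N) →* ℂ_[p]ˣ} {y : UM p N} (hy : V0 K ψ y) :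
    Qm K ψ y = ((Fintype.card (N ≃ₐ[k] N) : ℂ_[p]) * (Fintype.card (N ≃ₐ[K] N) : ℂ_[p])) • y := by
  rw [Qm_apply, pr_self _ hy.1, map_smul, hy.2, smul_zero, sub_zero, smul_smul]

lemma Qm_AU (ψ : (N ≃ₐ[k] N) →* ℂ_[p]ˣ) (u : Additive (𝓞 N)ˣ) :
    Qm K ψ ((1 : ℂ_[p]) ⊗ₜ[ℤ] u) ∈ AU p N := by
  rw [Qm_apply]
  have h1 := pr_mem_AU (rst K ψ) (one_tmul_mem (p := p) u)
  exact sub_mem (smul_mem_AU h1 (isAlgebraic_natCast _)) (pr_mem_AU ψ h1)

lemma all_V0 {X : Type} [AddCommGroup X] [Module ℂ_[p] X] {ψ : (N ≃ₐ[k] N) →* ℂ_[p]ˣ}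
    (Φ : UM p N →ₗ[ℂ_[p]] X) (h : ∀ u, Φ (Qm K ψ ((1 : ℂ_[p]) ⊗ₜ[ℤ] u)) = 0) {y : UM p N}
    (hy : V0 K ψ y) : Φ y = 0 := by
  have h1 : ∀ y : UM p N, Φ (Qm K ψ y) = 0 := by
    intro y
    induction y using TensorProduct.induction_on with
    | zero => rw [map_zero, map_zero]
    | tmul c u =>
      have h2 : (c ⊗ₜ[ℤ] u : UM p N) = c • ((1 : ℂ_[p]) ⊗ₜ[ℤ] u) := by
        rw [TensorProduct.smul_tmul', smul_eq_mul, mul_one]
      rw [h2, map_smul, map_smul, h, smul_zero]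
    | add x y hx hy => rw [map_add, map_add, hx, hy, add_zero]
  have h2 := h1 y
  rw [Qm_self hy, map_smul] at h2
  exact (smul_eq_zero.1 h2).resolve_left (mul_ne_zero card_ne card_ne)

variable (H : Type) [Field H] [NumberField H] [Algebra K H] [Algebra H N] [IsScalarTower K H N]
  [IsTotallyComplex k]

/-- **Leopoldt's conjecture for `V0`.** -/
theorem leo_V0 (hpk : ∀ w w' : InfinitePlace k, w = w') {g : Fin 3 → (N ≃ₐ[k] N)}
    (hg : Reps K g) (θ : ℂ_[p] ≃+* ℂ) {ψ : (N ≃ₐ[k] N) →* ℂ_[p]ˣ}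
    (hker : ∀ g : N ≃ₐ[K] N, rst K ψ g = 1 ↔ ∀ y : H, g (algebraMap H N y) = algebraMap H N y)
    (hCM : ¬ IsCMField H)
    (c : K →+* K) (hconj : ∀ b : K →+* ℂ, (starRingEnd ℂ).comp b = b.comp c)
    {L : ℂ_[p] → ℂ_[p]} (hL : IsIwasawaLog p L)
    {z : UM p N} (hz : V0 K ψ z) (hz1 : ∀ σ : N →+* ℂ_[p], logLin hL σ z = 0) : z = 0 := by
  classical
  by_contra hz0
  obtain ⟨s⟩ : Nonempty (N →+* ℂ) := inferInstance
  -- two independent vectors with algebraic coordinates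
  obtain ⟨u1, hu1⟩ : ∃ u1, Qm K ψ ((1 : ℂ_[p]) ⊗ₜ[ℤ] u1) ≠ 0 := by
    by_contra hcon
    push Not at hcon
    exact hz0 (all_V0 (K := K) LinearMap.id hcon hz)
  set w1 := Qm K ψ ((1 : ℂ_[p]) ⊗ₜ[ℤ] u1) with hw1def
  have hw1 : V0 K ψ w1 := Qm_mem ψ _
  have hw1A : w1 ∈ AU p N := Qm_AU ψ u1
  have hlog1 : ∀ σ : N →+* ℂ_[p], logLin hL σ w1 ≠ 0 := fun σ h => hu1 (eq_zero_of_log hL σ hw1A h)
  obtain ⟨u2, hu2⟩ : ∃ u2, ∀ a : ℂ_[p], Qm K ψ ((1 : ℂ_[p]) ⊗ₜ[ℤ] u2) ≠ a • w1 := by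
    by_contra hcon
    push Not at hcon
    have h1 := all_V0 (K := K) (Submodule.mkQ (Submodule.span ℂ_[p] {w1})) (fun u => by
      obtain ⟨a, ha⟩ := hcon u
      rw [ha, Submodule.mkQ_apply, Submodule.Quotient.mk_eq_zero]
      exact Submodule.smul_mem _ _ (Submodule.mem_span_singleton_self _)) hz
    rw [Submodule.mkQ_apply, Submodule.Quotient.mk_eq_zero, Submodule.mem_span_singleton] at h1
    obtain ⟨a, ha⟩ := h1
    obtain ⟨σ⟩ : Nonempty (N →+* ℂ_[p]) := ⟨(θ.symm : ℂ →+* ℂ_[p]).comp s⟩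
    have h2 := hz1 σ
    rw [← ha, map_smul, smul_eq_mul] at h2
    have ha0 := (mul_eq_zero.1 h2).resolve_right (hlog1 σ)
    exact hz0 (by rw [← ha, ha0, zero_smul])
  set w2 := Qm K ψ ((1 : ℂ_[p]) ⊗ₜ[ℤ] u2) with hw2def
  have hw2 : V0 K ψ w2 := Qm_mem ψ _
  have hw2A : w2 ∈ AU p N := Qm_AU ψ u2
  have hindep : ∀ a b : ℂ_[p], a • w1 + b • w2 = 0 → a = 0 ∧ b = 0 := by
    intro a b hab
    have hb : b = 0 := by
      by_contra hb
      apply hu2 (-(b⁻¹ * a))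
      have h5 := congrArg (fun v => b⁻¹ • v) hab
      simp only [smul_add, smul_zero, inv_smul_smul₀ hb] at h5
      rw [neg_smul, mul_smul, eq_neg_iff_add_eq_zero, add_comm]
      exact h5
    rw [hb, zero_smul, add_zero] at hab
    exact ⟨(smul_eq_zero.1 hab).resolve_right hu1, hb⟩
  -- determinants of real logarithms
  have hdet : ∀ (t : N →+* ℂ) (i j : Fin 3), i ≠ j →
      lam θ (t.comp (g i : N →+* N)) w1 * lam θ (t.comp (g j : N →+* N)) w2 -
        lam θ (t.comp (g i : N →+* N)) w2 * lam θ (t.comp (g j : N →+* N)) w1 ≠ 0 := by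
    intro t i j hij hD
    have h1 : ∀ l : Fin 3, l = i ∨ l = j → lam θ (t.comp (g l : N →+* N)) w1 = 0 ∧
        lam θ (t.comp (g l : N →+* N)) w2 = 0 := by
      intro l hl
      have h2 := V0_inj hpk hg θ t ((hw1.smul (lam θ (t.comp (g l : N →+* N)) w2)).sub
        (hw2.smul (lam θ (t.comp (g l : N →+* N)) w1))) hij (by
          rw [map_sub, map_smul, map_smul, smul_eq_mul, smul_eq_mul]
          rcases hl with rfl | rfl
          · ring
          · linear_combination hD) (by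
          rw [map_sub, map_smul, map_smul, smul_eq_mul, smul_eq_mul]
          rcases hl with rfl | rfl
          · linear_combination -hD
          · ring)
      rw [sub_eq_add_neg, ← neg_smul] at h2
      obtain ⟨h3, h4⟩ := hindep _ _ h2
      exact ⟨neg_eq_zero.1 h4, h3⟩
    exact hu1 (V0_inj hpk hg θ t hw1 hij (h1 i (Or.inl rfl)).1 (h1 j (Or.inr rfl)).1)
  -- every vector of `V0` is a combination
  have hspan : ∀ y, V0 K ψ y → ∃ a b : ℂ_[p], y = a • w1 + b • w2 := by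
    intro y hy
    have hD := hdet s 0 1 (by decide)
    set A1 := lam θ (s.comp (g 0 : N →+* N)) w1
    set B1 := lam θ (s.comp (g 1 : N →+* N)) w1
    set A2 := lam θ (s.comp (g 0 : N →+* N)) w2
    set B2 := lam θ (s.comp (g 1 : N →+* N)) w2
    set D := A1 * B2 - A2 * B1 with hDdef
    refine ⟨(lam θ (s.comp (g 0 : N →+* N)) y * B2 - A2 * lam θ (s.comp (g 1 : N →+* N)) y) / D,
      (A1 * lam θ (s.comp (g 1 : N →+* N)) y - lam θ (s.comp (g 0 : N →+* N)) y * B1) / D, ?_⟩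
    rw [← sub_eq_zero]
    refine V0_inj hpk hg θ s (hy.sub ((hw1.smul _).add (hw2.smul _)))
      (by decide : (0 : Fin 3) ≠ 1) ?_ ?_
    · rw [map_sub, map_add, map_smul, map_smul, smul_eq_mul, smul_eq_mul]
      change _ - (_ * A1 + _ * A2) = 0
      field_simp
      rw [hDdef]
      ring
    · rw [map_sub, map_add, map_smul, map_smul, smul_eq_mul, smul_eq_mul]
      change _ - (_ * B1 + _ * B2) = 0
      field_simp
      rw [hDdef]
      ring
  have hne : ∀ t : N →+* ℂ, ∃ y, V0 K ψ y ∧ lam θ t y ≠ 0 := by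
    intro t
    by_contra hcon
    push Not at hcon
    obtain ⟨i, hi⟩ := hg.cover 1
    have h1 : ∀ y, V0 K ψ y → lam θ (t.comp (g i : N →+* N)) y = 0 := by
      intro y hy
      have h2 := lam_agree ψ θ t hy.1 hi
      have h3 : t.comp ((1 : N ≃ₐ[k] N) : N →+* N) = t := RingHom.ext fun _ => rfl
      rw [h3, hcon y hy, mul_zero] at h2
      exact (mul_eq_zero.1 h2.symm).resolve_left (Units.ne_zero _)
    obtain ⟨j, hj⟩ : ∃ j : Fin 3, i ≠ j := ⟨i + 1, by fin_cases i <;> decide⟩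
    apply hdet t i j hj
    rw [h1 w1 hw1, h1 w2 hw2]
    ring
  -- the hyperplane theorem
  obtain ⟨a, b, hab⟩ := hspan z hz
  set σ0 : N →+* ℂ_[p] := (θ.symm : ℂ →+* ℂ_[p]).comp (s.comp (g 0 : N →+* N)) with hσ0
  set σ1 : N →+* ℂ_[p] := (θ.symm : ℂ →+* ℂ_[p]).comp (s.comp (g 1 : N →+* N)) with hσ1
  have hz0' : a • w1 + b • w2 ≠ 0 := by rw [← hab]; exact hz0
  have hz1' : ∀ σ : N →+* ℂ_[p], logLin hL σ (a • w1 + b • w2) = 0 := by
    intro σ
    rw [← hab]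
    exact hz1 σ
  obtain ⟨γ, hγA, ⟨j0, hj0⟩, hr1, hr2⟩ := exists_rel hL ![σ0, σ1, (kap θ).comp σ0] w1 w2 hw1A hw2A
    hu1 a b a b hz0' hz0' (hz1' _) (hz1' _) (hz1' _) (hz1' _)
  rw [Fin.sum_univ_three] at hr1 hr2
  obtain ⟨M, iM, iN, iG, inc, hinc⟩ := exists_big p N
  obtain ⟨τ0, hτ0⟩ := hinc σ0
  obtain ⟨τ1, hτ1⟩ := hinc σ1
  obtain ⟨τ2, hτ2⟩ := hinc ((kap θ).comp σ0)
  have hX : ∀ w : UM p N, w ∈ AU p N →
      γ 0 * logLin hL σ0 w + γ 1 * logLin hL σ1 w + γ 2 * logLin hL ((kap θ).comp σ0) w = 0 →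
      γ 0 • push τ0 w + γ 1 • push τ1 w + γ 2 • push τ2 w = 0 := by
    intro w hw h
    apply eq_zero_of_log hL inc (add_mem (add_mem (smul_mem_AU (push_mem_AU τ0 hw) (hγA 0))
      (smul_mem_AU (push_mem_AU τ1 hw) (hγA 1))) (smul_mem_AU (push_mem_AU τ2 hw) (hγA 2)))
    rw [map_add, map_add, map_smul, map_smul, map_smul, logLin_push, logLin_push, logLin_push,
      hτ0, hτ1, hτ2]
    exact h
  have hX1 := hX w1 hw1A hr1
  have hX2 := hX w2 hw2A hr2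
  have hrel : ∀ y, V0 K ψ y →
      γ 0 • push τ0 y + γ 1 • push τ1 y + γ 2 • push τ2 y = 0 := by
    intro y hy
    obtain ⟨a', b', rfl⟩ := hspan y hy
    have h3 : γ 0 • push τ0 (a' • w1 + b' • w2) + γ 1 • push τ1 (a' • w1 + b' • w2) +
        γ 2 • push τ2 (a' • w1 + b' • w2) =
        a' • (γ 0 • push τ0 w1 + γ 1 • push τ1 w1 + γ 2 • push τ2 w1) +
        b' • (γ 0 • push τ0 w2 + γ 1 • push τ1 w2 + γ 2 • push τ2 w2) := by
      simp only [map_add, map_smul]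
      module
    rw [h3, hX1, hX2, smul_zero, smul_zero, add_zero]
  -- the real logarithms
  have hlam : ∀ y, V0 K ψ y → (γ 0 + γ 2) * lam θ (s.comp (g 0 : N →+* N)) y +
      γ 1 * lam θ (s.comp (g 1 : N →+* N)) y = 0 := by
    intro y hy
    have h3 := congrArg (lam θ ((θ : ℂ_[p] →+* ℂ).comp inc)) (hrel y hy)
    rw [map_zero, map_add, map_add, map_smul, map_smul, map_smul, lam_push, lam_push, lam_push,
      RingHom.comp_assoc, RingHom.comp_assoc, RingHom.comp_assoc, hτ0, hτ1, hτ2, lam_kap, hσ0,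
      hσ1, theta_symm_comp, theta_symm_comp, smul_eq_mul, smul_eq_mul, smul_eq_mul] at h3
    linear_combination h3
  have hD := hdet s 0 1 (by decide)
  have e1 := hlam w1 hw1
  have e2 := hlam w2 hw2
  have hγ1 : γ 1 = 0 := by
    apply mul_right_cancel₀ hD
    linear_combination lam θ (s.comp (g 0 : N →+* N)) w1 * e2 -
      lam θ (s.comp (g 0 : N →+* N)) w2 * e1
  have hγ02 : γ 0 + γ 2 = 0 := by
    apply mul_right_cancel₀ hD
    linear_combination lam θ (s.comp (g 1 : N →+* N)) w2 * e1 -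
      lam θ (s.comp (g 1 : N →+* N)) w1 * e2
  have hγ0 : γ 0 ≠ 0 := by
    intro h
    apply hj0
    fin_cases j0
    · exact h
    · exact hγ1
    · change γ 2 = 0
      rw [h, zero_add] at hγ02
      exact hγ02
  have hpush : ∀ y, V0 K ψ y → push τ2 y = push τ0 y := by
    intro y hy
    have h3 := hrel y hy
    have h4 : γ 2 = -γ 0 := by linear_combination hγ02
    rw [hγ1, zero_smul, add_zero, h4, neg_smul, ← sub_eq_add_neg, ← smul_sub] at h3
    exact (sub_eq_zero.1 ((smul_eq_zero.1 h3).resolve_left hγ0)).symm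
  obtain ⟨j, hj⟩ := conj_step' (H := H) θ hker (V0 K ψ) (fun y hy => hy.1) hne c hconj M τ0 τ2 (by
    ext x
    apply inc.injective
    apply θ.injective
    have h2 := RingHom.congr_fun (hconj ((s.comp (g 0 : N →+* N)).comp (algebraMap K N))) x
    have h4 : inc (τ2 (algebraMap K N x)) = (kap θ) (σ0 (algebraMap K N x)) :=
      RingHom.congr_fun hτ2 _
    have h5 : inc (τ0 (algebraMap K N (c x))) = σ0 (algebraMap K N (c x)) :=
      RingHom.congr_fun hτ0 _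
    have h6 : ∀ y : N, θ (σ0 y) = s (g 0 y) := fun y => θ.apply_symm_apply _
    change θ (inc (τ2 (algebraMap K N x))) = θ (inc (τ0 (algebraMap K N (c x))))
    rw [h4, h5, theta_kap_apply, h6, h6]
    exact h2) hpush
  have : IsTotallyComplex K := isTotallyComplex_of_algebra k K
  have : IsTotallyComplex H := isTotallyComplex_of_algebra K H
  exact hCM (isCM_of_conj j hj)

end base

end Pool.Agent.U157.SLK
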