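import Pool.Agent.U157.SLK.ExchMin
import Pool.Agent.Helper864_WL.RankQ
import Pool.Agent.Helper666.FinGen.Rado

set_option autoImplicit false
set_option linter.unusedSectionVars false

/-!
# Characters with irreducible induced representation: a CM type of small defect
-/

namespace Pool.Agent.U157.SLK

open NumberField TensorProduct Pool.Agent.W289.SL Pool.Agent.W332.SL6
open Pool.Agent.W254.PA (exists_theta LgP Hyp LtE)

variable {p : ℕ} [Fact p.Prime]

section sep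

variable {K N : Type} [Field K] [NumberField K] [Field N] [NumberField N] [Algebra K N]
  [FiniteDimensional K N] [IsGalois K N]

/-- **Independence of the conjugates.** -/
theorem sep {χ : (N ≃ₐ[K] N) →* ℂ_[p]ˣ} {M : Type} [Field M] [NumberField M] {ι : Type}
    [Fintype ι] (τ : ι → (N →+* M))
    (hM : ∀ i j, i ≠ j → ∃ (δ : M ≃ₐ[ℚ] M) (h h' : N ≃ₐ[K] N), (∀ y, δ (τ i y) = τ i (h y)) ∧
      (∀ y, δ (τ j y) = τ j (h' y)) ∧ χ h ≠ χ h')
    (y : ι → UM p N) (hy : ∀ i, InChi χ (y i)) (h0 : ∑ i, push (τ i) (y i) = 0) (i : ι) :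
    y i = 0 := by
  classical
  let G : Finset (M ≃ₐ[ℚ] M) := Finset.univ.filter fun γ =>
    ∃ h : N ≃ₐ[K] N, ∀ y, γ (τ i y) = τ i (h y)
  have hG : ∀ γ : M ≃ₐ[ℚ] M, γ ∈ G ↔ ∃ h : N ≃ₐ[K] N, ∀ y, γ (τ i y) = τ i (h y) := fun γ => by
    simp [G]
  have hex : ∀ γ : M ≃ₐ[ℚ] M, ∃ h : N ≃ₐ[K] N, γ ∈ G → ∀ y, γ (τ i y) = τ i (h y) := by
    intro γ
    by_cases h : γ ∈ G
    · obtain ⟨g, hg⟩ := (hG γ).1 h
      exact ⟨g, fun _ => hg⟩
    · exact ⟨1, fun h' => absurd h' h⟩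
  choose f hf using hex
  let e : UM p M →ₗ[ℂ_[p]] UM p M :=
    ∑ γ ∈ G, ((χ (f γ)⁻¹ : ℂ_[p]ˣ) : ℂ_[p]) • push (γ : M →+* M)
  have he : ∀ z, e z = ∑ γ ∈ G, ((χ (f γ)⁻¹ : ℂ_[p]ˣ) : ℂ_[p]) • push (γ : M →+* M) z := by
    intro z
    simp only [e, LinearMap.sum_apply, LinearMap.smul_apply]
  have hpush : ∀ (γ : M ≃ₐ[ℚ] M) (j : ι) (h : N ≃ₐ[K] N), (∀ y, γ (τ j y) = τ j (h y)) →
      push (γ : M →+* M) (push (τ j) (y j)) = ((χ h : ℂ_[p]ˣ) : ℂ_[p]) • push (τ j) (y j) := by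
    intro γ j h hh
    have h1 : (γ : M →+* M).comp (τ j) = (τ j).comp (h : N →+* N) := RingHom.ext hh
    rw [push_push, h1, ← push_push, ← actLin_eq (h : N →+* N), hy j h, map_smul]
  have e1 : e (push (τ i) (y i)) = (G.card : ℂ_[p]) • push (τ i) (y i) := by
    rw [he, Finset.sum_congr rfl (g := fun _ => push (τ i) (y i)), Finset.sum_const,
      ← Nat.cast_smul_eq_nsmul ℂ_[p]]
    intro γ hγ
    rw [hpush γ i (f γ) (hf γ hγ), smul_smul, ← Units.val_mul, ← map_mul, inv_mul_cancel, map_one,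
      Units.val_one, one_smul]
  have e2 : ∀ j, j ≠ i → e (push (τ j) (y j)) = 0 := by
    intro j hj
    obtain ⟨δ, h, h', h1, h2, h3⟩ := hM i j (Ne.symm hj)
    have hδ : δ ∈ G := (hG δ).2 ⟨h, h1⟩
    have hmul : ∀ γ ∈ G, γ * δ ∈ G ∧ f (γ * δ) = f γ * h := by
      intro γ hγ
      have h4 : ∀ y, (γ * δ) (τ i y) = τ i ((f γ * h) y) := by
        intro y
        rw [AlgEquiv.mul_apply, h1, hf γ hγ]
        rfl
      have h5 : γ * δ ∈ G := (hG _).2 ⟨_, h4⟩
      refine ⟨h5, AlgEquiv.ext fun y => (τ i).injective ?_⟩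
      rw [← hf _ h5, h4]
    have hinv : ∀ γ ∈ G, γ * δ⁻¹ ∈ G := by
      intro γ hγ
      refine (hG _).2 ⟨f γ * h⁻¹, fun y => ?_⟩
      have h6 : δ⁻¹ (τ i y) = τ i (h⁻¹ y) := by
        have h7 := h1 (h⁻¹ y)
        rw [← AlgEquiv.mul_apply h, mul_inv_cancel, AlgEquiv.one_apply] at h7
        rw [← h7, ← AlgEquiv.mul_apply, inv_mul_cancel, AlgEquiv.one_apply]
      rw [AlgEquiv.mul_apply, h6, hf γ hγ]
      rfl
    have h4 : e (push (τ j) (y j)) = (((χ h)⁻¹ * χ h' : ℂ_[p]ˣ) : ℂ_[p]) • e (push (τ j) (y j)) := by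
      conv_lhs => rw [he]
      rw [he, Finset.smul_sum]
      symm
      refine Finset.sum_bij' (fun γ _ => γ * δ) (fun γ _ => γ * δ⁻¹) (fun γ hγ => (hmul γ hγ).1)
        hinv (fun γ _ => by simp) (fun γ _ => by simp) ?_
      intro γ hγ
      have h5 : push ((γ * δ : M ≃ₐ[ℚ] M) : M →+* M) (push (τ j) (y j)) =
          push (γ : M →+* M) (push (δ : M →+* M) (push (τ j) (y j))) := by
        rw [push_push, push_push, push_push]
        rfl
      rw [h5, hpush δ j h' h2, map_smul, (hmul γ hγ).2, smul_smul, smul_smul]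
      congr 1
      rw [← Units.val_mul, ← Units.val_mul]
      congr 1
      rw [mul_inv_rev, map_mul, map_inv, map_inv]
      exact mul_right_comm _ _ _
    by_contra hne
    have h5 : (((χ h)⁻¹ * χ h' : ℂ_[p]ˣ) : ℂ_[p]) = 1 := by
      have h6 : ((((χ h)⁻¹ * χ h' : ℂ_[p]ˣ) : ℂ_[p]) - 1) • e (push (τ j) (y j)) = 0 := by
        rw [sub_smul, one_smul, ← h4, sub_self]
      exact sub_eq_zero.1 ((smul_eq_zero.1 h6).resolve_right hne)
    apply h3
    have h6 : (χ h)⁻¹ * χ h' = 1 := Units.ext h5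
    exact (inv_mul_eq_one.1 h6)
  have h1 := congrArg e h0
  rw [map_sum, map_zero, Finset.sum_eq_single i (fun j _ hj => e2 j hj)
    (fun h => absurd (Finset.mem_univ _) h), e1] at h1
  have h2 : (G.card : ℂ_[p]) ≠ 0 := by
    rw [Nat.cast_ne_zero, ← Nat.pos_iff_ne_zero, Finset.card_pos]
    exact ⟨1, (hG 1).2 ⟨1, fun y => rfl⟩⟩
  exact push_injective (τ i) ((smul_eq_zero.1 h1).resolve_left h2)

end sep

section rank

variable {K N : Type} [Field K] [NumberField K] [Field N] [NumberField N] [Algebra K N]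
  [FiniteDimensional K N] [IsGalois K N]

lemma logLin_mem' {L : ℂ_[p] → ℂ_[p]} (hL : IsIwasawaLog p L) (σ : N →+* ℂ_[p]) {x : UM p N}
    (hx : x ∈ AU p N) : logLin hL σ x ∈ Submodule.span (algebraicClosure ℚ ℂ_[p])
      ((LgP p (𝕂 := ℂ_[p]) : Submodule ℚ ℂ_[p]) : Set ℂ_[p]) := by
  refine Submodule.span_induction
    (p := fun x _ => logLin hL σ x ∈ Submodule.span (algebraicClosure ℚ ℂ_[p])
      ((LgP p (𝕂 := ℂ_[p]) : Submodule ℚ ℂ_[p]) : Set ℂ_[p])) ?_ ?_ ?_ ?_ hx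
  · rintro _ ⟨u, rfl⟩
    rw [logLin_tmul', one_mul]
    exact Submodule.subset_span (log_mem hL (nearU_unit σ _))
  · rw [map_zero]; exact zero_mem _
  · rintro x y - - h1 h2
    rw [map_add]; exact add_mem h1 h2
  · rintro c x - h
    have h1 : c • x = (c : ℂ_[p]) • x := rfl
    rw [h1, map_smul]
    exact Submodule.smul_mem _ c h

/-- Mackey's criterion, for embeddings into a big field -/
def Sepd (χ : (N ≃ₐ[K] N) →* ℂ_[p]ˣ) (M : Type) [Field M] [NumberField M] : Prop :=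
  ∀ f f' : N →+* M, f.comp (algebraMap K N) ≠ f'.comp (algebraMap K N) →
    ∃ (δ : M ≃ₐ[ℚ] M) (h h' : N ≃ₐ[K] N), (∀ y, δ (f y) = f (h y)) ∧
      (∀ y, δ (f' y) = f' (h' y)) ∧ χ h ≠ χ h'

/-- the rank of the forms for a set of embeddings -/
theorem rank_set {χ : (N ≃ₐ[K] N) →* ℂ_[p]ˣ} {L : ℂ_[p] → ℂ_[p]} (hL : IsIwasawaLog p L)
    (l : (K →+* ℂ_[p]) → (N →+* ℂ_[p])) (hl : ∀ τ, (l τ).comp (algebraMap K N) = τ)
    {M : Type} [Field M] [NumberField M] (inc : M →+* ℂ_[p])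
    (hinc : ∀ σ : N →+* ℂ_[p], ∃ τ : N →+* M, inc.comp τ = σ) (hsep : Sepd χ M) {d : ℕ}
    (w : Fin d → UM p N) (hwA : ∀ j, w j ∈ AU p N) (hw : ∀ j, InChi χ (w j))
    (hwi : LinearIndependent ℂ_[p] w) (Q : Finset (K →+* ℂ_[p])) :
    Q.card * d ≤ Module.finrank ℂ_[p] (Submodule.span ℂ_[p]
      (frm hL χ l '' (Q : Set (K →+* ℂ_[p])))) * (Q.card + d) := by
  classical
  let P := Submodule.span ℂ_[p] (frm hL χ l '' (Q : Set (K →+* ℂ_[p])))
  have hfin : Module.Finite ℂ_[p] P :=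
    Module.Finite.span_of_finite _ (Q.finite_toSet.image _)
  have hfree : Module.Free ℂ_[p] P := Module.Free.of_divisionRing ℂ_[p] P
  let B := Module.finBasis ℂ_[p] P
  let e := Q.equivFin.symm
  have hmem : ∀ i : Fin Q.card, frm hL χ l (e i : K →+* ℂ_[p]) ∈ P := fun i =>
    Submodule.subset_span ⟨_, (e i).2, rfl⟩
  choose τ hτ using fun i : Fin Q.card => hinc (l (e i : K →+* ℂ_[p]))
  refine Pool.Agent.Helper864WL.rank_Q Q.card d _
    (fun i ρ => B.repr ⟨_, hmem i⟩ ρ) (fun ρ j => (B ρ : chiV χ →ₗ[ℂ_[p]] ℂ_[p]) ⟨w j, hw j⟩)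
    (fun i j => logLin hL (l (e i : K →+* ℂ_[p])) (w j)) (fun i j => logLin_mem' hL _ (hwA j)) ?_ ?_
  · intro i j
    have h1 : ((∑ ρ, B.repr ⟨_, hmem i⟩ ρ • B ρ : P) : chiV χ →ₗ[ℂ_[p]] ℂ_[p]) =
        frm hL χ l (e i : K →+* ℂ_[p]) := congrArg Subtype.val (B.sum_repr ⟨_, hmem i⟩)
    rw [AddSubmonoidClass.coe_finsetSum] at h1
    have h2 := congrArg (fun f : chiV χ →ₗ[ℂ_[p]] ℂ_[p] => f ⟨w j, hw j⟩) h1
    simp only [LinearMap.sum_apply] at h2
    exact h2.symm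
  · intro c hc
    have h1 : ∑ i, push (τ i) (∑ j, (c i j : ℂ_[p]) • w j) = 0 := by
      apply eq_zero_of_log hL inc
      · refine Submodule.sum_mem _ fun i _ => push_mem_AU _ (Submodule.sum_mem _ fun j _ =>
          smul_mem_AU (hwA j) (mem_algebraicClosure_iff.1 (c i j).2))
      · rw [map_sum, ← hc]
        refine Finset.sum_congr rfl fun i _ => ?_
        rw [logLin_push, hτ, map_sum]
        refine Finset.sum_congr rfl fun j _ => ?_
        rw [map_smul, smul_eq_mul]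
    intro i j
    have h2 := sep τ (fun i i' hii => hsep _ _ (fun h => hii (by
      have h3 := congrArg (fun f : K →+* M => inc.comp f) h
      simp only [← RingHom.comp_assoc, hτ, hl] at h3
      exact e.injective (Subtype.ext h3))))
      (fun i => ∑ j, (c i j : ℂ_[p]) • w j) (fun i => inChi_sum _ _ hw) h1 i
    exact Subtype.ext (Fintype.linearIndependent_iff.1 hwi _ h2 j)

/-- few logarithms are independent -/
theorem noRel_of_sepd {χ : (N ≃ₐ[K] N) →* ℂ_[p]ˣ}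
    {M : Type} [Field M] [NumberField M] (inc : M →+* ℂ_[p])
    (hinc : ∀ σ : N →+* ℂ_[p], ∃ τ : N →+* M, inc.comp τ = σ) (hsep : Sepd χ M) {d : ℕ}
    (w : Fin d → UM p N) (hwA : ∀ j, w j ∈ AU p N) (hw : ∀ j, InChi χ (w j))
    (hwi : LinearIndependent ℂ_[p] w) {m : ℕ} (hmd : m * (m - 1) < d) : NoRel χ m := by
  classical
  intro θ L hL m' hm' σ hσ x i0 hx hrel
  have : Algebra.IsAlgebraic K N := Algebra.IsAlgebraic.tower_top (K := ℚ) K
  choose l hl using fun τ : K →+* ℂ_[p] => exists_ext (H := N) τ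
  let τ : Fin m' → (K →+* ℂ_[p]) := fun i => (σ i).comp (algebraMap K N)
  have hτi : Function.Injective τ := by
    intro i j h
    apply hσ
    change InfinitePlace.mk ((θ : ℂ_[p] →+* ℂ).comp (τ i)) =
      InfinitePlace.mk ((θ : ℂ_[p] →+* ℂ).comp (τ j))
    rw [h]
  choose g hg using fun i => exists_aut (σ i) (l (τ i)) (hl (τ i)).symm
  have hnl : ¬ LinearIndependent ℂ_[p] (fun i => frm hL χ l (τ i)) := by
    rw [Fintype.not_linearIndependent_iff]
    refine ⟨fun i => x i * ((χ (g i) : ℂ_[p]ˣ) : ℂ_[p]), ?_, i0,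
      mul_ne_zero hx (Units.ne_zero _)⟩
    refine LinearMap.ext fun y => ?_
    rw [LinearMap.sum_apply, LinearMap.zero_apply, ← hrel y y.2]
    refine Finset.sum_congr rfl fun i _ => ?_
    rw [LinearMap.smul_apply, smul_eq_mul, mul_assoc]
    congr 1
    have h1 := logLin_inChi hL y.2 (l (τ i)) (g i)
    rw [← hg] at h1
    exact h1.symm
  have hm1 : 1 ≤ m' := by
    have := i0.2
    omega
  have hrk : Module.finrank ℂ_[p] (Submodule.span ℂ_[p]
      (Set.range fun i => frm hL χ l (τ i))) < m' := by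
    refine lt_of_le_of_ne ?_ fun h => hnl ?_
    · have h1 := finrank_range_le_card (R := ℂ_[p]) (fun i => frm hL χ l (τ i))
      rwa [Fintype.card_fin] at h1
    · rw [linearIndependent_iff_card_eq_finrank_span, Fintype.card_fin]
      exact h.symm
  have h1 := rank_set hL l hl inc hinc hsep w hwA hw hwi (Finset.univ.image τ)
  rw [Finset.card_image_of_injective _ hτi, Finset.card_univ, Fintype.card_fin, Finset.coe_image,
    Finset.coe_univ, Set.image_univ, ← Set.range_comp] at h1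
  have h2 : Module.finrank ℂ_[p] (Submodule.span ℂ_[p] (Set.range (frm hL χ l ∘ τ))) < m' := hrk
  have h3 : m' * (m' - 1) ≤ m * (m - 1) := Nat.mul_le_mul hm' (by omega)
  have h4 : m' * d ≤ (m' - 1) * (m' + d) :=
    h1.trans (Nat.mul_le_mul_right _ (by omega))
  obtain ⟨a, rfl⟩ : ∃ a, m' = a + 1 := ⟨m' - 1, by omega⟩
  have h5 : a + 1 - 1 = a := rfl
  rw [h5] at h3 h4
  nlinarith

end rank

end Pool.Agent.U157.SLK
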