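import Pool.Agent.U157.SLK.Rel

set_option autoImplicit false
set_option linter.unusedSectionVars false

/-!
# Two logarithms on a `χ`-part of dimension three are not proportional
-/

namespace Pool.Agent.U157.SLK

open NumberField TensorProduct Pool.Agent.W289.SL Pool.Agent.W332.SL6
open Pool.Agent.W254.PA (exists_theta LgP Hyp LtE)

variable {p : ℕ} [Fact p.Prime]

section pair

variable {K H N : Type} [Field K] [NumberField K] [Field H] [NumberField H] [Field N]
    [NumberField N] [Algebra K H] [Algebra H N] [Algebra K N] [IsScalarTower K H N]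
    [FiniteDimensional K N] [IsGalois K N] [IsTotallyComplex K]

variable (H) in
/-- two logarithms are not proportional on the `χ`-part -/
theorem not_prop (θ : ℂ_[p] ≃+* ℂ) {χ : (N ≃ₐ[K] N) →* ℂ_[p]ˣ} (hχ : χ ≠ 1)
    (hker : ∀ g : N ≃ₐ[K] N, χ g = 1 ↔ ∀ y : H, g (algebraMap H N y) = algebraMap H N y)
    (hCM : ¬ IsCMField H)
    (c : K →+* K) (hconj : ∀ b : K →+* ℂ, (starRingEnd ℂ).comp b = b.comp c)
    (s : Fin 3 → (N →+* ℂ))
    (hs : Function.Injective fun i => InfinitePlace.mk ((s i).comp (algebraMap K N)))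
    {L : ℂ_[p] → ℂ_[p]} (hL : IsIwasawaLog p L) (σ σ' : N →+* ℂ_[p])
    (hne : σ.comp (algebraMap K N) ≠ σ'.comp (algebraMap K N)) (r : ℂ_[p])
    (h : ∀ y, InChi χ y → logLin hL σ' y = r * logLin hL σ y) : False := by
  classical
  obtain ⟨w, hwA, hw, hwi⟩ := exists_alg_indep θ hχ s hs
  have hr : IsAlgebraic ℚ r := rel_alg w hwA hw hwi hL σ' σ σ 1 0 r isAlgebraic_one
    isAlgebraic_zero (fun y hy => by rw [h y hy]; ring)
  have h' : ∀ y, InChi χ y → logLin hL σ' y = r * logLin hL σ y + 0 * logLin hL σ y :=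
    fun y hy => by rw [h y hy]; ring
  have hlam : ∀ y, InChi χ y → lam θ ((θ : ℂ_[p] →+* ℂ).comp σ') y =
      r * lam θ ((θ : ℂ_[p] →+* ℂ).comp σ) y := by
    intro y hy
    rw [rel_lam θ hL σ' σ σ r 0 hr isAlgebraic_zero h' hy]
    ring
  have h01 : InfinitePlace.mk ((s 0).comp (algebraMap K N)) ≠
      InfinitePlace.mk ((s 1).comp (algebraMap K N)) := fun h => by
    have := hs h
    simp at this
  have hex : ∀ t : N →+* ℂ, ∃ y, InChi χ y ∧ lam θ t y ≠ 0 := by
    intro t
    obtain ⟨u, hu⟩ := exists_ne θ hχ (s 0) (s 1) h01 t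
    exact ⟨_, xu_inChi χ u, hu⟩
  by_cases hp : InfinitePlace.mk (((θ : ℂ_[p] →+* ℂ).comp σ).comp (algebraMap K N)) =
      InfinitePlace.mk (((θ : ℂ_[p] →+* ℂ).comp σ').comp (algebraMap K N))
  · rcases InfinitePlace.mk_eq_iff.1 hp with h1 | h1
    · apply hne
      ext k
      exact θ.injective (RingHom.congr_fun h1 k)
    · have h1' : (starRingEnd ℂ).comp (((θ : ℂ_[p] →+* ℂ).comp σ).comp (algebraMap K N)) =
          ((θ : ℂ_[p] →+* ℂ).comp σ').comp (algebraMap K N) := h1
      obtain ⟨g, hg⟩ := exists_aut (K := K) ((starRingEnd ℂ).comp ((θ : ℂ_[p] →+* ℂ).comp σ'))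
        ((θ : ℂ_[p] →+* ℂ).comp σ) (by
          rw [RingHom.comp_assoc, ← h1']
          exact RingHom.ext fun k => Complex.conj_conj _)
      have hlam' : ∀ y, InChi χ y → lam θ ((θ : ℂ_[p] →+* ℂ).comp σ') y =
          ((χ g : ℂ_[p]ˣ) : ℂ_[p]) * lam θ ((θ : ℂ_[p] →+* ℂ).comp σ) y := by
        intro y hy
        rw [← lam_conj, hg, lam_inChi θ hy]
      have hrg : r = ((χ g : ℂ_[p]ˣ) : ℂ_[p]) := by
        obtain ⟨y, hy, hy0⟩ := hex ((θ : ℂ_[p] →+* ℂ).comp σ)
        apply mul_right_cancel₀ hy0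
        rw [← hlam y hy, ← hlam' y hy]
      obtain ⟨M, iM, iN, iG, inc, hinc⟩ := exists_big p N
      obtain ⟨τ, hτ⟩ := hinc σ
      obtain ⟨τ', hτ'⟩ := hinc σ'
      obtain ⟨j, hj⟩ := conj_step' (H := H) θ hker (InChi χ) (fun y hy => hy) hex c hconj M
        (τ.comp (g : N →+* N)) τ' (by
          ext k
          apply inc.injective
          apply θ.injective
          have h2 := RingHom.congr_fun (hconj (((θ : ℂ_[p] →+* ℂ).comp σ).comp (algebraMap K N))) k
          have h3 := RingHom.congr_fun h1' k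
          have h4 : inc (τ' (algebraMap K N k)) = σ' (algebraMap K N k) :=
            RingHom.congr_fun hτ' _
          have h5 : inc (τ (algebraMap K N (c k))) = σ (algebraMap K N (c k)) :=
            RingHom.congr_fun hτ _
          change θ (inc (τ' (algebraMap K N k))) = θ (inc (τ (g (algebraMap K N (c k)))))
          rw [AlgEquiv.commutes, h4, h5]
          exact h3.symm.trans h2) (fun y hy => by
          rw [rel_push hL σ' σ σ r 0 hr isAlgebraic_zero h' inc τ' τ τ hτ' hτ hτ hy, zero_smul,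
            add_zero, ← push_push, ← actLin_eq (g : N →+* N), hy g, map_smul, hrg])
      have : IsTotallyComplex H := isTotallyComplex_of_algebra K H
      exact hCM (isCM_of_conj j hj)
  · have h1 := indep2 θ hχ _ _ hp r (-1) (fun u => by
      rw [hlam _ (xu_inChi χ u)]
      ring)
    exact one_ne_zero (neg_eq_zero.1 h1.2)

variable (H) in
/-- two vectors killed by the logarithms at two different embeddings of `K` are proportional -/
theorem prop_of_two (θ : ℂ_[p] ≃+* ℂ) {χ : (N ≃ₐ[K] N) →* ℂ_[p]ˣ} (hχ : χ ≠ 1)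
    (hker : ∀ g : N ≃ₐ[K] N, χ g = 1 ↔ ∀ y : H, g (algebraMap H N y) = algebraMap H N y)
    (hCM : ¬ IsCMField H)
    (c : K →+* K) (hconj : ∀ b : K →+* ℂ, (starRingEnd ℂ).comp b = b.comp c)
    (s : Fin 3 → (N →+* ℂ))
    (hs : Function.Injective fun i => InfinitePlace.mk ((s i).comp (algebraMap K N)))
    (hpl : ∀ w : InfinitePlace K, ∃ i, w = InfinitePlace.mk ((s i).comp (algebraMap K N)))
    {L : ℂ_[p] → ℂ_[p]} (hL : IsIwasawaLog p L) (σ σ' : N →+* ℂ_[p])
    (hne : σ.comp (algebraMap K N) ≠ σ'.comp (algebraMap K N))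
    {z z' : UM p N} (hz : InChi χ z) (hz' : InChi χ z') (hz0 : z ≠ 0)
    (h1 : logLin hL σ z = 0) (h2 : logLin hL σ' z = 0)
    (h3 : logLin hL σ z' = 0) (h4 : logLin hL σ' z' = 0) : ∃ a : ℂ_[p], z' = a • z := by
  classical
  by_contra hcon
  push Not at hcon
  obtain ⟨w, hwA, hw, hwi⟩ := exists_alg_indep θ hχ s hs
  have hw0 : logLin hL σ (w 0) ≠ 0 := fun h => hwi.ne_zero 0 (eq_zero_of_log hL σ (hwA 0) h)
  refine not_prop H θ hχ hker hCM c hconj s hs hL σ σ' hne
    (logLin hL σ' (w 0) / logLin hL σ (w 0)) (fun y hy => ?_)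
  obtain ⟨a, ⟨j, hj⟩, hsum⟩ := dep_of_places θ s hpl (by norm_num : 3 < 4) ![z, z', w 0, y]
    (by
      intro j
      fin_cases j
      · exact hz
      · exact hz'
      · exact hw 0
      · exact hy)
  rw [Fin.sum_univ_four] at hsum
  change a 0 • z + a 1 • z' + a 2 • w 0 + a 3 • y = 0 at hsum
  have e1 := congrArg (logLin hL σ) hsum
  have e2 := congrArg (logLin hL σ') hsum
  simp only [map_add, map_smul, map_zero, smul_eq_mul, h1, h2, h3, h4, mul_zero, zero_add]
    at e1 e2
  have ha3 : a 3 ≠ 0 := by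
    intro h0
    rw [h0, zero_mul, add_zero] at e1
    have ha2 := (mul_eq_zero.1 e1).resolve_right hw0
    rw [h0, ha2, zero_smul, zero_smul, add_zero, add_zero] at hsum
    have ha1 : a 1 = 0 := by
      by_contra ha1
      apply hcon (-((a 1)⁻¹ * a 0))
      rw [neg_smul, mul_smul, eq_neg_iff_add_eq_zero]
      have h5 := congrArg (fun v => (a 1)⁻¹ • v) hsum
      simp only [smul_add, smul_zero, inv_smul_smul₀ ha1] at h5
      rw [add_comm]
      exact h5
    rw [ha1, zero_smul, add_zero] at hsum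
    have ha0 := (smul_eq_zero.1 hsum).resolve_right hz0
    apply hj
    fin_cases j
    · exact ha0
    · exact ha1
    · exact ha2
    · exact h0
  rw [div_mul_eq_mul_div, eq_div_iff hw0]
  apply mul_left_cancel₀ ha3
  linear_combination logLin hL σ (w 0) * e2 - logLin hL σ' (w 0) * e1

end pair

end Pool.Agent.U157.SLK
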