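import Pool.Agent.U157.SLK.Types

set_option autoImplicit false
set_option linter.unusedSectionVars false

/-!
# The `χ`-part of the units and the infinite places
-/

namespace Pool.Agent.U157.SLK

open NumberField TensorProduct Pool.Agent.W289.SL Pool.Agent.W332.SL6
open Pool.Agent.W254.PA (exists_theta LgP Hyp LtE)

variable {p : ℕ} [Fact p.Prime]

section places

variable {K N : Type} [Field K] [NumberField K] [Field N] [NumberField N] [Algebra K N]
  [FiniteDimensional K N]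

/-- the real logarithms at different places of `K` are independent on the `χ`-part -/
theorem indepN [IsTotallyComplex K] (θ : ℂ_[p] ≃+* ℂ) {χ : (N ≃ₐ[K] N) →* ℂ_[p]ˣ} (hχ : χ ≠ 1)
    {ι : Type} [Fintype ι] (s : ι → (N →+* ℂ))
    (hs : Function.Injective fun i => InfinitePlace.mk ((s i).comp (algebraMap K N)))
    (c : ι → ℂ_[p])
    (h : ∀ u : Additive (𝓞 N)ˣ, ∑ i, c i * lam θ (s i) (xu χ u) = 0) (i : ι) : c i = 0 := by
  classical
  haveI : IsTotallyComplex N := isTotallyComplex_of_algebra K N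
  let f : InfinitePlace N → ℂ := fun w => ∑ i : ι,
    (∑ g : N ≃ₐ[K] N, if InfinitePlace.mk ((s i).comp (g : N →+* N)) = w then
      θ (c i) * θ ((χ g⁻¹ : ℂ_[p]ˣ) : ℂ_[p]) else 0)
  have hf : ∀ u : (𝓞 N)ˣ, ∑ w, f w * (Real.log (w (u : 𝓞 N)) : ℂ) = 0 := by
    intro u
    have h1 := congrArg θ (h (Additive.ofMul u))
    rw [map_sum, map_zero] at h1
    rw [← h1]
    have h2 : ∀ (t : N →+* ℂ) (d : ℂ_[p]), ∑ w : InfinitePlace N,
        (∑ g : N ≃ₐ[K] N, if InfinitePlace.mk (t.comp (g : N →+* N)) = w then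
          θ d * θ ((χ g⁻¹ : ℂ_[p]ˣ) : ℂ_[p]) else 0) * (Real.log (w (u : 𝓞 N)) : ℂ) =
        θ d * ∑ g : N ≃ₐ[K] N, θ ((χ g⁻¹ : ℂ_[p]ˣ) : ℂ_[p]) *
          ((Real.log (InfinitePlace.mk (t.comp (g : N →+* N)) (u : 𝓞 N)) : ℝ) : ℂ) := by
      intro t d
      simp only [Finset.sum_mul]
      rw [Finset.sum_comm, Finset.mul_sum]
      refine Finset.sum_congr rfl fun g _ => ?_
      rw [Finset.sum_eq_single (InfinitePlace.mk (t.comp (g : N →+* N)))]
      · rw [if_pos rfl]; ring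
      · intro w _ hw
        rw [if_neg (Ne.symm hw), zero_mul]
      · intro hw
        exact absurd (Finset.mem_univ _) hw
    have h3 : ∑ w, f w * (Real.log (w (u : 𝓞 N)) : ℂ) =
        ∑ i : ι, ∑ w : InfinitePlace N,
          (∑ g : N ≃ₐ[K] N, if InfinitePlace.mk ((s i).comp (g : N →+* N)) = w then
          θ (c i) * θ ((χ g⁻¹ : ℂ_[p]ˣ) : ℂ_[p]) else 0) * (Real.log (w (u : 𝓞 N)) : ℂ) := by
      rw [Finset.sum_comm]
      refine Finset.sum_congr rfl fun w _ => ?_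
      simp only [f]
      rw [Finset.sum_mul]
    rw [h3]
    refine Finset.sum_congr rfl fun i _ => ?_
    rw [h2, map_mul, lam_xu]
  have hconst := const_of_rel f hf
  obtain ⟨g0, hg0⟩ : ∃ g0 : N ≃ₐ[K] N, χ g0 ≠ 1 := by
    by_contra hcon
    push Not at hcon
    exact hχ (MonoidHom.ext hcon)
  have hv1 : ∀ g : N ≃ₐ[K] N, f (InfinitePlace.mk ((s i).comp (g : N →+* N))) =
      θ (c i) * θ ((χ g⁻¹ : ℂ_[p]ˣ) : ℂ_[p]) := by
    intro g
    simp only [f]
    rw [Finset.sum_eq_single i (fun j _ hj => Finset.sum_eq_zero fun g' _ => if_neg fun hh =>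
      mk_ne (s i) (s j) (fun h => hj (hs h).symm) g g' hh.symm)
      (fun hh => absurd (Finset.mem_univ _) hh),
      Finset.sum_eq_single g (fun g' _ hg' => if_neg (fun hh => hg' (mk_inj (s i) g' g hh)))
      (fun hh => absurd (Finset.mem_univ _) hh), if_pos rfl]
  have key : ∀ d : ℂ_[p], θ d * θ ((χ (g0⁻¹)⁻¹ : ℂ_[p]ˣ) : ℂ_[p]) =
      θ d * θ ((χ (1 : N ≃ₐ[K] N)⁻¹ : ℂ_[p]ˣ) : ℂ_[p]) → d = 0 := by
    intro d hd
    rw [inv_inv, inv_one, map_one, Units.val_one, map_one, mul_one, ← map_mul] at hd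
    have h3 := θ.injective hd
    by_contra hd0
    apply hg0
    apply Units.ext
    have h4 : d * ((χ g0 : ℂ_[p]ˣ) : ℂ_[p]) = d * 1 := by rw [h3, mul_one]
    exact mul_left_cancel₀ hd0 h4
  apply key
  rw [← hv1, ← hv1]
  exact hconst _ _

/-- the real logarithms as one map -/
noncomputable def lamV (θ : ℂ_[p] ≃+* ℂ) {ι : Type} (s : ι → (N →+* ℂ)) :
    UM p N →ₗ[ℂ_[p]] (ι → ℂ_[p]) := LinearMap.pi fun i => lam θ (s i)

lemma lamV_apply (θ : ℂ_[p] ≃+* ℂ) {ι : Type} (s : ι → (N →+* ℂ)) (x : UM p N) (i : ι) :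
    lamV θ s x i = lam θ (s i) x := rfl

/-- independent vectors with algebraic coordinates in the `χ`-part -/
theorem exists_alg_indep [IsTotallyComplex K] (θ : ℂ_[p] ≃+* ℂ) {χ : (N ≃ₐ[K] N) →* ℂ_[p]ˣ}
    (hχ : χ ≠ 1) {n : ℕ} (s : Fin n → (N →+* ℂ))
    (hs : Function.Injective fun i => InfinitePlace.mk ((s i).comp (algebraMap K N))) :
    ∃ w : Fin n → UM p N, (∀ j, w j ∈ AU p N) ∧ (∀ j, InChi χ (w j)) ∧
      LinearIndependent ℂ_[p] w := by
  classical
  have htop : Submodule.span ℂ_[p] (Set.range fun u => lamV θ s (xu χ u)) = ⊤ := by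
    by_contra hne
    obtain ⟨f, hf0, hf⟩ := Submodule.exists_le_ker_of_lt_top _ (lt_top_iff_ne_top.2 hne)
    apply hf0
    have h1 : ∀ v : Fin n → ℂ_[p], f v = ∑ i, f (Pi.single i 1) * v i := by
      intro v
      conv_lhs => rw [← Finset.univ_sum_single v]
      rw [map_sum]
      refine Finset.sum_congr rfl fun i _ => ?_
      have h2 : (Pi.single i (v i) : Fin n → ℂ_[p]) = v i • Pi.single i 1 := by
        rw [← Pi.single_smul, smul_eq_mul, mul_one]
      rw [h2, map_smul, smul_eq_mul, mul_comm]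
    have h2 := indepN θ hχ s hs (fun i => f (Pi.single i 1)) (fun u => by
      have h3 : f (lamV θ s (xu χ u)) = 0 :=
        LinearMap.mem_ker.1 (hf (Submodule.subset_span ⟨u, rfl⟩))
      rw [h1] at h3
      exact h3)
    ext i
    simpa using h2 i
  obtain ⟨f, hfs, -, hfl⟩ := Submodule.exists_fun_fin_finrank_span_eq ℂ_[p]
    (Set.range fun u => lamV θ s (xu χ u))
  have hn : n ≤ Module.finrank ℂ_[p]
      (Submodule.span ℂ_[p] (Set.range fun u => lamV θ s (xu χ u))) := by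
    rw [htop, finrank_top, Module.finrank_fin_fun]
  choose u hu using fun i => hfs (Fin.castLE hn i)
  refine ⟨fun j => xu χ (u j), fun j => xu_mem_AU χ _, fun j => xu_inChi χ _, ?_⟩
  apply LinearIndependent.of_comp (lamV θ s)
  have h1 : (lamV θ s) ∘ (fun j => xu χ (u j)) = f ∘ Fin.castLE hn := by
    funext j
    exact hu j
  rw [h1]
  exact hfl.comp _ (Fin.castLE_injective hn)

/-- a linear map which vanishes on the vectors `xu χ u` vanishes on the `χ`-part -/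
lemma all_of_xu {X : Type} [AddCommGroup X] [Module ℂ_[p] X] {χ : (N ≃ₐ[K] N) →* ℂ_[p]ˣ}
    (Φ : UM p N →ₗ[ℂ_[p]] X) (h : ∀ u, Φ (xu χ u) = 0) {y : UM p N} (hy : InChi χ y) :
    Φ y = 0 := by
  have h1 : ∀ y : UM p N, Φ (pr χ y) = 0 := by
    intro y
    induction y using TensorProduct.induction_on with
    | zero => rw [map_zero, map_zero]
    | tmul c u => rw [pr_tmul, map_smul, h, smul_zero]
    | add x y hx hy => rw [map_add, map_add, hx, hy, add_zero]
  have h2 := h1 y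
  rw [pr_self χ hy, map_smul] at h2
  exact (smul_eq_zero.1 h2).resolve_left card_ne

lemma inChi_sum {χ : (N ≃ₐ[K] N) →* ℂ_[p]ˣ} {ι : Type} [Fintype ι] (c : ι → ℂ_[p])
    (y : ι → UM p N) (hy : ∀ i, InChi χ (y i)) : InChi χ (∑ i, c i • y i) := by
  intro τ
  rw [map_sum, Finset.smul_sum]
  refine Finset.sum_congr rfl fun i _ => ?_
  rw [map_smul, hy i, smul_comm]

lemma eq_zero_of_places [IsGalois K N] (θ : ℂ_[p] ≃+* ℂ) {χ : (N ≃ₐ[K] N) →* ℂ_[p]ˣ}
    {ι : Type} (s : ι → (N →+* ℂ))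
    (hpl : ∀ w : InfinitePlace K, ∃ i, w = InfinitePlace.mk ((s i).comp (algebraMap K N)))
    {y : UM p N} (hy : InChi χ y) (h : ∀ i, lam θ (s i) y = 0) : y = 0 := by
  apply eq_zero_of_lam θ
  intro t
  obtain ⟨i, hi⟩ := hpl (InfinitePlace.mk (t.comp (algebraMap K N)))
  exact lam_zero_of_place θ hy t (s i) hi (h i)

/-- more vectors than places are dependent -/
lemma dep_of_places [IsGalois K N] (θ : ℂ_[p] ≃+* ℂ) {χ : (N ≃ₐ[K] N) →* ℂ_[p]ˣ}
    {n m : ℕ} (s : Fin n → (N →+* ℂ))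
    (hpl : ∀ w : InfinitePlace K, ∃ i, w = InfinitePlace.mk ((s i).comp (algebraMap K N)))
    (hnm : n < m) (y : Fin m → UM p N) (hy : ∀ j, InChi χ (y j)) :
    ∃ c : Fin m → ℂ_[p], (∃ j, c j ≠ 0) ∧ ∑ j, c j • y j = 0 := by
  have h1 : ¬ LinearIndependent ℂ_[p] (fun j => lamV θ s (y j)) := by
    intro h
    have h2 := h.fintype_card_le_finrank
    rw [Module.finrank_fin_fun, Fintype.card_fin] at h2
    omega
  rw [Fintype.not_linearIndependent_iff] at h1
  obtain ⟨c, hc, j, hj⟩ := h1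
  refine ⟨c, ⟨j, hj⟩, eq_zero_of_places θ s hpl (inChi_sum c y hy) fun i => ?_⟩
  have h2 := congrFun hc i
  rw [Finset.sum_apply] at h2
  rw [map_sum]
  refine Eq.trans (Finset.sum_congr rfl fun j _ => ?_) h2
  rw [map_smul]
  rfl

end places

end Pool.Agent.U157.SLK
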