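import Pool.Agent.U157.SLK.Places

set_option autoImplicit false
set_option linter.unusedSectionVars false

/-!
# Relations between two or three logarithms on a `χ`-part of dimension three
-/

namespace Pool.Agent.U157.SLK

open NumberField TensorProduct Pool.Agent.W289.SL Pool.Agent.W332.SL6
open Pool.Agent.W254.PA (exists_theta LgP Hyp LtE)

variable {p : ℕ} [Fact p.Prime]

section rel

variable {K N : Type} [Field K] [NumberField K] [Field N] [NumberField N] [Algebra K N]
  [FiniteDimensional K N]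

/-- in a relation between three logarithms with one ratio, the ratio is algebraic -/
theorem rel_alg {χ : (N ≃ₐ[K] N) →* ℂ_[p]ˣ} (w : Fin 3 → UM p N) (hwA : ∀ j, w j ∈ AU p N)
    (hw : ∀ j, InChi χ (w j)) (hwi : LinearIndependent ℂ_[p] w)
    {L : ℂ_[p] → ℂ_[p]} (hL : IsIwasawaLog p L) (σ0 σ1 σ2 : N →+* ℂ_[p]) (c1 c2 x : ℂ_[p])
    (h1 : IsAlgebraic ℚ c1) (h2 : IsAlgebraic ℚ c2)
    (h : ∀ y, InChi χ y → logLin hL σ0 y = x * (c1 * logLin hL σ1 y + c2 * logLin hL σ2 y)) :
    IsAlgebraic ℚ x := by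
  by_contra hx
  have hli : LinearIndependent (algebraicClosure ℚ ℂ_[p]) ![x, -1] := by
    rw [LinearIndependent.pair_iff]
    intro s t hst
    have hst' : (s : ℂ_[p]) * x + (t : ℂ_[p]) * (-1) = 0 := hst
    have hs : (s : ℂ_[p]) = 0 := by
      by_contra hs
      apply hx
      have h1 : x = t * (s : ℂ_[p])⁻¹ := by
        field_simp
        linear_combination hst'
      rw [h1]
      exact (mem_algebraicClosure_iff.1 t.2).mul (mem_algebraicClosure_iff.1 s.2).inv
    rw [hs, zero_mul, zero_add, mul_neg_one, neg_eq_zero] at hst'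
    exact ⟨Subtype.ext hs, Subtype.ext hst'⟩
  have h3 := hypC (p := p) 2 3 ![x, -1]
    (fun i j => ![logLin hL σ1 (c1 • w j) + logLin hL σ2 (c2 • w j), logLin hL σ0 (w j)] i) hli
    (fun i j => by
      fin_cases i
      · exact add_mem (logLin_mem hL _ (smul_mem_AU (hwA j) h1))
          (logLin_mem hL _ (smul_mem_AU (hwA j) h2))
      · exact logLin_mem hL _ (hwA j))
    (fun j => by
      rw [Fin.sum_univ_two]
      change x * (logLin hL σ1 (c1 • w j) + logLin hL σ2 (c2 • w j)) +
        (-1) * logLin hL σ0 (w j) = 0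
      rw [map_smul, map_smul, h _ (hw j), smul_eq_mul, smul_eq_mul]
      ring) (by
    rw [Fintype.linearIndependent_iff]
    intro g hg
    have h4 := congrFun hg 1
    rw [Finset.sum_apply] at h4
    have h5 : ∑ j, (g j : ℂ_[p]) • w j = 0 := by
      apply eq_zero_of_log hL σ0 (Submodule.sum_mem _ fun j _ =>
        smul_mem_AU (hwA j) (mem_algebraicClosure_iff.1 (g j).2))
      rw [map_sum]
      refine Eq.trans (Finset.sum_congr rfl fun j _ => ?_) h4
      rw [map_smul]
      rfl
    intro j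
    exact Subtype.ext (Fintype.linearIndependent_iff.1 hwi _ h5 j))
  omega

/-- a relation between logarithms with algebraic coefficients holds in the units of `M` -/
theorem rel_push {χ : (N ≃ₐ[K] N) →* ℂ_[p]ˣ}
    {L : ℂ_[p] → ℂ_[p]} (hL : IsIwasawaLog p L) (σ0 σ1 σ2 : N →+* ℂ_[p]) (c1 c2 : ℂ_[p])
    (h1 : IsAlgebraic ℚ c1) (h2 : IsAlgebraic ℚ c2)
    (h : ∀ y, InChi χ y → logLin hL σ0 y = c1 * logLin hL σ1 y + c2 * logLin hL σ2 y)
    {M : Type} [Field M] [NumberField M] (inc : M →+* ℂ_[p]) (τ0 τ1 τ2 : N →+* M)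
    (h0 : inc.comp τ0 = σ0) (h1' : inc.comp τ1 = σ1) (h2' : inc.comp τ2 = σ2)
    {y : UM p N} (hy : InChi χ y) : push τ0 y = c1 • push τ1 y + c2 • push τ2 y := by
  have h3 := all_of_xu (χ := χ) (push τ0 - (c1 • push τ1 + c2 • push τ2)) (fun u => by
    apply eq_zero_of_log hL inc
    · rw [LinearMap.sub_apply, LinearMap.add_apply, LinearMap.smul_apply, LinearMap.smul_apply]
      exact sub_mem (push_mem_AU τ0 (xu_mem_AU χ u)) (add_mem
        (smul_mem_AU (push_mem_AU τ1 (xu_mem_AU χ u)) h1)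
        (smul_mem_AU (push_mem_AU τ2 (xu_mem_AU χ u)) h2))
    · rw [LinearMap.sub_apply, LinearMap.add_apply, LinearMap.smul_apply, LinearMap.smul_apply,
        map_sub, map_add, map_smul, map_smul, logLin_push, logLin_push, logLin_push, h0, h1', h2',
        h _ (xu_inChi χ u), smul_eq_mul, smul_eq_mul, sub_self]) hy
  rw [LinearMap.sub_apply, LinearMap.add_apply, LinearMap.smul_apply, LinearMap.smul_apply,
    sub_eq_zero] at h3
  exact h3

/-- the same for the real logarithms -/
theorem rel_lam (θ : ℂ_[p] ≃+* ℂ) {χ : (N ≃ₐ[K] N) →* ℂ_[p]ˣ}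
    {L : ℂ_[p] → ℂ_[p]} (hL : IsIwasawaLog p L) (σ0 σ1 σ2 : N →+* ℂ_[p]) (c1 c2 : ℂ_[p])
    (h1 : IsAlgebraic ℚ c1) (h2 : IsAlgebraic ℚ c2)
    (h : ∀ y, InChi χ y → logLin hL σ0 y = c1 * logLin hL σ1 y + c2 * logLin hL σ2 y)
    {y : UM p N} (hy : InChi χ y) : lam θ ((θ : ℂ_[p] →+* ℂ).comp σ0) y =
      c1 * lam θ ((θ : ℂ_[p] →+* ℂ).comp σ1) y + c2 * lam θ ((θ : ℂ_[p] →+* ℂ).comp σ2) y := by
  obtain ⟨M, iM, iN, iG, inc, hinc⟩ := exists_big p N
  obtain ⟨τ0, h0⟩ := hinc σ0
  obtain ⟨τ1, h1'⟩ := hinc σ1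
  obtain ⟨τ2, h2'⟩ := hinc σ2
  have h3 := rel_push hL σ0 σ1 σ2 c1 c2 h1 h2 h inc τ0 τ1 τ2 h0 h1' h2' hy
  have h4 := congrArg (lam θ ((θ : ℂ_[p] →+* ℂ).comp inc)) h3
  rw [map_add, map_smul, map_smul, lam_push, lam_push, lam_push, RingHom.comp_assoc,
    RingHom.comp_assoc, RingHom.comp_assoc, h0, h1', h2', smul_eq_mul, smul_eq_mul] at h4
  exact h4

end rel

/-- equality of two embeddings on a part of the `χ`-part forces `H` to be a CM field -/
theorem conj_step' {K H N : Type} [Field K] [NumberField K] [Field H] [NumberField H] [Field N]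
    [NumberField N] [Algebra K H] [Algebra H N] [Algebra K N] [IsScalarTower K H N]
    [FiniteDimensional K N] [IsGalois K N]
    (θ : ℂ_[p] ≃+* ℂ) {χ : (N ≃ₐ[K] N) →* ℂ_[p]ˣ}
    (hker : ∀ g : N ≃ₐ[K] N, χ g = 1 ↔ ∀ y : H, g (algebraMap H N y) = algebraMap H N y)
    (P : UM p N → Prop) (hP : ∀ y, P y → InChi χ y)
    (hPne : ∀ s : N →+* ℂ, ∃ y, P y ∧ lam θ s y ≠ 0)
    (c : K →+* K) (hconj : ∀ b : K →+* ℂ, (starRingEnd ℂ).comp b = b.comp c)
    (M : Type) [Field M] [NumberField M] [IsGalois ℚ M] (f h : N →+* M)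
    (hfh : h.comp (algebraMap K N) = (f.comp (algebraMap K N)).comp c)
    (hp : ∀ y, P y → push h y = push f y) :
    ∃ j : H →+* H, ∀ (s : H →+* ℂ) (y : H), s (j y) = star (s y) := by
  classical
  let fH : H →+* M := f.comp (algebraMap H N)
  let hH : H →+* M := h.comp (algebraMap H N)
  -- Galois theory: the image of `hH` lies in the image of `fH`
  have hrange : ∀ y : H, ∃ z : H, fH z = hH y := by
    intro y
    let E : IntermediateField ℚ M := (RingHom.toRatAlgHom fH).fieldRange
    have hE : ∀ z : H, fH z ∈ E := fun z => ⟨z, rfl⟩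
    have hy : hH y ∈ E := by
      rw [← IsGalois.fixedField_fixingSubgroup E, IntermediateField.mem_fixedField_iff]
      intro γ hγ
      rw [IntermediateField.mem_fixingSubgroup_iff] at hγ
      have hγf : ∀ z : H, γ (fH z) = fH z := fun z => hγ _ (hE z)
      have hKf : ∀ k : K, γ (f (algebraMap K N k)) = f (algebraMap K N k) := by
        intro k
        rw [IsScalarTower.algebraMap_apply K H N]
        exact hγf _
      obtain ⟨g, hg⟩ := exists_aut (K := K) ((γ : M →+* M).comp f) f (RingHom.ext hKf)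
      obtain ⟨τ, hτ⟩ := exists_aut (K := K) ((γ : M →+* M).comp h) h (by
        ext k
        have h1 := RingHom.congr_fun hfh k
        change γ (h (algebraMap K N k)) = h (algebraMap K N k)
        have h2 : h (algebraMap K N k) = f (algebraMap K N (c k)) := h1
        rw [h2]
        exact hKf _)
      have hg1 : χ g = 1 := by
        rw [hker]
        intro y
        have h1 := RingHom.congr_fun hg (algebraMap H N y)
        apply f.injective
        exact h1.symm.trans (hγf y)
      obtain ⟨t⟩ : Nonempty (M →+* ℂ) := inferInstance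
      obtain ⟨x, hxP, hu⟩ := hPne (t.comp h)
      have hx := hP x hxP
      have h1 : lam θ t (push ((γ : M →+* M).comp h) x) = lam θ (t.comp h) x := by
        rw [← push_push, hp _ hxP, push_push, hg, ← push_push, ← actLin_eq (g : N →+* N), hx g,
          hg1, Units.val_one, one_smul, ← hp _ hxP, lam_push]
      have h2 : lam θ t (push ((γ : M →+* M).comp h) x) =
          ((χ τ : ℂ_[p]ˣ) : ℂ_[p]) * lam θ (t.comp h) x := by
        rw [hτ, lam_push, ← RingHom.comp_assoc, lam_inChi θ hx]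
      rw [h1] at h2
      have h3 : χ τ = 1 := by
        apply Units.ext
        apply mul_right_cancel₀ hu
        rw [← h2, Units.val_one, one_mul]
      have h4 := (hker τ).1 h3 y
      have h5 := RingHom.congr_fun hτ (algebraMap H N y)
      change γ (h (algebraMap H N y)) = h (τ (algebraMap H N y)) at h5
      rw [h4] at h5
      exact h5
    obtain ⟨z, hz⟩ := hy
    exact ⟨z, hz⟩
  let j : H →+* H := (fH.rangeRestrictFieldEquiv.symm : fH.fieldRange →+* H).comp
    (hH.codRestrict fH.fieldRange (fun y => by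
      obtain ⟨z, hz⟩ := hrange y
      exact ⟨z, hz⟩))
  have hj : fH.comp j = hH := by
    ext y
    have h1 := fH.rangeRestrictFieldEquiv.apply_symm_apply
      (hH.codRestrict fH.fieldRange (fun y => by
      obtain ⟨z, hz⟩ := hrange y
      exact ⟨z, hz⟩) y)
    exact congrArg (fun z : fH.fieldRange => (z : M)) h1
  refine ⟨j, fun s y => ?_⟩
  -- extend `s` to `M` along `fH`
  obtain ⟨t, ht⟩ : ∃ t : M →+* ℂ, t.comp fH = s := by
    let := fH.toAlgebra
    let := s.toAlgebra
    have : Algebra.IsAlgebraic H M := Algebra.IsAlgebraic.tower_top (K := ℚ) H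
    let φ : M →ₐ[H] ℂ := IsAlgClosed.lift
    exact ⟨φ, φ.comp_algebraMap⟩
  obtain ⟨g, hg⟩ := exists_aut (K := K) ((starRingEnd ℂ).comp (t.comp f)) (t.comp h) (by
    ext k
    have h1 := RingHom.congr_fun (hconj (t.comp (f.comp (algebraMap K N)))) k
    have h2 := RingHom.congr_fun hfh k
    exact h1.trans (congrArg t h2).symm)
  obtain ⟨x, hxP, hu⟩ := hPne (t.comp f)
  have hx := hP x hxP
  have h2 : lam θ (t.comp f) x = ((χ g : ℂ_[p]ˣ) : ℂ_[p]) * lam θ (t.comp f) x := by
    calc lam θ (t.comp f) x = lam θ ((starRingEnd ℂ).comp (t.comp f)) x := (lam_conj θ _ _).symm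
      _ = ((χ g : ℂ_[p]ˣ) : ℂ_[p]) * lam θ (t.comp h) x := by rw [hg, lam_inChi θ hx]
      _ = _ := by rw [← lam_push, hp x hxP, lam_push]
  have h3 : χ g = 1 := by
    apply Units.ext
    apply mul_right_cancel₀ hu
    rw [← h2, Units.val_one, one_mul]
  have h4 := (hker g).1 h3 y
  have h5 := RingHom.congr_fun hg (algebraMap H N y)
  change star (t (f (algebraMap H N y))) = t (h (g (algebraMap H N y))) at h5
  rw [h4] at h5
  have h6 : t (fH (j y)) = t (h (algebraMap H N y)) := congrArg t (RingHom.congr_fun hj y)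
  rw [← ht]
  exact h6.trans h5.symm

end Pool.Agent.U157.SLK
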