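import Pool.Agent.U157.SLK.Mack

set_option autoImplicit false
set_option linter.unusedSectionVars false

/-!
# A CM type of small defect
-/

namespace Pool.Agent.U157.SLK

open NumberField TensorProduct Pool.Agent.W289.SL Pool.Agent.W332.SL6
open Pool.Agent.W254.PA (exists_theta)

section rk

variable {k W T : Type*} [Field k] [AddCommGroup W] [Module k W] (φ : T → W)

/-- the rank of a finite family -/
noncomputable def rk (k : Type*) [Field k] [Module k W] (φ : T → W) (S : Finset T) : ℕ :=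
  Module.finrank k (Submodule.span k (φ '' (S : Set T)))

lemma rk_fin (S : Finset T) : Module.Finite k (Submodule.span k (φ '' (S : Set T))) :=
  Module.Finite.span_of_finite k (S.finite_toSet.image φ)

lemma rk_mono {S S' : Finset T} (h : S ⊆ S') : rk k φ S ≤ rk k φ S' := by
  have := rk_fin (k := k) φ S'
  exact Submodule.finrank_mono (Submodule.span_mono (Set.image_mono (Finset.coe_subset.2 h)))

lemma rk_le_card (S : Finset T) : rk k φ S ≤ S.card := by
  classical
  unfold rk
  rw [← Finset.coe_image]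
  exact (finrank_span_finset_le_card _).trans Finset.card_image_le

lemma rk_submod [DecidableEq T] (S S' : Finset T) :
    rk k φ (S ∪ S') + rk k φ (S ∩ S') ≤ rk k φ S + rk k φ S' := by
  have h1 := rk_fin (k := k) φ S
  have h2 := rk_fin (k := k) φ S'
  have h3 := Submodule.finrank_sup_add_finrank_inf_eq
    (Submodule.span k (φ '' (S : Set T))) (Submodule.span k (φ '' (S' : Set T)))
  have h4 : rk k φ (S ∪ S') = Module.finrank k
      (Submodule.span k (φ '' (S : Set T)) ⊔ Submodule.span k (φ '' (S' : Set T)) : Submodule k W) := by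
    unfold rk
    rw [Finset.coe_union, Set.image_union, Submodule.span_union]
  have h5 : rk k φ (S ∩ S') ≤ Module.finrank k
      (Submodule.span k (φ '' (S : Set T)) ⊓ Submodule.span k (φ '' (S' : Set T)) : Submodule k W) := by
    apply Submodule.finrank_mono
    refine le_inf (Submodule.span_mono (Set.image_mono ?_)) (Submodule.span_mono (Set.image_mono ?_))
    · exact Finset.coe_subset.2 Finset.inter_subset_left
    · exact Finset.coe_subset.2 Finset.inter_subset_right
  change rk k φ (S ∪ S') + rk k φ (S ∩ S') ≤ _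
  have h6 : Module.finrank k (Submodule.span k (φ '' (S : Set T))) = rk k φ S := rfl
  have h7 : Module.finrank k (Submodule.span k (φ '' (S' : Set T))) = rk k φ S' := rfl
  omega

/-- Rado's theorem with defect `c` -/
theorem rado_defect {ι T : Type} [Fintype ι] [DecidableEq ι] [DecidableEq T] (φ : T → W) (c : ℕ)
    (Γ : ι → Finset T)
    (hΓ : ∀ Q : Finset ι, Q.card ≤ (Q.biUnion Γ).card ∧ Q.card ≤ rk k φ (Q.biUnion Γ) + c) :
    ∃ m : ι → T, Function.Injective m ∧ (∀ i, m i ∈ Γ i) ∧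
      Fintype.card ι ≤ rk k φ (Finset.univ.image m) + c := by
  obtain ⟨m, h1, h2, h3⟩ := Pool.Agent.Helper666.FinGen.rado
    (fun S : Finset T => ((min S.card (rk k φ S + c) : ℕ) : ℤ)) (fun S S' h => by
      have h1 := Finset.card_le_card h
      have h2 := rk_mono (k := k) φ h
      have h3 : min S.card (rk k φ S + c) ≤ min S'.card (rk k φ S' + c) := by omega
      exact_mod_cast h3) (fun A B => by
      have h1 := rk_submod (k := k) φ A B
      have h2 := Finset.card_union_add_card_inter A B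
      have h3 := rk_submod (k := k) φ B (A \ B)
      have h4 := rk_submod (k := k) φ A (B \ A)
      have h5 : B ∪ A \ B = A ∪ B := by
        rw [Finset.union_sdiff_self_eq_union, Finset.union_comm]
      have h6 : A ∪ B \ A = A ∪ B := Finset.union_sdiff_self_eq_union
      have h7 := rk_le_card (k := k) φ (A \ B)
      have h8 := rk_le_card (k := k) φ (B \ A)
      have h9 := Finset.card_sdiff_add_card_inter A B
      have h10 := Finset.card_sdiff_add_card_inter B A
      rw [Finset.inter_comm B A] at h10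
      rw [h5] at h3
      rw [h6] at h4
      have key : min (A ∪ B).card (rk k φ (A ∪ B) + c) + min (A ∩ B).card (rk k φ (A ∩ B) + c) ≤
          min A.card (rk k φ A + c) + min B.card (rk k φ B + c) := by omega
      exact_mod_cast key) (fun S => by
      have : min S.card (rk k φ S + c) ≤ S.card := min_le_left _ _
      exact_mod_cast this) Γ (fun Q => by
      have : Q.card ≤ min (Q.biUnion Γ).card (rk k φ (Q.biUnion Γ) + c) :=
        le_min (hΓ Q).1 (hΓ Q).2
      exact_mod_cast this)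
  refine ⟨m, h1, h2, ?_⟩
  have h4 : Fintype.card ι ≤ min (Finset.univ.image m).card (rk k φ (Finset.univ.image m) + c) := by
    exact_mod_cast h3
  exact h4.trans (min_le_right _ _)

end rk

lemma arith0 {q d u t : ℤ} (hq : q ≤ d) (hq0 : 0 ≤ q) (ht : t ≤ d) (ht0 : 0 ≤ t)
    (hut : u ≤ t) (huq : u ≤ q) :
    ((3 * d - t) * q - d ^ 2) * ((2 * q - u) + d) ≤ (3 * d - t) * (2 * q - u) * d := by
  have hd0 : 0 ≤ d := hq0.trans hq
  have hE : 0 ≤ 3 * d - t := by linarith
  have hA : 0 ≤ (3 * d - t) * (d - q) + d ^ 2 :=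
    add_nonneg (mul_nonneg hE (sub_nonneg.2 hq)) (sq_nonneg d)
  rcases le_total t q with h | h
  · have h1 : (3 * d - t) * (2 * q - u) * d - ((3 * d - t) * q - d ^ 2) * ((2 * q - u) + d) =
        (t - u) * ((3 * d - t) * (d - q) + d ^ 2) +
          (d - q) * ((d ^ 2 + t * (2 * d - t)) + 2 * (3 * d - t) * (q - t)) := by ring
    have h2 : 0 ≤ (t - u) * ((3 * d - t) * (d - q) + d ^ 2) :=
      mul_nonneg (sub_nonneg.2 hut) hA
    have h3 : 0 ≤ (d - q) * ((d ^ 2 + t * (2 * d - t)) + 2 * (3 * d - t) * (q - t)) := by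
      refine mul_nonneg (sub_nonneg.2 hq) (add_nonneg (add_nonneg (sq_nonneg d) ?_) ?_)
      · exact mul_nonneg ht0 (by linarith)
      · exact mul_nonneg (by linarith) (sub_nonneg.2 h)
    linarith
  · have h1 : (3 * d - t) * (2 * q - u) * d - ((3 * d - t) * q - d ^ 2) * ((2 * q - u) + d) =
        (q - u) * ((3 * d - t) * (d - q) + d ^ 2) +
          ((t - q) * q ^ 2 + (d - q) * (d ^ 2 + q * (2 * d - q))) := by ring
    have h2 : 0 ≤ (q - u) * ((3 * d - t) * (d - q) + d ^ 2) :=
      mul_nonneg (sub_nonneg.2 huq) hA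
    have h3 : 0 ≤ (t - q) * q ^ 2 + (d - q) * (d ^ 2 + q * (2 * d - q)) := by
      refine add_nonneg (mul_nonneg (sub_nonneg.2 h) (sq_nonneg q))
        (mul_nonneg (sub_nonneg.2 hq) (add_nonneg (sq_nonneg d) (mul_nonneg hq0 (by linarith))))
    linarith

lemma arith {q d r u t : ℕ} (hd : 1 ≤ d) (hq : q ≤ d) (ht : t ≤ d) (hut : u ≤ t) (huq : u ≤ q)
    (h : (2 * q - u) * d ≤ r * ((2 * q - u) + d)) : q ≤ r + d ^ 2 / (3 * d - t) := by
  by_contra hcon
  push Not at hcon
  have hE : 0 < 3 * d - t := by omega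
  have h1 : d ^ 2 < (3 * d - t) * (d ^ 2 / (3 * d - t) + 1) := Nat.lt_mul_div_succ _ hE
  set c := d ^ 2 / (3 * d - t) with hc
  obtain ⟨a, ha⟩ : ∃ a, a = 2 * q - u := ⟨_, rfl⟩
  obtain ⟨E, hE'⟩ : ∃ E, E = 3 * d - t := ⟨_, rfl⟩
  rw [← ha] at h
  rw [← hE'] at h1 hE
  have ha' : (a : ℤ) = 2 * q - u := by omega
  have hE2 : (E : ℤ) = 3 * d - t := by omega
  have h2 := arith0 (q := q) (d := d) (u := u) (t := t) (by exact_mod_cast hq) (by positivity)
    (by exact_mod_cast ht) (by positivity) (by exact_mod_cast hut) (by exact_mod_cast huq)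
  rw [← ha', ← hE2] at h2
  have h3 : (r : ℤ) + c + 1 ≤ q := by exact_mod_cast hcon
  have h4 : (d : ℤ) ^ 2 < E * (c + 1) := by exact_mod_cast h1
  have h5 : (a : ℤ) * d ≤ r * (a + d) := by exact_mod_cast h
  have hEp : (0 : ℤ) < E := by exact_mod_cast hE
  have had : (0 : ℤ) < a + d := by positivity
  have h6 : (E : ℤ) * a * d ≤ E * (q - (c + 1)) * (a + d) := by
    calc (E : ℤ) * a * d = E * (a * d) := by ring
      _ ≤ E * (r * (a + d)) := mul_le_mul_of_nonneg_left h5 hEp.le
      _ ≤ E * ((q - (c + 1)) * (a + d)) :=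
        mul_le_mul_of_nonneg_left (mul_le_mul_of_nonneg_right (by linarith) had.le) hEp.le
      _ = E * (q - (c + 1)) * (a + d) := by ring
  have h7 : (E : ℤ) * (q - (c + 1)) * (a + d) < (E * q - d ^ 2) * (a + d) :=
    mul_lt_mul_of_pos_right (by linarith) had
  linarith

variable {p : ℕ} [Fact p.Prime]

section small

variable {K N : Type} [Field K] [NumberField K] [Field N] [NumberField N] [Algebra K N]
  [FiniteDimensional K N] [IsGalois K N] [IsTotallyComplex K]

lemma ne_kap (θ : ℂ_[p] ≃+* ℂ) (τ : K →+* ℂ_[p]) : (kap θ).comp τ ≠ τ := by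
  intro h
  have h1 := congrArg (fun b : K →+* ℂ_[p] => (θ : ℂ_[p] →+* ℂ).comp b) h
  simp only [theta_kap] at h1
  refine IsTotallyComplex.complexEmbedding_not_isReal ((θ : ℂ_[p] →+* ℂ).comp τ) ?_
  rw [ComplexEmbedding.isReal_iff]
  exact h1

/-- **A CM type of small defect**, with given choices at some places. -/
theorem exists_small {F : Type} [Field F] [Algebra F K] {χ : (N ≃ₐ[K] N) →* ℂ_[p]ˣ}
    (hc : ∃ c : K ≃ₐ[F] K, c ≠ 1)
    (hc' : ∀ c : K ≃ₐ[F] K, c ≠ 1 → ∀ b : K →+* ℂ, (starRingEnd ℂ).comp b = b.comp (c : K →+* K))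
    {d : ℕ} (hd : 1 ≤ d) (s : Fin d → (N →+* ℂ))
    (hs : Function.Injective fun i => InfinitePlace.mk ((s i).comp (algebraMap K N)))
    (hpl : ∀ w : InfinitePlace K, ∃ i, w = InfinitePlace.mk ((s i).comp (algebraMap K N)))
    {M : Type} [Field M] [NumberField M] (inc : M →+* ℂ_[p])
    (hinc : ∀ σ : N →+* ℂ_[p], ∃ τ : N →+* M, inc.comp τ = σ) (hsep : Sepd χ M)
    (w : Fin d → UM p N) (hwA : ∀ j, w j ∈ AU p N) (hw : ∀ j, InChi χ (w j))
    (hwi : LinearIndependent ℂ_[p] w)
    (S : Set (K →+* ℂ_[p])) (hS : IsCMType p F K S) (T : Finset (K →+* ℂ_[p])) :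
    ∃ S' : Set (K →+* ℂ_[p]), IsCMType p F K S' ∧ (∀ τ ∈ T, (τ ∈ S' ↔ τ ∈ S)) ∧
      (3 * d - T.card) * Module.finrank ℂ_[p] (kerS χ S') ≤ d ^ 2 := by
  classical
  obtain ⟨θ⟩ := exists_theta p
  obtain ⟨L, hL⟩ := exists_iwasawaLog p
  obtain ⟨c, hc1⟩ := hc
  have hbar : ∀ (c' : K ≃ₐ[F] K), c' ≠ 1 → ∀ τ : K →+* ℂ_[p],
      τ.comp (c' : K →+* K) = (kap θ).comp τ := by
    intro c' hc1' τ
    ext x
    apply θ.injective
    have h1 := RingHom.congr_fun (hc' c' hc1' ((θ : ℂ_[p] →+* ℂ).comp τ)) x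
    change θ (τ (c' x)) = θ (kap θ (τ x))
    rw [theta_kap_apply]
    exact h1.symm
  have hSk : ∀ τ : K →+* ℂ_[p], τ ∈ S ↔ (kap θ).comp τ ∉ S := by
    intro τ
    rw [← hbar c hc1]
    exact hS c hc1 τ
  have : Algebra.IsAlgebraic K N := Algebra.IsAlgebraic.tower_top (K := ℚ) K
  choose l hl using fun τ : K →+* ℂ_[p] => exists_ext (H := N) τ
  -- the places
  let t : Fin d → (K →+* ℂ_[p]) := fun i => (θ.symm : ℂ →+* ℂ_[p]).comp ((s i).comp (algebraMap K N))
  have ht : ∀ i, (θ : ℂ_[p] →+* ℂ).comp (t i) = (s i).comp (algebraMap K N) :=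
    fun i => RingHom.ext fun x => θ.apply_symm_apply _
  let Γ0 : Fin d → Finset (K →+* ℂ_[p]) := fun i => {t i, (kap θ).comp (t i)}
  have hΓ0pl : ∀ i, ∀ τ ∈ Γ0 i, InfinitePlace.mk ((θ : ℂ_[p] →+* ℂ).comp τ) =
      InfinitePlace.mk ((s i).comp (algebraMap K N)) := by
    intro i τ hτ
    rw [Finset.mem_insert, Finset.mem_singleton] at hτ
    rcases hτ with rfl | rfl
    · rw [ht]
    · rw [place_kap, ht]
  have hΓ0i : ∀ i j τ, τ ∈ Γ0 i → τ ∈ Γ0 j → i = j := by
    intro i j τ hi hj
    apply hs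
    exact (hΓ0pl i τ hi).symm.trans (hΓ0pl j τ hj)
  have hΓ02 : ∀ i, (Γ0 i).card = 2 := fun i => Finset.card_pair (ne_kap θ (t i)).symm
  have hΓ0k : ∀ i τ, τ ∈ Γ0 i → (kap θ).comp τ ∈ Γ0 i := by
    intro i τ hi
    rw [Finset.mem_insert, Finset.mem_singleton] at hi ⊢
    rcases hi with rfl | rfl
    · exact Or.inr rfl
    · exact Or.inl (kap_comp_kap θ _)
  have hΓ0e : ∀ i τ τ', τ ∈ Γ0 i → τ' ∈ Γ0 i → τ' = τ ∨ τ' = (kap θ).comp τ := by
    intro i τ τ' h h'
    rw [Finset.mem_insert, Finset.mem_singleton] at h h'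
    rcases h with rfl | rfl
    · exact h'
    · rw [kap_comp_kap]
      exact h'.symm
  have hcov : ∀ τ : K →+* ℂ_[p], ∃ i, τ ∈ Γ0 i := by
    intro τ
    obtain ⟨i, hi⟩ := hpl (InfinitePlace.mk ((θ : ℂ_[p] →+* ℂ).comp τ))
    rw [← ht] at hi
    refine ⟨i, ?_⟩
    rw [Finset.mem_insert, Finset.mem_singleton]
    rcases same_place θ hi with h | h
    · exact Or.inl h
    · right
      rw [← h, kap_comp_kap]
  choose idx hidx using hcov
  let I : Finset (Fin d) := T.image idx
  have hIT : I.card ≤ T.card := Finset.card_image_le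
  have hId : I.card ≤ d := by
    have h3 := Finset.card_le_univ I
    rwa [Fintype.card_fin] at h3
  -- the choice of `S`
  let e0 : Fin d → (K →+* ℂ_[p]) := fun i => if t i ∈ S then t i else (kap θ).comp (t i)
  have he0S : ∀ i, e0 i ∈ S := by
    intro i
    by_cases h : t i ∈ S
    · simp only [e0, if_pos h]; exact h
    · simp only [e0, if_neg h]
      by_contra h2
      exact h ((hSk _).2 h2)
  have he0Γ : ∀ i, e0 i ∈ Γ0 i := by
    intro i
    rw [Finset.mem_insert, Finset.mem_singleton]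
    by_cases h : t i ∈ S
    · left; exact if_pos h
    · right; exact if_neg h
  let Γ : Fin d → Finset (K →+* ℂ_[p]) := fun i => if i ∈ I then {e0 i} else Γ0 i
  have hΓ1 : ∀ i ∈ I, Γ i = {e0 i} := fun i hi => by simp only [Γ, if_pos hi]
  have hΓ2 : ∀ i, i ∉ I → Γ i = Γ0 i := fun i hi => by simp only [Γ, if_neg hi]
  have hΓ : ∀ i, Γ i ⊆ Γ0 i := by
    intro i
    by_cases hi : i ∈ I
    · rw [hΓ1 i hi, Finset.singleton_subset_iff]
      exact he0Γ i
    · rw [hΓ2 i hi]
  have hcard : ∀ Q : Finset (Fin d), (Q.biUnion Γ).card + (Q.filter fun i => i ∈ I).card =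
      2 * Q.card := by
    intro Q
    rw [Finset.card_biUnion (fun i _ j _ hij => by
      change Disjoint (Γ i) (Γ j)
      rw [Finset.disjoint_left]
      intro τ hi hj
      exact hij (hΓ0i i j τ (hΓ i hi) (hΓ j hj))), Finset.card_filter, ← Finset.sum_add_distrib,
      Finset.sum_congr rfl (g := fun _ => 2), Finset.sum_const, smul_eq_mul, mul_comm]
    intro i _
    by_cases hi : i ∈ I
    · rw [hΓ1 i hi, if_pos hi, Finset.card_singleton]
    · rw [hΓ2 i hi, if_neg hi, hΓ02]
  obtain ⟨m, hmi, hmΓ, hmr⟩ := rado_defect (k := ℂ_[p]) (frm hL χ l) (d ^ 2 / (3 * d - I.card)) Γ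
    (fun Q => by
    have h1 := rank_set hL l hl inc hinc hsep w hwA hw hwi (Q.biUnion Γ)
    have h2 : Q.card ≤ d := by
      have h3 := Finset.card_le_univ Q
      rwa [Fintype.card_fin] at h3
    have h3 : Module.finrank ℂ_[p] (Submodule.span ℂ_[p]
      (frm hL χ l '' ((Q.biUnion Γ : Finset (K →+* ℂ_[p])) : Set (K →+* ℂ_[p])))) =
        rk ℂ_[p] (frm hL χ l) (Q.biUnion Γ) := rfl
    have h4 := hcard Q
    have h5 : (Q.filter fun i => i ∈ I).card ≤ Q.card := Finset.card_filter_le _ _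
    have h6 : (Q.filter fun i => i ∈ I).card ≤ I.card := by
      apply Finset.card_le_card
      intro i hi
      exact (Finset.mem_filter.1 hi).2
    have h7 : (Q.biUnion Γ).card = 2 * Q.card - (Q.filter fun i => i ∈ I).card := by omega
    rw [h3, h7] at h1
    exact ⟨by omega, arith hd h2 hId h6 h5 h1⟩)
  rw [Fintype.card_fin] at hmr
  have hmΓ0 : ∀ i, m i ∈ Γ0 i := fun i => hΓ i (hmΓ i)
  let S' : Set (K →+* ℂ_[p]) := Set.range m
  have hS' : ∀ i τ, τ ∈ Γ0 i → (τ ∈ S' ↔ τ = m i) := by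
    intro i τ hτ
    constructor
    · rintro ⟨j, rfl⟩
      rw [hΓ0i i j _ hτ (hmΓ0 j)]
    · rintro rfl
      exact ⟨i, rfl⟩
  refine ⟨S', ?_, ?_, ?_⟩
  · intro c' hc1' τ
    rw [hbar c' hc1']
    have hi := hidx τ
    rw [hS' _ τ hi, hS' _ _ (hΓ0k _ _ hi)]
    have h2 := hΓ0e _ _ _ hi (hmΓ0 (idx τ))
    constructor
    · intro h3 h4
      exact ne_kap θ τ (h4.trans h3.symm)
    · intro h3
      rcases h2 with h2 | h2
      · exact h2.symm
      · exact absurd h2.symm h3
  · intro τ hτ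
    have hi := hidx τ
    have hI : idx τ ∈ I := Finset.mem_image_of_mem idx hτ
    have h1 := hmΓ (idx τ)
    rw [hΓ1 _ hI, Finset.mem_singleton] at h1
    rw [hS' _ τ hi, h1]
    constructor
    · intro h2
      rw [h2]
      exact he0S _
    · intro h2
      rcases hΓ0e _ _ _ hi (he0Γ (idx τ)) with h3 | h3
      · exact h3.symm
      · have h4 := he0S (idx τ)
        rw [h3] at h4
        exact absurd h4 ((hSk τ).1 h2)
  · rw [finrank_kerS hL χ l hl]
    have h1 : kerOf (frm hL χ l) S' = Submodule.dualCoannihilator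
        (Submodule.span ℂ_[p] (frm hL χ l '' S')) := by
      ext x
      rw [Submodule.mem_dualCoannihilator]
      constructor
      · intro hx f hf
        refine Submodule.span_induction (p := fun f _ => f x = 0) ?_ ?_ ?_ ?_ hf
        · rintro _ ⟨i, hi, rfl⟩
          exact hx i hi
        · rfl
        · intro f g _ _ hf hg
          rw [LinearMap.add_apply, hf, hg, add_zero]
        · intro c f _ hf
          rw [LinearMap.smul_apply, hf, smul_zero]
      · intro hx j hj
        exact hx _ (Submodule.subset_span ⟨j, hj, rfl⟩)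
    have h2 := Subspace.finrank_add_finrank_dualCoannihilator_eq
      (Submodule.span ℂ_[p] (frm hL χ l '' S') : Subspace ℂ_[p] (Module.Dual ℂ_[p] (chiV χ)))
    have h3 : Module.finrank ℂ_[p] (chiV χ) ≤ d := by
      have h4 : Function.Injective ((lamV θ s).domRestrict (chiV χ)) := by
        rw [← LinearMap.ker_eq_bot, LinearMap.ker_eq_bot']
        rintro ⟨x, hx⟩ h5
        apply Subtype.ext
        exact eq_zero_of_places θ s hpl hx fun i => congrFun h5 i
      have h5 := LinearMap.finrank_le_finrank_of_injective h4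
      rwa [Module.finrank_fin_fun] at h5
    have h4 : rk ℂ_[p] (frm hL χ l) (Finset.univ.image m) =
        Module.finrank ℂ_[p] (Submodule.span ℂ_[p] (frm hL χ l '' S')) := by
      unfold rk
      rw [Finset.coe_image, Finset.coe_univ, Set.image_univ]
    rw [h4] at hmr
    rw [h1]
    have h5 : Module.finrank ℂ_[p] (Submodule.span ℂ_[p] (frm hL χ l '' S')) +
        Module.finrank ℂ_[p] (Submodule.dualCoannihilator
          (Submodule.span ℂ_[p] (frm hL χ l '' S'))) = Module.finrank ℂ_[p] (chiV χ) := h2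
    have h6 : Module.finrank ℂ_[p] (Submodule.dualCoannihilator
          (Submodule.span ℂ_[p] (frm hL χ l '' S'))) ≤ d ^ 2 / (3 * d - I.card) := by omega
    calc (3 * d - T.card) * _ ≤ (3 * d - I.card) * (d ^ 2 / (3 * d - I.card)) :=
          Nat.mul_le_mul (by omega) h6
      _ ≤ d ^ 2 := Nat.mul_div_le _ _

end small

end Pool.Agent.U157.SLK
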