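import Pool.Agent.U157.SLK.Core

set_option autoImplicit false
set_option linter.unusedSectionVars false

/-!
# CM types of extensions of an imaginary quadratic field
-/

namespace Pool.Agent.U157.SLK

open NumberField TensorProduct Pool.Agent.W289.SL Pool.Agent.W332.SL6
open Pool.Agent.W254.PA (exists_theta)

variable {p : ℕ} [Fact p.Prime]

/-- from `H` to a larger field -/
lemma push_chi {k K H N : Type} [Field k] [Field K] [Field H] [NumberField H] [Field N]
    [NumberField N] [Algebra k K] [Algebra k N] [Algebra K H] [Algebra H N] [Algebra K N]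
    [IsScalarTower K H N] [IsScalarTower k K N] [IsGalois K H]
    {χ : (H ≃ₐ[K] H) →* ℂ_[p]ˣ} {ψ : (N ≃ₐ[k] N) →* ℂ_[p]ˣ}
    (hχ : ∀ (g : N ≃ₐ[K] N) (h : H ≃ₐ[K] H),
      (∀ y, algebraMap H N (h y) = g (algebraMap H N y)) → χ h = ψ (g.restrictScalars k))
    {x : UM p H}
    (hx : ∀ τ : H ≃ₐ[K] H, actLin p (τ : H →+* H) x = ((χ τ : ℂ_[p]ˣ) : ℂ_[p]) • x)
    (g : N ≃ₐ[K] N) :
    push (g : N →+* N) (push (algebraMap H N) x) =
      ((ψ (g.restrictScalars k) : ℂ_[p]ˣ) : ℂ_[p]) • push (algebraMap H N) x := by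
  have h1 : ∀ y, algebraMap H N (g.restrictNormal H y) = g (algebraMap H N y) :=
    AlgEquiv.restrictNormal_commutes g H
  have h2 : (g : N →+* N).comp (algebraMap H N) =
      (algebraMap H N).comp ((g.restrictNormal H : H ≃ₐ[K] H) : H →+* H) :=
    RingHom.ext fun y => (h1 y).symm
  rw [push_push, h2, ← push_push, ← actLin_eq ((g.restrictNormal H : H ≃ₐ[K] H) : H →+* H), hx,
    map_smul, hχ g _ h1]

/-- for a CM field, a CM type contains exactly one of two conjugate embeddings -/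
lemma mem_type_iff {K : Type} [Field K] [NumberField K] [IsCMField K] {S : Set (K →+* ℂ_[p])}
    (hS : IsCMType p (maximalRealSubfield K) K S) (θ : ℂ_[p] ≃+* ℂ) (τ : K →+* ℂ_[p]) :
    τ ∈ S ↔ (kap θ).comp τ ∉ S := by
  have h1 := hS (IsCMField.complexConj K) (IsCMField.complexConj_ne_one K) τ
  have h2 : τ.comp (IsCMField.complexConj K : K →+* K) = (kap θ).comp τ := by
    ext y
    apply θ.injective
    have h3 := IsCMField.complexEmbedding_complexConj K ((θ : ℂ_[p] →+* ℂ).comp τ) y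
    change θ (τ (IsCMField.complexConj K y)) = θ (kap θ (τ y))
    rw [theta_kap_apply]
    exact h3
  rw [h2] at h1
  exact h1

section quad

variable {k K N : Type} [Field k] [NumberField k] [Field K] [NumberField K] [Field N]
  [NumberField N] [Algebra k K] [Algebra k N] [Algebra K N] [IsScalarTower k K N]
  [FiniteDimensional k N] [IsGalois k K] [IsGalois k N]

/-- the restriction to `K` -/
noncomputable abbrev res (k K N : Type) [Field k] [Field K] [Field N] [Algebra k K] [Algebra k N]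
    [Algebra K N] [IsScalarTower k K N] [Normal k K] : (N ≃ₐ[k] N) →* (K ≃ₐ[k] K) :=
  AlgEquiv.restrictNormalHom K

lemma res_commutes (g : N ≃ₐ[k] N) (y : K) :
    algebraMap K N (res k K N g y) = g (algebraMap K N y) :=
  AlgEquiv.restrictNormal_commutes g K y

lemma exists_restrict {g : N ≃ₐ[k] N} (hg : res k K N g = 1) :
    ∃ g' : N ≃ₐ[K] N, g'.restrictScalars k = g := by
  refine ⟨{ g with commutes' := fun y => ?_ }, ?_⟩
  · have h1 := res_commutes (K := K) g y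
    rw [hg] at h1
    exact h1.symm
  · ext y
    rfl

lemma push_mul (g h : N ≃ₐ[k] N) (z : UM p N) :
    push (g : N →+* N) (push (h : N →+* N) z) = push ((g * h : N ≃ₐ[k] N) : N →+* N) z := by
  rw [push_push]
  rfl

/-- the two components for a quadratic extension -/
lemma split2 (ψ : (N ≃ₐ[k] N) →* ℂ_[p]ˣ) (η : (K ≃ₐ[k] K) →* ℂ_[p]ˣ)
    {c : K ≃ₐ[k] K} (hc : ∀ a : K ≃ₐ[k] K, a = 1 ∨ a = c) (hη : ((η c : ℂ_[p]ˣ) : ℂ_[p]) = -1)
    {g0 : N ≃ₐ[k] N} (hg0 : res k K N g0 = c) {z : UM p N}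
    (hz : ∀ g : N ≃ₐ[k] N, res k K N g = 1 →
      push (g : N →+* N) z = ((ψ g : ℂ_[p]ˣ) : ℂ_[p]) • z) :
    InChi ψ (z + ((ψ g0⁻¹ : ℂ_[p]ˣ) : ℂ_[p]) • push (g0 : N →+* N) z) ∧
    InChi (ψ * η.comp (res k K N)) (z - ((ψ g0⁻¹ : ℂ_[p]ˣ) : ℂ_[p]) • push (g0 : N →+* N) z) := by
  have hcc : c * c = 1 := by
    rcases hc (c * c) with h | h
    · exact h
    · have : c = 1 := by simpa using h
      rw [this, one_mul]
  have h1 : ∀ g : N ≃ₐ[k] N, res k K N g = 1 →
      ((ψ g0⁻¹ : ℂ_[p]ˣ) : ℂ_[p]) • push (g : N →+* N) (push (g0 : N →+* N) z) =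
        ((ψ g : ℂ_[p]ˣ) : ℂ_[p]) • (((ψ g0⁻¹ : ℂ_[p]ˣ) : ℂ_[p]) • push (g0 : N →+* N) z) := by
    intro g hg
    have h2 : g * g0 = g0 * (g0⁻¹ * g * g0) := by group
    rw [push_mul, h2, ← push_mul, hz (g0⁻¹ * g * g0) (by
      rw [map_mul, map_mul, hg, mul_one, map_inv, inv_mul_cancel]), map_smul, smul_comm]
    congr 2
    rw [map_mul, map_mul, map_inv, mul_comm, mul_inv_cancel_left]
  have h2 : ∀ g : N ≃ₐ[k] N, res k K N g = c → push (g : N →+* N) z =
      ((ψ g : ℂ_[p]ˣ) : ℂ_[p]) • (((ψ g0⁻¹ : ℂ_[p]ˣ) : ℂ_[p]) • push (g0 : N →+* N) z) := by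
    intro g hg
    have h3 : g = g0 * (g0⁻¹ * g) := by group
    conv_lhs => rw [h3]
    rw [← push_mul, hz (g0⁻¹ * g) (by rw [map_mul, map_inv, hg, hg0, inv_mul_cancel]), map_smul,
      smul_smul, ← Units.val_mul, map_mul, mul_comm (ψ g)]
  have h3 : ∀ g : N ≃ₐ[k] N, res k K N g = c →
      ((ψ g0⁻¹ : ℂ_[p]ˣ) : ℂ_[p]) • push (g : N →+* N) (push (g0 : N →+* N) z) =
        ((ψ g : ℂ_[p]ˣ) : ℂ_[p]) • z := by
    intro g hg
    rw [push_mul, hz (g * g0) (by rw [map_mul, hg, hg0, hcc]), smul_smul, ← Units.val_mul,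
      map_mul, map_inv, mul_comm (ψ g), inv_mul_cancel_left]
  constructor
  · intro g
    rw [actLin_eq, map_add, map_smul, smul_add]
    rcases hc (res k K N g) with h | h
    · rw [hz g h, h1 g h]
    · rw [h2 g h, h3 g h, add_comm]
  · intro g
    have h4 : (((ψ * η.comp (res k K N)) g : ℂ_[p]ˣ) : ℂ_[p]) =
        ((ψ g : ℂ_[p]ˣ) : ℂ_[p]) * ((η (res k K N g) : ℂ_[p]ˣ) : ℂ_[p]) := rfl
    rw [actLin_eq, map_sub, map_smul, h4, mul_smul]
    rcases hc (res k K N g) with h | h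
    · rw [hz g h, h1 g h, h, map_one, Units.val_one, one_smul, smul_sub]
    · rw [h2 g h, h3 g h, h, hη, neg_one_smul, neg_sub, smul_sub]

variable [IsCMField K]

/-- **Failure for a quadratic extension.** -/
theorem ratio_of_fail (hpl : ∀ w w' : InfinitePlace k, w = w') (θ : ℂ_[p] ≃+* ℂ)
    {L : ℂ_[p] → ℂ_[p]} (hL : IsIwasawaLog p L) (σ : N →+* ℂ_[p])
    (ψ : (N ≃ₐ[k] N) →* ℂ_[p]ˣ) (η : (K ≃ₐ[k] K) →* ℂ_[p]ˣ)
    {c : K ≃ₐ[k] K} (hc : ∀ a : K ≃ₐ[k] K, a = 1 ∨ a = c) (hη : ((η c : ℂ_[p]ˣ) : ℂ_[p]) = -1)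
    {S : Set (K →+* ℂ_[p])} (hS : IsCMType p (maximalRealSubfield K) K S)
    {z : UM p N} (hz0 : z ≠ 0)
    (hz : ∀ g : N ≃ₐ[k] N, res k K N g = 1 →
      push (g : N →+* N) z = ((ψ g : ℂ_[p]ˣ) : ℂ_[p]) • z)
    (hlog : ∀ σ : N →+* ℂ_[p], σ.comp (algebraMap K N) ∈ S → logLin hL σ z = 0) :
    ∃ y0 y1 : UM p N, InChi ψ y0 ∧ InChi (ψ * η.comp (res k K N)) y1 ∧ y0 ≠ 0 ∧ y1 ≠ 0 ∧
      logLin hL ((kap θ).comp σ) y0 * logLin hL σ y1 +
        logLin hL σ y0 * logLin hL ((kap θ).comp σ) y1 = 0 := by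
  obtain ⟨g0, hg0⟩ : ∃ g0 : N ≃ₐ[k] N, res k K N g0 = c :=
    AlgEquiv.restrictNormalHom_surjective N c
  obtain ⟨hy0, hy1⟩ := split2 ψ η hc hη hg0 hz
  set q := ((ψ g0⁻¹ : ℂ_[p]ˣ) : ℂ_[p]) with hq
  have hq0 : q ≠ 0 := Units.ne_zero _
  set y0 := z + q • push (g0 : N →+* N) z with hy0def
  set y1 := z - q • push (g0 : N →+* N) z with hy1def
  -- the logarithms
  have hsum : ∀ σ : N →+* ℂ_[p], logLin hL σ y0 + logLin hL σ y1 = 2 * logLin hL σ z := by
    intro σ
    rw [hy0def, hy1def, map_add, map_sub]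
    ring
  have hdiff : ∀ σ : N →+* ℂ_[p], logLin hL σ y0 - logLin hL σ y1 =
      2 * q * logLin hL (σ.comp (g0 : N →+* N)) z := by
    intro σ
    rw [hy0def, hy1def, map_add, map_sub, map_smul, logLin_push, smul_eq_mul]
    ring
  have hz2 : (2 : ℂ_[p]) • z = y0 + y1 := by
    rw [hy0def, hy1def, two_smul]
    abel
  -- one of the two is in the type
  have hdich : ∀ σ : N →+* ℂ_[p], logLin hL σ z = 0 ∨ logLin hL ((kap θ).comp σ) z = 0 := by
    intro σ
    by_cases h : σ.comp (algebraMap K N) ∈ S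
    · exact Or.inl (hlog σ h)
    · right
      apply hlog
      by_contra h2
      rw [RingHom.comp_assoc] at h2
      exact h ((mem_type_iff hS θ _).2 h2)
  have h2 : (2 : ℂ_[p]) ≠ 0 := two_ne_zero
  have hzero : ∀ σ : N →+* ℂ_[p], logLin hL σ y0 = 0 → logLin hL σ y1 = 0 → False := by
    intro σ h3 h4
    have h5 := eq_zero_of_log_chi hpl hL σ hy0 h3
    have h6 := eq_zero_of_log_chi hpl hL σ hy1 h4
    rw [h5, h6, add_zero] at hz2
    exact hz0 ((smul_eq_zero.1 hz2).resolve_left h2)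
  have hA : logLin hL σ y0 + logLin hL σ y1 = 0 ∨
      logLin hL ((kap θ).comp σ) y0 + logLin hL ((kap θ).comp σ) y1 = 0 := by
    rcases hdich σ with h | h
    · left; rw [hsum, h, mul_zero]
    · right; rw [hsum, h, mul_zero]
  have hB : logLin hL σ y0 - logLin hL σ y1 = 0 ∨
      logLin hL ((kap θ).comp σ) y0 - logLin hL ((kap θ).comp σ) y1 = 0 := by
    rcases hdich (σ.comp (g0 : N →+* N)) with h | h
    · left; rw [hdiff, h, mul_zero]
    · right
      rw [hdiff, RingHom.comp_assoc, h, mul_zero]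
  -- the relation
  have hrel : logLin hL ((kap θ).comp σ) y0 * logLin hL σ y1 +
      logLin hL σ y0 * logLin hL ((kap θ).comp σ) y1 = 0 := by
    rcases hA with h3 | h3 <;> rcases hB with h4 | h4
    · exact (hzero σ (by apply mul_left_cancel₀ h2; linear_combination h3 + h4)
        (by apply mul_left_cancel₀ h2; linear_combination h3 - h4)).elim
    · linear_combination logLin hL ((kap θ).comp σ) y0 * h3 - logLin hL σ y0 * h4
    · linear_combination logLin hL σ y0 * h3 - logLin hL ((kap θ).comp σ) y0 * h4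
    · exact (hzero ((kap θ).comp σ) (by apply mul_left_cancel₀ h2; linear_combination h3 + h4)
        (by apply mul_left_cancel₀ h2; linear_combination h3 - h4)).elim
  have hne0 : y0 ≠ 0 := by
    intro h
    have h5 : y1 = 0 := by
      rcases hA with h3 | h3
      · rw [h, map_zero, zero_add] at h3
        exact eq_zero_of_log_chi hpl hL σ hy1 h3
      · rw [h, map_zero, zero_add] at h3
        exact eq_zero_of_log_chi hpl hL _ hy1 h3
    exact hzero σ (by rw [h, map_zero]) (by rw [h5, map_zero])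
  have hne1 : y1 ≠ 0 := by
    intro h
    have h5 : y0 = 0 := by
      rcases hA with h3 | h3
      · rw [h, map_zero, add_zero] at h3
        exact eq_zero_of_log_chi hpl hL σ hy0 h3
      · rw [h, map_zero, add_zero] at h3
        exact eq_zero_of_log_chi hpl hL _ hy0 h3
    exact hzero σ (by rw [h5, map_zero]) (by rw [h, map_zero])
  exact ⟨y0, y1, hy0, hy1, hne0, hne1, hrel⟩

end quad

end Pool.Agent.U157.SLK
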